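import Mathlib

/-! Bundle of small proof modules (one section per former module). -/

section

set_option autoImplicit false
open MeasureTheory

namespace Pool.Agent.Work.MP_fa3ce5_an

/-- entropy gained by splitting a mass `p + q` into `p` and `q` -/
lemma split_gain {p q : ℝ} (hp : 0 ≤ p) (hq : 0 ≤ q) :
    Real.negMulLog (p + q) + 2 * Real.log 2 * min p q ≤ Real.negMulLog p + Real.negMulLog q := by
  -- it is enough to treat `p ≤ q`
  have key : ∀ {p q : ℝ}, 0 ≤ p → p ≤ q →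
      Real.negMulLog (p + q) + 2 * Real.log 2 * p ≤ Real.negMulLog p + Real.negMulLog q := by
    intro p q hp hpq
    rcases hp.eq_or_lt with h0 | h0
    · subst h0; simp
    have hs : 0 < p + q := by linarith
    have hq : 0 < q := by linarith
    set s := p + q with hsdef
    set t := p / s with ht
    have ht0 : 0 ≤ t := by positivity
    have ht1 : 2 * t ≤ 1 := by
      rw [ht]; rw [← mul_div_assoc, div_le_one hs]; linarith
    have hpt : p = s * t := by rw [ht]; field_simp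
    have hqt : q = s * (1 - t) := by rw [ht]; field_simp; linarith
    have hbin : 2 * t * Real.log 2 ≤ Real.binEntropy t := by
      have hc := (Real.strictConcave_binEntropy).concaveOn
      have := hc.2 (show (0:ℝ) ∈ Set.Icc (0:ℝ) 1 by simp)
        (show (2⁻¹:ℝ) ∈ Set.Icc (0:ℝ) 1 by constructor <;> norm_num)
        (show (0:ℝ) ≤ 1 - 2 * t by linarith) (show (0:ℝ) ≤ 2 * t by linarith) (by ring)
      simp only [smul_eq_mul, Real.binEntropy_zero, Real.binEntropy_two_inv, mul_zero, zero_add] at this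
      have e : 2 * t * (2⁻¹:ℝ) = t := by ring
      rwa [e] at this
    have e1 : Real.negMulLog p + Real.negMulLog q = Real.negMulLog s + s * Real.binEntropy t := by
      have h1t : 0 < 1 - t := by linarith
      have htpos : 0 < t := by rw [ht]; positivity
      rw [Real.binEntropy_eq_negMulLog_add_negMulLog_one_sub]
      conv_lhs => rw [hpt, hqt]
      rw [Real.negMulLog_mul, Real.negMulLog_mul]
      ring
    rw [e1]
    have : 2 * Real.log 2 * p = s * (2 * t * Real.log 2) := by rw [hpt]; ring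
    rw [this]
    have := mul_le_mul_of_nonneg_left hbin hs.le
    linarith
  rcases le_total p q with h | h
  · rw [min_eq_left h]; exact key hp h
  · rw [min_eq_right h, add_comm p q, add_comm (Real.negMulLog p)]; exact key hq h

lemma negMulLog_add_le {p q : ℝ} (hp : 0 ≤ p) (hq : 0 ≤ q) :
    Real.negMulLog (p + q) ≤ Real.negMulLog p + Real.negMulLog q := by
  have := split_gain hp hq
  have h2 : 0 ≤ 2 * Real.log 2 * min p q := by
    have : 0 < Real.log 2 := Real.log_pos (by norm_num)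
    have := le_min hp hq
    positivity
  linarith

lemma negMulLog_sum_le {ι : Type*} (s : Finset ι) (p : ι → ℝ) (hp : ∀ i ∈ s, 0 ≤ p i) :
    Real.negMulLog (∑ i ∈ s, p i) ≤ ∑ i ∈ s, Real.negMulLog (p i) := by
  classical
  induction s using Finset.induction_on with
  | empty => simp
  | insert a s ha ih =>
    rw [Finset.sum_insert ha, Finset.sum_insert ha]
    have h1 := ih (fun i hi => hp i (Finset.mem_insert_of_mem hi))
    have h2 := negMulLog_add_le (hp a (Finset.mem_insert_self a s))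
      (Finset.sum_nonneg (fun i hi => hp i (Finset.mem_insert_of_mem hi)))
    linarith

lemma sum_negMulLog_le {κ : Type*} [Fintype κ] [Nonempty κ] (p : κ → ℝ) (hp : ∀ i, 0 ≤ p i) :
    ∑ i, Real.negMulLog (p i) ≤
      Real.negMulLog (∑ i, p i) + (∑ i, p i) * Real.log (Fintype.card κ) := by
  have hc := Real.concaveOn_negMulLog
  set N : ℝ := ((Fintype.card κ : ℕ) : ℝ) with hN
  have hNpos : 0 < N := by rw [hN]; exact_mod_cast Fintype.card_pos
  have := hc.le_map_sum (t := Finset.univ) (w := fun _ : κ => N⁻¹) (p := p)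
    (fun i _ => by positivity) (by simp [hN]) (fun i _ => hp i)
  simp only [smul_eq_mul, ← Finset.mul_sum] at this
  rw [Real.negMulLog_mul] at this
  have hlog : Real.negMulLog N⁻¹ = N⁻¹ * Real.log N := by
    rw [Real.negMulLog, Real.log_inv]; ring
  rw [hlog] at this
  have h2 := mul_le_mul_of_nonneg_left this hNpos.le
  have e1 : N * (N⁻¹ * ∑ i, Real.negMulLog (p i)) = ∑ i, Real.negMulLog (p i) := by
    field_simp
  have e2 : N * ((∑ i, p i) * (N⁻¹ * Real.log N) + N⁻¹ * Real.negMulLog (∑ i, p i)) =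
      Real.negMulLog (∑ i, p i) + (∑ i, p i) * Real.log N := by
    field_simp
    ring
  rw [e1, e2] at h2
  exact h2

/-- entropy of a finite-valued map -/
noncomputable def ent {Ω : Type*} [MeasurableSpace Ω] (μ : Measure Ω) {ι : Type*} [Fintype ι]
    (X : Ω → ι) : ℝ :=
  ∑ v, Real.negMulLog (μ.real (X ⁻¹' {v}))

lemma ent_le_of_factor {Ω : Type*} [MeasurableSpace Ω] (μ : Measure Ω) [IsProbabilityMeasure μ]
    {ι κ ζ : Type*} [Fintype ι] [Fintype κ] [Fintype ζ] [Nonempty κ]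
    (X : Ω → ι) (Y : Ω → κ) (Z : Ω → ζ)
    (hX : ∀ v, MeasurableSet (X ⁻¹' {v})) (hY : ∀ v, MeasurableSet (Y ⁻¹' {v}))
    (h : ι → κ → ζ) (hZ : ∀ᵐ ω ∂μ, Z ω = h (X ω) (Y ω)) :
    ent μ Z ≤ ent μ X + Real.log (Fintype.card κ) := by
  classical
  set p : ι → κ → ℝ := fun v b => μ.real (X ⁻¹' {v} ∩ Y ⁻¹' {b}) with hp
  have hp0 : ∀ v b, 0 ≤ p v b := fun v b => measureReal_nonneg
  have hsumY : ∀ v, ∑ b, p v b = μ.real (X ⁻¹' {v}) := by
    intro v
    have : X ⁻¹' {v} = ⋃ b ∈ (Finset.univ : Finset κ), (X ⁻¹' {v} ∩ Y ⁻¹' {b}) := by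
      ext ω; simp
    conv_rhs => rw [this]
    rw [measureReal_biUnion_finset]
    · intro a _ b _ hab
      refine Set.disjoint_left.2 ?_
      rintro ω ⟨_, h1⟩ ⟨_, h2⟩
      exact hab (h1.symm.trans h2)
    · intro b _
      exact (hX v).inter (hY b)
  have hsumX : ∑ v, μ.real (X ⁻¹' {v}) = 1 := by
    have : (Set.univ : Set Ω) = ⋃ v ∈ (Finset.univ : Finset ι), X ⁻¹' {v} := by
      ext ω; simp
    have h1 : μ.real Set.univ = 1 := by simp
    rw [← h1, this, measureReal_biUnion_finset]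
    · intro a _ b _ hab
      refine Set.disjoint_left.2 ?_
      rintro ω h1 h2
      exact hab (h1.symm.trans h2)
    · intro v _
      exact hX v
  have hsumZ : ∀ z, μ.real (Z ⁻¹' {z}) =
      ∑ vb ∈ (Finset.univ : Finset (ι × κ)).filter (fun vb => h vb.1 vb.2 = z), p vb.1 vb.2 := by
    intro z
    have e : (Z ⁻¹' {z} : Set Ω) =ᵐ[μ]
        ⋃ vb ∈ (Finset.univ : Finset (ι × κ)).filter (fun vb => h vb.1 vb.2 = z),
          (X ⁻¹' {vb.1} ∩ Y ⁻¹' {vb.2}) := by
      refine Filter.eventuallyEq_set.2 ?_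
      filter_upwards [hZ] with ω hω
      simp only [Finset.mem_filter, Finset.mem_univ, true_and, Set.mem_iUnion, Set.mem_inter_iff,
        Set.mem_preimage, Set.mem_singleton_iff, exists_prop]
      constructor
      · intro hz
        exact ⟨(X ω, Y ω), by rw [← hz, hω], rfl, rfl⟩
      · rintro ⟨vb, h1, h2, h3⟩
        rw [hω, h2, h3, h1]
    rw [measureReal_congr e, measureReal_biUnion_finset]
    · intro a _ b _ hab
      refine Set.disjoint_left.2 ?_
      rintro ω ⟨h1, h2⟩ ⟨h3, h4⟩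
      exact hab (Prod.ext (h1.symm.trans h3) (h2.symm.trans h4))
    · intro b _
      exact (hX _).inter (hY _)
  calc ent μ Z = ∑ z, Real.negMulLog (μ.real (Z ⁻¹' {z})) := rfl
    _ ≤ ∑ z, ∑ vb ∈ (Finset.univ : Finset (ι × κ)).filter (fun vb => h vb.1 vb.2 = z),
          Real.negMulLog (p vb.1 vb.2) := by
        apply Finset.sum_le_sum
        intro z _
        rw [hsumZ z]
        exact negMulLog_sum_le _ _ (fun i _ => hp0 _ _)
    _ = ∑ vb : ι × κ, Real.negMulLog (p vb.1 vb.2) := by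
        exact Finset.sum_fiberwise (Finset.univ : Finset (ι × κ)) (fun vb => h vb.1 vb.2)
          (fun vb => Real.negMulLog (p vb.1 vb.2))
    _ = ∑ v, ∑ b, Real.negMulLog (p v b) := by
        rw [Fintype.sum_prod_type]
    _ ≤ ∑ v, (Real.negMulLog (μ.real (X ⁻¹' {v})) + μ.real (X ⁻¹' {v}) *
          Real.log (Fintype.card κ)) := by
        apply Finset.sum_le_sum
        intro v _
        have := sum_negMulLog_le (p v) (hp0 v)
        rwa [hsumY v] at this
    _ = ent μ X + Real.log (Fintype.card κ) := by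
        rw [Finset.sum_add_distrib, ← Finset.sum_mul, hsumX, one_mul]; rfl

end Pool.Agent.Work.MP_fa3ce5_an

end

section

set_option autoImplicit false
open MeasureTheory ProbabilityTheory
open scoped symmDiff

namespace Pool.Agent.Work.MP_fa3ce5_an

variable {α : Type*} [MeasurableSpace α]

/-- the cylinder of the word `w` for the process of visits of `(x,y)` to `D` -/
def Cyl (T : α ≃ᵐ α) (D : Set (α × α)) (n : ℕ) (w : Fin n → Bool) : Set (α × α) :=
  {p | ∀ i : Fin n, (((T : α → α)^[(i : ℕ)] p.1, (T : α → α)^[(i : ℕ)] p.2) ∈ D ↔ w i = true)}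

/-- its measure -/
noncomputable def rho (μ : Measure α) (T : α ≃ᵐ α) (D : Set (α × α)) (n : ℕ)
    (w : Fin n → Bool) : ℝ :=
  (μ.prod μ).real (Cyl T D n w)

/-- the points whose section process has the right law -/
def GoodPt (μ : Measure α) (T : α ≃ᵐ α) (D : Set (α × α)) (x : α) : Prop :=
  ∀ (n : ℕ) (w : Fin n → Bool), μ.real (Prod.mk x ⁻¹' Cyl T D n w) = rho μ T D n w

/-- the error of the best prediction -/
noncomputable def err (μ : Measure α) (T : α ≃ᵐ α) (D : Set (α × α)) (n : ℕ) : ℝ :=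
  ∑ w : Fin n → Bool, min (rho μ T D (n + 1) (Fin.snoc w false)) (rho μ T D (n + 1) (Fin.snoc w true))

/-- block entropies of the process -/
noncomputable def Hrho (μ : Measure α) (T : α ≃ᵐ α) (D : Set (α × α)) (n : ℕ) : ℝ :=
  ∑ w : Fin n → Bool, Real.negMulLog (rho μ T D n w)

/-- the section at time `n` -/
def Sec (T : α ≃ᵐ α) (D : Set (α × α)) (n : ℕ) (x : α) : Set α :=
  {y | ((T : α → α)^[n] x, (T : α → α)^[n] y) ∈ D}

lemma measurable_iter (T : α ≃ᵐ α) (n : ℕ) : Measurable ((T : α → α)^[n]) :=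
  T.measurable.iterate n

lemma measurableSet_cyl (T : α ≃ᵐ α) {D : Set (α × α)} (hD : MeasurableSet D) (n : ℕ)
    (w : Fin n → Bool) : MeasurableSet (Cyl T D n w) := by
  have : Cyl T D n w = ⋂ i : Fin n, {p | (((T : α → α)^[(i : ℕ)] p.1,
      (T : α → α)^[(i : ℕ)] p.2) ∈ D ↔ w i = true)} := by
    ext p; simp [Cyl]
  rw [this]
  refine MeasurableSet.iInter (fun i => ?_)
  have hm : Measurable (fun p : α × α => ((T : α → α)^[(i : ℕ)] p.1, (T : α → α)^[(i : ℕ)] p.2)) :=
    ((measurable_iter T i).comp measurable_fst).prodMk ((measurable_iter T i).comp measurable_snd)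
  have h1 : MeasurableSet {p : α × α | ((T : α → α)^[(i : ℕ)] p.1,
      (T : α → α)^[(i : ℕ)] p.2) ∈ D} := hm hD
  by_cases hw : w i = true
  · simpa [hw] using h1
  · have e : {p : α × α | ((T : α → α)^[(i : ℕ)] p.1,
      (T : α → α)^[(i : ℕ)] p.2) ∈ D ↔ w i = true} = {p : α × α | ((T : α → α)^[(i : ℕ)] p.1,
      (T : α → α)^[(i : ℕ)] p.2) ∈ D}ᶜ := by
      ext p
      simp [hw]
    rw [e]
    exact h1.compl

lemma measurableSet_sec (T : α ≃ᵐ α) {D : Set (α × α)} (hD : MeasurableSet D) (n : ℕ)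
    (x : α) : MeasurableSet (Sec T D n x) := by
  have hm : Measurable (fun y : α => ((T : α → α)^[n] x, (T : α → α)^[n] y)) :=
    measurable_const.prodMk (measurable_iter T n)
  exact hm hD

lemma sec_eq_preimage (T : α ≃ᵐ α) (D : Set (α × α)) (n : ℕ) (x : α) :
    Sec T D n x = (T : α → α)^[n] ⁻¹' (Prod.mk ((T : α → α)^[n] x) ⁻¹' D) := rfl

lemma sec_section_snoc (T : α ≃ᵐ α) (D : Set (α × α)) (n : ℕ) (w : Fin n → Bool) (b : Bool)
    (x : α) :
    Prod.mk x ⁻¹' Cyl T D (n + 1) (Fin.snoc w b) =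
      (Prod.mk x ⁻¹' Cyl T D n w) ∩ {y | y ∈ Sec T D n x ↔ b = true} := by
  ext y
  simp only [Cyl, Sec, Set.preimage_ofPred_eq, Set.mem_ofPred_eq, Set.mem_inter_iff]
  constructor
  · intro h
    refine ⟨fun i => ?_, ?_⟩
    · have := h i.castSucc
      simpa using this
    · have := h (Fin.last n)
      simpa using this
  · rintro ⟨h1, h2⟩ i
    refine Fin.lastCases ?_ (fun i => ?_) i
    · simpa using h2
    · simpa using h1 i

lemma cyl_snoc (T : α ≃ᵐ α) (D : Set (α × α)) (n : ℕ) (w : Fin n → Bool) (b : Bool) :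
    Cyl T D (n + 1) (Fin.snoc w b) =
      (Cyl T D n w) ∩ {p | ((T : α → α)^[n] p.1, (T : α → α)^[n] p.2) ∈ D ↔ b = true} := by
  ext ⟨x, y⟩
  have := congrArg (fun s : Set α => y ∈ s) (sec_section_snoc T D n w b x)
  simpa [Sec] using this

lemma rho_add (μ : Measure α) [IsProbabilityMeasure μ] (T : α ≃ᵐ α) {D : Set (α × α)}
    (hD : MeasurableSet D) (n : ℕ) (w : Fin n → Bool) :
    rho μ T D (n + 1) (Fin.snoc w false) + rho μ T D (n + 1) (Fin.snoc w true) =
      rho μ T D n w := by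
  have hm : Measurable (fun p : α × α => ((T : α → α)^[n] p.1, (T : α → α)^[n] p.2)) :=
    ((measurable_iter T n).comp measurable_fst).prodMk ((measurable_iter T n).comp measurable_snd)
  have hS : MeasurableSet {p : α × α | ((T : α → α)^[n] p.1, (T : α → α)^[n] p.2) ∈ D} := hm hD
  unfold rho
  rw [cyl_snoc, cyl_snoc]
  have e1 : {p : α × α | ((T : α → α)^[n] p.1, (T : α → α)^[n] p.2) ∈ D ↔ true = true} =
      {p : α × α | ((T : α → α)^[n] p.1, (T : α → α)^[n] p.2) ∈ D} := by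
    ext p; simp
  have e2 : {p : α × α | ((T : α → α)^[n] p.1, (T : α → α)^[n] p.2) ∈ D ↔ false = true} =
      {p : α × α | ((T : α → α)^[n] p.1, (T : α → α)^[n] p.2) ∈ D}ᶜ := by
    ext p; simp
  rw [e1, e2, add_comm, ← Set.sdiff_eq]
  exact measureReal_inter_add_sdiff hS

lemma rho_nonneg (μ : Measure α) (T : α ≃ᵐ α) (D : Set (α × α)) (n : ℕ) (w : Fin n → Bool) :
    0 ≤ rho μ T D n w := measureReal_nonneg

lemma Hrho_succ (μ : Measure α) [IsProbabilityMeasure μ] (T : α ≃ᵐ α) {D : Set (α × α)}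
    (hD : MeasurableSet D) (n : ℕ) :
    Hrho μ T D n + 2 * Real.log 2 * err μ T D n ≤ Hrho μ T D (n + 1) := by
  have e : Hrho μ T D (n + 1) = ∑ w : Fin n → Bool,
      (Real.negMulLog (rho μ T D (n + 1) (Fin.snoc w false)) +
        Real.negMulLog (rho μ T D (n + 1) (Fin.snoc w true))) := by
    unfold Hrho
    rw [← Fintype.sum_equiv (Fin.snocEquiv (fun _ : Fin (n + 1) => Bool))
      (fun q => Real.negMulLog (rho μ T D (n + 1) (Fin.snoc q.2 q.1)))
      (fun w => Real.negMulLog (rho μ T D (n + 1) w)) (fun q => rfl)]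
    rw [Fintype.sum_prod_type_right]
    apply Finset.sum_congr rfl
    intro w _
    rw [Fintype.sum_bool, add_comm]
  rw [e]
  unfold Hrho err
  rw [Finset.mul_sum, ← Finset.sum_add_distrib]
  apply Finset.sum_le_sum
  intro w _
  rw [← rho_add μ T hD n w]
  exact split_gain (rho_nonneg _ _ _ _ _) (rho_nonneg _ _ _ _ _)

lemma Hrho_zero (μ : Measure α) [IsProbabilityMeasure μ] (T : α ≃ᵐ α) (D : Set (α × α)) :
    Hrho μ T D 0 = 0 := by
  unfold Hrho rho
  have : ∀ w : Fin 0 → Bool, Cyl T D 0 w = Set.univ := by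
    intro w; ext p; simp [Cyl]
  simp [this]

/-- if all prediction errors are at least `δ/2`, the entropy is at least `δ log 2` -/
lemma Hrho_ge (μ : Measure α) [IsProbabilityMeasure μ] (T : α ≃ᵐ α) {D : Set (α × α)}
    (hD : MeasurableSet D) (δ : ℝ) (h : ∀ n, δ / 2 ≤ err μ T D n) (n : ℕ) :
    (n : ℝ) * (δ * Real.log 2) ≤ Hrho μ T D n := by
  induction n with
  | zero => rw [Hrho_zero]; simp
  | succ n ih =>
    have h1 := Hrho_succ μ T hD n
    have h2 : 0 < Real.log 2 := Real.log_pos (by norm_num)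
    have h3 := mul_le_mul_of_nonneg_left (h n) (by positivity : 0 ≤ 2 * Real.log 2)
    push_cast
    nlinarith

/-- the key estimate: two points with the same past sections have almost the same next section -/
lemma sec_close (μ : Measure α) [IsProbabilityMeasure μ] (T : α ≃ᵐ α) {D : Set (α × α)}
    (hD : MeasurableSet D) (n : ℕ) {x x' : α} (hx : GoodPt μ T D x) (hx' : GoodPt μ T D x')
    (hpast : ∀ i < n, μ (Sec T D i x ∆ Sec T D i x') = 0) :
    μ.real (Sec T D n x ∆ Sec T D n x') ≤ 2 * err μ T D n := by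
  classical
  -- the cylinders of the two points agree
  have hcyl : ∀ w : Fin n → Bool,
      (Prod.mk x ⁻¹' Cyl T D n w : Set α) =ᵐ[μ] (Prod.mk x' ⁻¹' Cyl T D n w : Set α) := by
    intro w
    have hall : ∀ᵐ y ∂μ, ∀ i : Fin n, (y ∈ Sec T D i x ↔ y ∈ Sec T D i x') := by
      rw [ae_all_iff]
      intro i
      have := measure_symmDiff_eq_zero_iff.1 (hpast i i.2)
      exact Filter.eventuallyEq_set.1 this
    refine Filter.eventuallyEq_set.2 ?_
    filter_upwards [hall] with y hy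
    simp only [Cyl, Set.preimage_ofPred_eq, Set.mem_ofPred_eq]
    constructor
    · intro h i
      exact (hy i).symm.trans (h i)
    · intro h i
      exact (hy i).trans (h i)
  have hcover : (Sec T D n x ∆ Sec T D n x') ⊆
      ⋃ w ∈ (Finset.univ : Finset (Fin n → Bool)),
        ((Prod.mk x ⁻¹' Cyl T D n w) ∩ (Sec T D n x ∆ Sec T D n x')) := by
    intro y hy
    simp only [Finset.mem_univ, Set.iUnion_true, Set.mem_iUnion]
    refine ⟨fun i => decide ((((T : α → α)^[(i : ℕ)] x, (T : α → α)^[(i : ℕ)] y) ∈ D)), ?_, hy⟩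
    simp [Cyl]
  have hm : ∀ (w : Fin n → Bool) (b : Bool) (z : α), GoodPt μ T D z →
      μ.real ((Prod.mk z ⁻¹' Cyl T D n w) ∩ {y | y ∈ Sec T D n z ↔ b = true}) =
        rho μ T D (n + 1) (Fin.snoc w b) := by
    intro w b z hz
    rw [← sec_section_snoc]
    exact hz _ _
  have hw : ∀ w : Fin n → Bool,
      μ.real ((Prod.mk x ⁻¹' Cyl T D n w) ∩ (Sec T D n x ∆ Sec T D n x')) ≤
        2 * min (rho μ T D (n + 1) (Fin.snoc w false)) (rho μ T D (n + 1) (Fin.snoc w true)) := by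
    intro w
    have hb : ∀ b : Bool, μ.real ((Prod.mk x ⁻¹' Cyl T D n w) ∩
        (Sec T D n x ∆ Sec T D n x')) ≤ 2 * rho μ T D (n + 1) (Fin.snoc w b) := by
      intro b
      have hsub : ((Prod.mk x ⁻¹' Cyl T D n w) ∩ (Sec T D n x ∆ Sec T D n x') : Set α) ⊆
          ((Prod.mk x ⁻¹' Cyl T D n w) ∩ {y | y ∈ Sec T D n x ↔ b = true}) ∪
          ((Prod.mk x ⁻¹' Cyl T D n w) ∩ {y | y ∈ Sec T D n x' ↔ b = true}) := by
        rintro y ⟨h1, h2⟩
        rw [Set.mem_symmDiff] at h2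
        cases b
        · rcases h2 with ⟨h2, h3⟩ | ⟨h2, h3⟩
          · exact Or.inr ⟨h1, by simpa using h3⟩
          · exact Or.inl ⟨h1, by simpa using h3⟩
        · rcases h2 with ⟨h2, h3⟩ | ⟨h2, h3⟩
          · exact Or.inl ⟨h1, by simpa using h2⟩
          · exact Or.inr ⟨h1, by simpa using h2⟩
      have e2 : μ.real ((Prod.mk x ⁻¹' Cyl T D n w) ∩ {y | y ∈ Sec T D n x' ↔ b = true}) =
          μ.real ((Prod.mk x' ⁻¹' Cyl T D n w) ∩ {y | y ∈ Sec T D n x' ↔ b = true}) := by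
        apply measureReal_congr
        exact (hcyl w).inter (ae_eq_refl _)
      calc μ.real ((Prod.mk x ⁻¹' Cyl T D n w) ∩ (Sec T D n x ∆ Sec T D n x'))
          ≤ μ.real (((Prod.mk x ⁻¹' Cyl T D n w) ∩ {y | y ∈ Sec T D n x ↔ b = true}) ∪
          ((Prod.mk x ⁻¹' Cyl T D n w) ∩ {y | y ∈ Sec T D n x' ↔ b = true})) :=
            measureReal_mono hsub
        _ ≤ _ := measureReal_union_le _ _
        _ = 2 * rho μ T D (n + 1) (Fin.snoc w b) := by
            rw [e2, hm w b x hx, hm w b x' hx']; ring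
    rcases min_choice (rho μ T D (n + 1) (Fin.snoc w false))
      (rho μ T D (n + 1) (Fin.snoc w true)) with h | h
    · rw [h]; exact hb false
    · rw [h]; exact hb true
  calc μ.real (Sec T D n x ∆ Sec T D n x')
      ≤ μ.real (⋃ w ∈ (Finset.univ : Finset (Fin n → Bool)),
        ((Prod.mk x ⁻¹' Cyl T D n w) ∩ (Sec T D n x ∆ Sec T D n x'))) :=
          measureReal_mono hcover (measure_ne_top _ _)
    _ ≤ ∑ w : Fin n → Bool,
        μ.real ((Prod.mk x ⁻¹' Cyl T D n w) ∩ (Sec T D n x ∆ Sec T D n x')) :=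
          measureReal_biUnion_finset_le _ _
    _ ≤ ∑ w : Fin n → Bool,
        2 * min (rho μ T D (n + 1) (Fin.snoc w false)) (rho μ T D (n + 1) (Fin.snoc w true)) :=
          Finset.sum_le_sum (fun w _ => hw w)
    _ = 2 * err μ T D n := by rw [← Finset.mul_sum]; rfl

end Pool.Agent.Work.MP_fa3ce5_an

end

section

set_option autoImplicit false
open MeasureTheory ProbabilityTheory
open scoped symmDiff ENNReal

namespace Pool.Agent.Work.MP_fa3ce5_an

variable {α : Type*} [MeasurableSpace α]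

/-- distance of two sections -/
noncomputable def dd (μ : Measure α) (D : Set (α × α)) (x x' : α) : ℝ≥0∞ :=
  μ ((Prod.mk x ⁻¹' D) ∆ (Prod.mk x' ⁻¹' D))

lemma measurable_dd (μ : Measure α) [IsProbabilityMeasure μ] {D : Set (α × α)}
    (hD : MeasurableSet D) : Measurable (fun p : α × α => dd μ D p.1 p.2) := by
  have h1 : Measurable (fun q : (α × α) × α => (q.1.1, q.2)) :=
    (measurable_fst.comp measurable_fst).prodMk measurable_snd
  have h2 : Measurable (fun q : (α × α) × α => (q.1.2, q.2)) :=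
    (measurable_snd.comp measurable_fst).prodMk measurable_snd
  have := measurable_measure_prodMk_left (ν := μ) ((h1 hD).symmDiff (h2 hD))
  exact this

lemma measurable_dist_set (μ : Measure α) [IsProbabilityMeasure μ] {D : Set (α × α)}
    (hD : MeasurableSet D) {C : Set α} (hC : MeasurableSet C) :
    Measurable (fun x : α => μ ((Prod.mk x ⁻¹' D) ∆ C)) := by
  have := measurable_measure_prodMk_left (ν := μ) (hD.symmDiff (measurable_snd hC))
  exact this

lemma sec_dd (μ : Measure α) [IsProbabilityMeasure μ] {T : α ≃ᵐ α} (hT : MeasurePreserving T μ μ)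
    {D : Set (α × α)} (hD : MeasurableSet D) (n : ℕ) (x x' : α) :
    μ (Sec T D n x ∆ Sec T D n x') = dd μ D ((T : α → α)^[n] x) ((T : α → α)^[n] x') := by
  rw [sec_eq_preimage, sec_eq_preimage, ← Set.preimage_symmDiff]
  rw [(hT.iterate n).measure_preimage]
  · rfl
  · exact ((measurable_prodMk_left hD).symmDiff (measurable_prodMk_left hD)).nullMeasurableSet

lemma symmDiff_lt_of {μ : Measure α} {A B C : Set α} {a b : ℝ≥0∞}
    (h1 : μ (A ∆ C) < a) (h2 : μ (B ∆ C) < b) : μ (A ∆ B) < a + b := by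
  calc μ (A ∆ B) ≤ μ ((A ∆ C) ∪ (C ∆ B)) := measure_mono (symmDiff_triangle A C B)
    _ ≤ μ (A ∆ C) + μ (C ∆ B) := measure_union_le _ _
    _ < a + b := by
        rw [symmDiff_comm C B]
        exact ENNReal.add_lt_add h1 h2

/-- the gap condition -/
def Gap (μ : Measure α) (D : Set (α × α)) (δ : ℝ) : Prop :=
  ∀ᵐ p ∂(μ.prod μ), dd μ D p.1 p.2 = 0 ∨ ENNReal.ofReal δ ≤ dd μ D p.1 p.2

lemma dd_congr {μ : Measure α} {D : Set (α × α)} {x x' y y' : α} {E E' : Set α}
    (hx : μ ((Prod.mk x ⁻¹' D) ∆ E) = 0) (hy : μ ((Prod.mk y ⁻¹' D) ∆ E) = 0)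
    (hx' : μ ((Prod.mk x' ⁻¹' D) ∆ E') = 0) (hy' : μ ((Prod.mk y' ⁻¹' D) ∆ E') = 0) :
    dd μ D x x' = dd μ D y y' := by
  have h1 := (measure_symmDiff_eq_zero_iff.1 hx).trans (measure_symmDiff_eq_zero_iff.1 hy).symm
  have h2 := (measure_symmDiff_eq_zero_iff.1 hx').trans (measure_symmDiff_eq_zero_iff.1 hy').symm
  exact measure_congr (ae_eq_set_symmDiff h1 h2)

lemma dd_eq_zero_of {μ : Measure α} {D : Set (α × α)} {x x' : α} {E : Set α}
    (hx : μ ((Prod.mk x ⁻¹' D) ∆ E) = 0) (hx' : μ ((Prod.mk x' ⁻¹' D) ∆ E) = 0) :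
    dd μ D x x' = 0 := by
  have h1 := (measure_symmDiff_eq_zero_iff.1 hx).trans (measure_symmDiff_eq_zero_iff.1 hx').symm
  exact measure_symmDiff_eq_zero_iff.2 h1

theorem exists_classes (μ : Measure α) [IsProbabilityMeasure μ]
    [MeasurableSpace.CountablyGenerated α] {D : Set (α × α)} (hD : MeasurableSet D)
    {δ : ℝ} (hδ : 0 < δ) (hgap : Gap μ D δ) :
    ∃ E : ℕ → Set α, (∀ j, MeasurableSet (E j)) ∧
      (∀ᵐ x ∂μ, ∃ j, μ ((Prod.mk x ⁻¹' D) ∆ E j) = 0) ∧
      ∃ X1 : Set α, (∀ᵐ x ∂μ, x ∈ X1) ∧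
        ∀ x ∈ X1, ∀ x' ∈ X1, dd μ D x x' = 0 ∨ ENNReal.ofReal δ ≤ dd μ D x x' := by
  classical
  obtain ⟨𝒜, hc, hd⟩ := exists_countable_measureDense μ
  obtain ⟨C, hC⟩ := hc.exists_eq_range hd.nonempty
  have hCm : ∀ j, MeasurableSet (C j) := fun j => hd.measurable _ (by rw [hC]; exact ⟨j, rfl⟩)
  set Q : ℕ → Set α := fun j => {x | μ ((Prod.mk x ⁻¹' D) ∆ C j) < ENNReal.ofReal (δ / 2)}
    with hQ
  have hQcov : ∀ x, ∃ j, x ∈ Q j := by
    intro x
    obtain ⟨t, ht, hlt⟩ := hd.approx (Prod.mk x ⁻¹' D) (measurable_prodMk_left hD)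
      (measure_ne_top _ _) (δ / 2) (by positivity)
    rw [hC] at ht
    obtain ⟨j, rfl⟩ := ht
    exact ⟨j, hlt⟩
  have hG0 : ∀ᵐ x ∂μ, ∀ᵐ x' ∂μ, dd μ D x x' = 0 ∨ ENNReal.ofReal δ ≤ dd μ D x x' :=
    Measure.ae_ae_of_ae_prod hgap
  set G0 : Set α := {x | ∀ᵐ x' ∂μ, dd μ D x x' = 0 ∨ ENNReal.ofReal δ ≤ dd μ D x x'} with hG0def
  set E : ℕ → Set α := fun j =>
    if h : ∃ x, x ∈ Q j ∧ x ∈ G0 then Prod.mk h.choose ⁻¹' D else ∅ with hE
  have hEm : ∀ j, MeasurableSet (E j) := by
    intro j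
    simp only [hE]
    split_ifs with h
    · exact measurable_prodMk_left hD
    · exact MeasurableSet.empty
  have hmain : ∀ᵐ x ∂μ, ∀ j, x ∈ Q j → μ ((Prod.mk x ⁻¹' D) ∆ E j) = 0 := by
    rw [ae_all_iff]
    intro j
    by_cases h : ∃ x, x ∈ Q j ∧ x ∈ G0
    · have hEj : E j = Prod.mk h.choose ⁻¹' D := by simp only [hE]; rw [dif_pos h]
      have hq := h.choose_spec
      filter_upwards [hq.2] with x' hx' hx'Q
      rw [hEj, symmDiff_comm]
      rcases hx' with h0 | h0
      · exact h0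
      · exfalso
        have h3 : dd μ D h.choose x' < ENNReal.ofReal (δ / 2) + ENNReal.ofReal (δ / 2) :=
          symmDiff_lt_of hq.1 hx'Q
        rw [← ENNReal.ofReal_add (by positivity) (by positivity), add_halves] at h3
        exact absurd h0 (not_le.2 h3)
    · filter_upwards [hG0] with x hx hxQ
      exact absurd ⟨x, hxQ, hx⟩ h
  have hcover : ∀ᵐ x ∂μ, ∃ j, μ ((Prod.mk x ⁻¹' D) ∆ E j) = 0 := by
    filter_upwards [hmain] with x hx
    obtain ⟨j, hj⟩ := hQcov x
    exact ⟨j, hx j hj⟩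
  refine ⟨E, hEm, hcover, ?_⟩
  set V : ℕ → Set α := fun j => {x | μ ((Prod.mk x ⁻¹' D) ∆ E j) = 0} with hV
  refine ⟨{x | (∃ j, x ∈ V j) ∧ ∀ j, x ∈ V j → μ (V j) ≠ 0}, ?_, ?_⟩
  · have h1 : ∀ᵐ x ∂μ, ∀ j, x ∈ V j → μ (V j) ≠ 0 := by
      rw [ae_all_iff]
      intro j
      by_cases h : μ (V j) = 0
      · have : ∀ᵐ x ∂μ, x ∉ V j := measure_eq_zero_iff_ae_notMem.1 h
        filter_upwards [this] with x hx hx2
        exact absurd hx2 hx
      · exact Filter.Eventually.of_forall (fun x _ => h)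
    filter_upwards [hcover, h1] with x hx1 hx2
    exact ⟨hx1, hx2⟩
  · rintro x ⟨⟨j, hj⟩, hx⟩ x' ⟨⟨j', hj'⟩, hx'⟩
    by_contra hcon
    have hsub : (V j) ×ˢ (V j') ⊆
        {p : α × α | ¬ (dd μ D p.1 p.2 = 0 ∨ ENNReal.ofReal δ ≤ dd μ D p.1 p.2)} := by
      rintro ⟨y, y'⟩ ⟨hy, hy'⟩
      have e : dd μ D y y' = dd μ D x x' := dd_congr hy hj hy' hj'
      simp only [Set.mem_ofPred_eq]
      rw [e]
      exact hcon
    have h0 : (μ.prod μ) ((V j) ×ˢ (V j')) = 0 := measure_mono_null hsub hgap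
    rw [Measure.prod_prod] at h0
    rcases mul_eq_zero.1 h0 with h | h
    · exact hx j hj h
    · exact hx' j' hj' h

theorem err_ge (μ : Measure α) [IsProbabilityMeasure μ]
    [MeasurableSpace.CountablyGenerated α] {T : α ≃ᵐ α} (hT : MeasurePreserving T μ μ)
    (hErg : Ergodic (Prod.map T T) (μ.prod μ)) {D : Set (α × α)} (hD : MeasurableSet D)
    (hgood : ∀ᵐ x ∂μ, GoodPt μ T D x)
    {δ : ℝ} (hδ : 0 < δ) (hgap : Gap μ D δ)
    (hne : ¬ ∃ B : Set α, MeasurableSet B ∧ D =ᵐ[μ.prod μ] (Prod.snd ⁻¹' B : Set (α × α)))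
    (n : ℕ) : δ / 2 ≤ err μ T D n := by
  classical
  by_contra hlt
  push Not at hlt
  obtain ⟨E, hEm, hcover, X1, hX1, hgap1⟩ := exists_classes μ hD hδ hgap
  have hiter : ∀ {P : α → Prop}, (∀ᵐ x ∂μ, P x) → ∀ᵐ x ∂μ, ∀ i : ℕ, P ((T : α → α)^[i] x) := by
    intro P hP
    rw [ae_all_iff]
    intro i
    exact (hT.iterate i).quasiMeasurePreserving.ae hP
  have hX2 : ∀ᵐ x ∂μ, GoodPt μ T D x ∧ ∀ i : ℕ, (T : α → α)^[i] x ∈ X1 := by
    filter_upwards [hgood, hiter hX1] with x h1 h2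
    exact ⟨h1, h2⟩
  have hpair : ∀ᵐ p ∂(μ.prod μ), (GoodPt μ T D p.1 ∧ ∀ i : ℕ, (T : α → α)^[i] p.1 ∈ X1) ∧
      (GoodPt μ T D p.2 ∧ ∀ i : ℕ, (T : α → α)^[i] p.2 ∈ X1) := by
    have h1 := (Measure.quasiMeasurePreserving_fst (μ := μ) (ν := μ)).ae hX2
    have h2 := (Measure.quasiMeasurePreserving_snd (μ := μ) (ν := μ)).ae hX2
    filter_upwards [h1, h2] with p hp1 hp2
    exact ⟨hp1, hp2⟩
  set R : Set (α × α) :=
    {p | ∀ i < n, dd μ D ((T : α → α)^[i] p.1) ((T : α → α)^[i] p.2) = 0} with hR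
  have hstep : ∀ p : α × α, ((GoodPt μ T D p.1 ∧ ∀ i : ℕ, (T : α → α)^[i] p.1 ∈ X1) ∧
      (GoodPt μ T D p.2 ∧ ∀ i : ℕ, (T : α → α)^[i] p.2 ∈ X1)) → p ∈ R →
      dd μ D ((T : α → α)^[n] p.1) ((T : α → α)^[n] p.2) = 0 := by
    rintro p ⟨⟨h1, h2⟩, h3, h4⟩ hpR
    have hc := sec_close μ T hD n h1 h3 (fun i hi => by rw [sec_dd μ hT hD]; exact hpR i hi)
    have hc2 : μ (Sec T D n p.1 ∆ Sec T D n p.2) < ENNReal.ofReal δ := by
      rw [← ofReal_measureReal]
      exact (ENNReal.ofReal_lt_ofReal_iff hδ).2 (by linarith)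
    rw [sec_dd μ hT hD] at hc2
    rcases hgap1 _ (h2 n) _ (h4 n) with h | h
    · exact h
    · exact absurd h (not_le.2 hc2)
  have hRm : MeasurableSet R := by
    have e : R = ⋂ i ∈ Finset.range n,
        {p : α × α | dd μ D ((T : α → α)^[i] p.1) ((T : α → α)^[i] p.2) = 0} := by
      ext p; simp [hR]
    rw [e]
    refine Finset.measurableSet_biInter _ (fun i _ => ?_)
    have hm : Measurable (fun p : α × α => ((T : α → α)^[i] p.1, (T : α → α)^[i] p.2)) :=
      ((measurable_iter T i).comp measurable_fst).prodMk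
        ((measurable_iter T i).comp measurable_snd)
    exact ((measurable_dd μ hD).comp hm) (measurableSet_singleton 0)
  have hRle : R ≤ᵐ[μ.prod μ] (Prod.map T T ⁻¹' R : Set (α × α)) := by
    filter_upwards [hpair] with p hp hpR
    show p ∈ (Prod.map T T ⁻¹' R : Set (α × α))
    intro i hi
    have e1 : (T : α → α)^[i] (Prod.map T T p).1 = (T : α → α)^[i + 1] p.1 := by
      rw [Function.iterate_succ_apply]; rfl
    have e2 : (T : α → α)^[i] (Prod.map T T p).2 = (T : α → α)^[i + 1] p.2 := by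
      rw [Function.iterate_succ_apply]; rfl
    rw [e1, e2]
    rcases Nat.lt_or_ge (i + 1) n with h | h
    · exact hpR (i + 1) h
    · have : i + 1 = n := by omega
      rw [this]
      exact hstep p hp hpR
  have hRpos : (μ.prod μ) R ≠ 0 := by
    have hc2 : ∀ᵐ x ∂μ, ∃ j : Fin n → ℕ, ∀ i : Fin n,
        μ ((Prod.mk ((T : α → α)^[(i : ℕ)] x) ⁻¹' D) ∆ E (j i)) = 0 := by
      filter_upwards [hiter hcover] with x hx
      choose j hj using hx
      exact ⟨fun i => j i, fun i => hj i⟩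
    have hex : ∃ j : Fin n → ℕ, μ {x | ∀ i : Fin n,
        μ ((Prod.mk ((T : α → α)^[(i : ℕ)] x) ⁻¹' D) ∆ E (j i)) = 0} ≠ 0 := by
      by_contra hcon
      push Not at hcon
      have h0 : μ (⋃ j : Fin n → ℕ, {x | ∀ i : Fin n,
        μ ((Prod.mk ((T : α → α)^[(i : ℕ)] x) ⁻¹' D) ∆ E (j i)) = 0}) = 0 :=
        measure_iUnion_null hcon
      have h1 : (⋃ j : Fin n → ℕ, {x | ∀ i : Fin n,
        μ ((Prod.mk ((T : α → α)^[(i : ℕ)] x) ⁻¹' D) ∆ E (j i)) = 0}) =ᵐ[μ] Set.univ := by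
        refine Filter.eventuallyEq_univ.2 ?_
        filter_upwards [hc2] with x hx
        simpa using hx
      rw [measure_congr h1] at h0
      simp at h0
    obtain ⟨j, hj⟩ := hex
    intro h0
    have hsub : {x | ∀ i : Fin n,
        μ ((Prod.mk ((T : α → α)^[(i : ℕ)] x) ⁻¹' D) ∆ E (j i)) = 0} ×ˢ {x | ∀ i : Fin n,
        μ ((Prod.mk ((T : α → α)^[(i : ℕ)] x) ⁻¹' D) ∆ E (j i)) = 0} ⊆ R := by
      rintro ⟨y, y'⟩ ⟨hy, hy'⟩ i hi
      exact dd_eq_zero_of (hy ⟨i, hi⟩) (hy' ⟨i, hi⟩)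
    have h1 := measure_mono_null hsub h0
    rw [Measure.prod_prod] at h1
    rcases mul_eq_zero.1 h1 with h | h
    · exact hj h
    · exact hj h
  have hRuniv : R =ᵐ[μ.prod μ] Set.univ := by
    rcases hErg.ae_empty_or_univ_of_ae_le_preimage hRm.nullMeasurableSet hRle with h | h
    · exfalso
      apply hRpos
      rw [measure_congr h]; simp
    · exact h
  have hzero : ∀ᵐ p ∂(μ.prod μ), dd μ D ((T : α → α)^[n] p.1) ((T : α → α)^[n] p.2) = 0 := by
    filter_upwards [hpair, Filter.eventuallyEq_univ.1 hRuniv] with p hp hpR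
    exact hstep p hp hpR
  have hzero0 : ∀ᵐ p ∂(μ.prod μ), dd μ D p.1 p.2 = 0 := by
    have hmp : MeasurePreserving (Prod.map (T : α → α)^[n] (T : α → α)^[n]) (μ.prod μ)
        (μ.prod μ) := (hT.iterate n).prod (hT.iterate n)
    have hms : MeasurableSet {p : α × α | dd μ D p.1 p.2 = 0} :=
      (measurable_dd μ hD) (measurableSet_singleton 0)
    have := hmp.measure_preimage hms.compl.nullMeasurableSet
    rw [ae_iff]
    have e : {p : α × α | ¬ dd μ D p.1 p.2 = 0} = {p : α × α | dd μ D p.1 p.2 = 0}ᶜ := by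
      ext p; simp
    rw [e, ← this]
    exact hzero
  have hfin := Measure.ae_ae_of_ae_prod hzero0
  obtain ⟨x0, hx0⟩ := hfin.exists
  apply hne
  refine ⟨Prod.mk x0 ⁻¹' D, measurable_prodMk_left hD, ?_⟩
  have hms : MeasurableSet (D ∆ (Prod.snd ⁻¹' (Prod.mk x0 ⁻¹' D) : Set (α × α))) :=
    hD.symmDiff (measurable_snd (measurable_prodMk_left hD))
  refine measure_symmDiff_eq_zero_iff.1 ((Measure.measure_prod_null hms).2 ?_)
  filter_upwards [hx0] with x hx
  have e : Prod.mk x ⁻¹' (D ∆ (Prod.snd ⁻¹' (Prod.mk x0 ⁻¹' D) : Set (α × α))) =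
      (Prod.mk x ⁻¹' D) ∆ (Prod.mk x0 ⁻¹' D) := rfl
  rw [e, symmDiff_comm]
  exact hx

end Pool.Agent.Work.MP_fa3ce5_an

end

section

set_option autoImplicit false
open MeasureTheory ProbabilityTheory
open scoped symmDiff ENNReal

namespace Pool.Agent.Work.MP_fa3ce5_an

variable {α : Type*} [MeasurableSpace α]

/-- for a good point, the block entropies of the `D`-process are those of the section process -/
lemma Hrho_eq_ent (μ : Measure α) [IsProbabilityMeasure μ] {T : α ≃ᵐ α} {D : Set (α × α)}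
    {x : α} (hx : GoodPt μ T D x) (n : ℕ) :
    Hrho μ T D n = ent μ (fun y => fun i : Fin n =>
      (@decide (((T : α → α)^[(i : ℕ)] x, (T : α → α)^[(i : ℕ)] y) ∈ D)
        (Classical.dec _))) := by
  classical
  unfold Hrho ent
  apply Finset.sum_congr rfl
  intro w _
  rw [← hx n w]
  congr 2
  ext y
  simp only [Cyl, Set.mem_preimage, Set.mem_ofPred_eq, Set.mem_singleton_iff]
  constructor
  · intro h
    funext i
    have := h i
    by_cases hw : w i = true
    · rw [hw] at this ⊢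
      simpa using this
    · have hw' : w i = false := by simpa using hw
      rw [hw'] at this ⊢
      simpa using this
  · intro h i
    rw [← h]
    simp

theorem transfer (μ : Measure α) [IsProbabilityMeasure μ] {T : α ≃ᵐ α}
    (hT : MeasurePreserving T μ μ) {D : Set (α × α)} (hD : MeasurableSet D)
    (hgood : ∀ᵐ x ∂μ, GoodPt μ T D x)
    {E : ℕ → Set α} (hEm : ∀ j, MeasurableSet (E j))
    (hcover : ∀ᵐ x ∂μ, ∃ j, μ ((Prod.mk x ⁻¹' D) ∆ E j) = 0) {η : ℝ} (hη : 0 < η) :
    ∃ (k : ℕ) (f : α → Fin k), Measurable f ∧ ∀ n : ℕ,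
      Hrho μ T D n ≤ (∑ v : Fin n → Fin k,
        Real.negMulLog ((μ {x | ∀ i : Fin n, f ((⇑T)^[(i : ℕ)] x) = v i}).toReal)) +
          n * (η * Real.log 2) := by
  classical
  -- the bad sets
  set Bad : ℕ → Set α := fun J => {x | ∀ j < J, μ ((Prod.mk x ⁻¹' D) ∆ E j) ≠ 0} with hBad
  have hBadm : ∀ J, MeasurableSet (Bad J) := by
    intro J
    have e : Bad J = ⋂ j ∈ Finset.range J, {x | μ ((Prod.mk x ⁻¹' D) ∆ E j) = 0}ᶜ := by
      ext x; simp [hBad]
    rw [e]
    refine Finset.measurableSet_biInter _ (fun j _ => ?_)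
    exact ((measurable_dist_set μ hD (hEm j)) (measurableSet_singleton 0)).compl
  have hBadanti : Antitone Bad := by
    intro J J' h x hx j hj
    exact hx j (lt_of_lt_of_le hj h)
  have hlim : Filter.Tendsto (fun J => μ (Bad J)) Filter.atTop (nhds 0) := by
    have h1 := tendsto_measure_iInter_atTop (μ := μ) (s := Bad)
      (fun J => (hBadm J).nullMeasurableSet) hBadanti ⟨0, measure_ne_top _ _⟩
    have h2 : μ (⋂ J, Bad J) = 0 := by
      have : ∀ᵐ x ∂μ, x ∉ ⋂ J, Bad J := by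
        filter_upwards [hcover] with x hx hx2
        obtain ⟨j, hj⟩ := hx
        rw [Set.mem_iInter] at hx2
        exact hx2 (j + 1) j (Nat.lt_succ_self j) hj
      exact measure_eq_zero_iff_ae_notMem.2 this
    rwa [h2] at h1
  obtain ⟨J, hJ⟩ : ∃ J, μ.real (Bad J) < η := by
    have h3 : ∀ᶠ J in Filter.atTop, μ (Bad J) < ENNReal.ofReal η :=
      hlim.eventually (gt_mem_nhds (by simpa using hη))
    obtain ⟨J, hJ⟩ := h3.exists
    refine ⟨J, ?_⟩
    rw [← ofReal_measureReal] at hJ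
    exact (ENNReal.ofReal_lt_ofReal_iff hη).1 hJ
  -- the partition generated by the first `J` sets
  set g : α → (Fin J → Bool) := fun y j => decide (y ∈ E j) with hg
  set e := Fintype.equivFin (Fin J → Bool) with he
  set f : α → Fin (Fintype.card (Fin J → Bool)) := fun y => e (g y) with hf
  have hgm : Measurable g := by
    refine measurable_pi_iff.2 (fun j => ?_)
    refine measurable_to_bool ?_
    have : (fun y => decide (y ∈ E j)) ⁻¹' {true} = E j := by
      ext y; simp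
    rw [this]
    exact hEm j
  have hfm : Measurable f := (measurable_of_finite e).comp hgm
  refine ⟨_, f, hfm, fun n => ?_⟩
  have hiter : ∀ {P : α → Prop}, (∀ᵐ x ∂μ, P x) → ∀ᵐ x ∂μ, ∀ i : ℕ, P ((T : α → α)^[i] x) := by
    intro P hP
    rw [ae_all_iff]
    intro i
    exact (hT.iterate i).quasiMeasurePreserving.ae hP
  set X : α → (Fin n → Fin (Fintype.card (Fin J → Bool))) :=
    fun y => fun i => f ((T : α → α)^[(i : ℕ)] y) with hX
  have hXm : ∀ v, MeasurableSet (X ⁻¹' {v}) := by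
    intro v
    have hm : Measurable X := measurable_pi_iff.2 (fun i => hfm.comp (measurable_iter T i))
    exact hm (measurableSet_singleton v)
  have hentX : ent μ X = ∑ v : Fin n → Fin (Fintype.card (Fin J → Bool)),
        Real.negMulLog ((μ {x | ∀ i : Fin n, f ((⇑T)^[(i : ℕ)] x) = v i}).toReal) := by
    unfold ent
    apply Finset.sum_congr rfl
    intro v _
    congr 2
    ext y
    simp only [hX, Set.mem_preimage, Set.mem_singleton_iff, Set.mem_ofPred_eq]
    exact funext_iff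
  rw [← hentX]
  -- pointwise estimate
  have hpt : ∀ᵐ x ∂μ, Hrho μ T D n ≤ ent μ X + Real.log 2 *
      ∑ i : Fin n, Set.indicator (((T : α → α)^[(i : ℕ)]) ⁻¹' Bad J) (fun _ => (1 : ℝ)) x := by
    filter_upwards [hgood] with x hx
    rw [Hrho_eq_ent μ hx n]
    set B := {i : Fin n // (T : α → α)^[(i : ℕ)] x ∈ Bad J} with hB
    set z : α → (Fin n → Bool) := fun y => fun i : Fin n =>
      (@decide (((T : α → α)^[(i : ℕ)] x, (T : α → α)^[(i : ℕ)] y) ∈ D) (Classical.dec _)) with hz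
    have hzm : ∀ i : Fin n, MeasurableSet {y | ((T : α → α)^[(i : ℕ)] x,
        (T : α → α)^[(i : ℕ)] y) ∈ D} := fun i => measurableSet_sec T hD i x
    have hzmm : ∀ i : Fin n, Measurable (fun y => z y i) := by
      intro i
      refine measurable_to_bool ?_
      have : (fun y => z y i) ⁻¹' {true} = {y | ((T : α → α)^[(i : ℕ)] x,
        (T : α → α)^[(i : ℕ)] y) ∈ D} := by
        ext y; simp [hz]
      rw [this]
      exact hzm i
    set Y : α → (B → Bool) := fun y => fun i => z y i.1 with hY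
    have hYm : ∀ v, MeasurableSet (Y ⁻¹' {v}) := by
      intro v
      have hm : Measurable Y := measurable_pi_iff.2 (fun i => hzmm i.1)
      exact hm (measurableSet_singleton v)
    have hjj : ∀ i : Fin n, ∃ j : Fin (J + 1), ¬ ((T : α → α)^[(i : ℕ)] x ∈ Bad J) →
        ∃ h : (j : ℕ) < J, μ ((Prod.mk ((T : α → α)^[(i : ℕ)] x) ⁻¹' D) ∆ E j) = 0 := by
      intro i
      by_cases hbad : (T : α → α)^[(i : ℕ)] x ∈ Bad J
      · exact ⟨0, fun h => absurd hbad h⟩
      · have : ∃ j, j < J ∧ μ ((Prod.mk ((T : α → α)^[(i : ℕ)] x) ⁻¹' D) ∆ E j) = 0 := by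
          by_contra hcon
          push Not at hcon
          exact hbad hcon
        obtain ⟨j, hj, hj2⟩ := this
        exact ⟨⟨j, by omega⟩, fun _ => ⟨hj, hj2⟩⟩
    choose jj hjj using hjj
    set h : (Fin n → Fin (Fintype.card (Fin J → Bool))) → (B → Bool) → (Fin n → Bool) :=
      fun v b i => if hi : (T : α → α)^[(i : ℕ)] x ∈ Bad J then b ⟨i, hi⟩ else
        (if hj : (jj i : ℕ) < J then (e.symm (v i)) ⟨jj i, hj⟩ else false) with hh
    have hZ : ∀ᵐ y ∂μ, z y = h (X y) (Y y) := by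
      have hall : ∀ᵐ y ∂μ, ∀ i : Fin n, ¬ ((T : α → α)^[(i : ℕ)] x ∈ Bad J) →
          (((T : α → α)^[(i : ℕ)] x, (T : α → α)^[(i : ℕ)] y) ∈ D ↔
            (T : α → α)^[(i : ℕ)] y ∈ E (jj i)) := by
        rw [ae_all_iff]
        intro i
        by_cases hbad : (T : α → α)^[(i : ℕ)] x ∈ Bad J
        · exact Filter.Eventually.of_forall (fun y h => absurd hbad h)
        · obtain ⟨h1, h2⟩ := hjj i hbad
          have h3 := Filter.eventuallyEq_set.1 (measure_symmDiff_eq_zero_iff.1 h2)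
          have h4 := (hT.iterate i).quasiMeasurePreserving.ae h3
          filter_upwards [h4] with y hy _
          exact hy
      filter_upwards [hall] with y hy
      funext i
      simp only [hh]
      by_cases hbad : (T : α → α)^[(i : ℕ)] x ∈ Bad J
      · rw [dif_pos hbad]
      · rw [dif_neg hbad]
        obtain ⟨h1, h2⟩ := hjj i hbad
        rw [dif_pos h1]
        have := hy i hbad
        simp only [hz, hX, hf, hg, Equiv.symm_apply_apply]
        rw [Bool.eq_iff_iff]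
        simpa using this
    have hent := ent_le_of_factor μ X Y z hXm hYm h hZ
    refine hent.trans ?_
    have hcard : Real.log (Fintype.card (B → Bool)) = Real.log 2 * (Fintype.card B : ℝ) := by
      rw [Fintype.card_fun, Fintype.card_bool]
      push_cast
      rw [Real.log_pow]; ring
    have hcard2 : (Fintype.card B : ℝ) = ∑ i : Fin n,
        Set.indicator (((T : α → α)^[(i : ℕ)]) ⁻¹' Bad J) (fun _ => (1 : ℝ)) x := by
      rw [Fintype.card_subtype, Finset.card_filter]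
      push_cast
      apply Finset.sum_congr rfl
      intro i _
      by_cases hbad : (T : α → α)^[(i : ℕ)] x ∈ Bad J
      · rw [if_pos hbad, Set.indicator_of_mem (show x ∈ _ from hbad)]
      · rw [if_neg hbad, Set.indicator_of_notMem (show x ∉ _ from hbad)]
    rw [hcard, hcard2]
  have hint : ∀ i : Fin n, Integrable (Set.indicator (((T : α → α)^[(i : ℕ)]) ⁻¹' Bad J)
      (fun _ => (1 : ℝ))) μ := fun i =>
    (integrable_const (1 : ℝ)).indicator ((measurable_iter T i) (hBadm J))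
  have hintsum : Integrable (fun x => ∑ i : Fin n,
      Set.indicator (((T : α → α)^[(i : ℕ)]) ⁻¹' Bad J) (fun _ => (1 : ℝ)) x) μ :=
    integrable_finsetSum _ (fun i _ => hint i)
  have hmono : ∫ _ : α, Hrho μ T D n ∂μ ≤ ∫ x, (ent μ X + Real.log 2 *
      ∑ i : Fin n, Set.indicator (((T : α → α)^[(i : ℕ)]) ⁻¹' Bad J) (fun _ => (1 : ℝ)) x) ∂μ :=
    integral_mono_ae (integrable_const _)
      ((integrable_const _).add (hintsum.const_mul _)) hpt
  rw [integral_const, integral_add (integrable_const _) (hintsum.const_mul _), integral_const,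
    integral_const_mul, integral_finsetSum _ (fun i _ => hint i)] at hmono
  have hi : ∀ i : Fin n, ∫ x, Set.indicator (((T : α → α)^[(i : ℕ)]) ⁻¹' Bad J)
      (fun _ => (1 : ℝ)) x ∂μ = μ.real (Bad J) := by
    intro i
    rw [integral_indicator ((measurable_iter T i) (hBadm J)), setIntegral_const]
    simp only [smul_eq_mul, mul_one]
    rw [measureReal_def, (hT.iterate i).measure_preimage (hBadm J).nullMeasurableSet,
      measureReal_def]
  simp only [hi, Finset.sum_const, Finset.card_univ, Fintype.card_fin, smul_eq_mul,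
    probReal_univ, one_mul, nsmul_eq_mul] at hmono
  refine hmono.trans ?_
  have h2 : 0 < Real.log 2 := Real.log_pos (by norm_num)
  have h3 : (n : ℝ) * μ.real (Bad J) ≤ n * η := by
    apply mul_le_mul_of_nonneg_left hJ.le (Nat.cast_nonneg n)
  nlinarith

end Pool.Agent.Work.MP_fa3ce5_an

end
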