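import Mathlib

/-! Bundle of small proof modules (one section per former module). -/

section

set_option autoImplicit false

/-!
# Kernels of rank two in factors of `T × T`: definitions and basic lemmas

Block R2 of the project MP_fa3ce5_an. Paper proof: note 2295 (helper30).
-/

namespace Pool.Agent.Work.MP_fa3ce5_an.R2

open MeasureTheory ProbabilityTheory Polynomial

noncomputable instance instMeasurableSpaceCircle : MeasurableSpace Circle := borel Circle

instance instBorelSpaceCircle : BorelSpace Circle := ⟨rfl⟩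

/-! ### Definitions -/

/-- the value of the monomial with exponents `k` at the sequence `f` of circle elements -/
noncomputable def mon (f : ℕ → Circle) (k : ℤ[X]) : Circle :=
  ∏ n ∈ k.support, f n ^ k.coeff n

/-- the monomial with exponents `k` of the sequence `w, w ∘ S, w ∘ S ∘ S, …` -/
noncomputable def chr {β : Type} (w : β → Circle) (S : β → β) (k : ℤ[X]) (x : β) : Circle :=
  mon (fun n => w (S^[n] x)) k

/-- the function `u(x) / v(y)` -/
noncomputable def zz {α : Type} (u v : α → Circle) (p : α × α) : Circle := u p.1 * (v p.2)⁻¹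

/-- finitely valued almost everywhere -/
def FV {α : Type} [MeasurableSpace α] (μ : Measure α) (w : α → Circle) : Prop :=
  ∃ Φ : Finset Circle, ∀ᵐ x ∂μ, w x ∈ Φ

/-- the exponents in `{-1, 0, 1}` -/
def Sm (k : ℤ[X]) : Prop := ∀ i, k.coeff i = -1 ∨ k.coeff i = 0 ∨ k.coeff i = 1

/-- the representative of `z`, `z⁻¹` in the closed upper half plane -/
noncomputable def up (z : Circle) : Circle := if 0 ≤ (z : ℂ).im then z else z⁻¹

/-- the entropy of `T` is positive -/
def PosEnt {α : Type} [MeasurableSpace α] (μ : Measure α) (T : α ≃ᵐ α) : Prop :=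
  ∃ (k : ℕ) (f : α → Fin k), Measurable f ∧ ∃ c : ℝ, 0 < c ∧ ∀ n : ℕ,
    c * (n : ℝ) ≤ ∑ v : Fin n → Fin k,
      Real.negMulLog ((μ {x | ∀ i : Fin n, f ((⇑T)^[(i : ℕ)] x) = v i}).toReal)

/-- The type of `σ`-algebras on `α × α`. A variable `F : SA α` is NOT used as a local instance, so
`MeasurableSet s`, `Measurable f`, `Measure.map` always refer to the product `σ`-algebra and
`MeasurableSet[F] s`, `Measurable[F] f` to `F`. Do not unfold `SA` for a local variable. -/
def SA (α : Type) : Type := MeasurableSpace (α × α)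

/-- a factor of `T × T` which is independent of both coordinates (complete for the sets which are
measurable in the product) -/
structure Fac {α : Type} [MeasurableSpace α] (μ : Measure α) (T : α ≃ᵐ α) (F : SA α) : Prop where
  mp : MeasurePreserving (⇑T) μ μ
  erg : Ergodic (Prod.map ⇑T ⇑T) (μ.prod μ)
  le : ∀ s : Set (α × α), MeasurableSet[F] s → MeasurableSet s
  inv : ∀ s : Set (α × α), MeasurableSet[F] s ↔ MeasurableSet[F] (Prod.map ⇑T ⇑T ⁻¹' s)
  ind1 : ∀ (s : Set (α × α)) (t : Set α), MeasurableSet[F] s → MeasurableSet t →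
    (μ.prod μ) (s ∩ Prod.fst ⁻¹' t) = (μ.prod μ) s * μ t
  ind2 : ∀ (s : Set (α × α)) (t : Set α), MeasurableSet[F] s → MeasurableSet t →
    (μ.prod μ) (s ∩ Prod.snd ⁻¹' t) = (μ.prod μ) s * μ t
  cpl : ∀ s t : Set (α × α), MeasurableSet s → MeasurableSet[F] t → s =ᵐ[μ.prod μ] t →
    MeasurableSet[F] s

/-! ### Monomials -/

section mon

theorem mon_eq_prod_of_subset (f : ℕ → Circle) (k : ℤ[X]) (J : Finset ℕ) (h : k.support ⊆ J) :
    mon f k = ∏ n ∈ J, f n ^ k.coeff n := by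
  unfold mon
  refine Finset.prod_subset h fun n _ hn => ?_
  rw [notMem_support_iff.1 hn, zpow_zero]

@[simp] theorem mon_zero (f : ℕ → Circle) : mon f 0 = 1 := by simp [mon]

theorem mon_add (f : ℕ → Circle) (k l : ℤ[X]) : mon f (k + l) = mon f k * mon f l := by
  classical
  rw [mon_eq_prod_of_subset f (k + l) (k.support ∪ l.support) support_add,
    mon_eq_prod_of_subset f k (k.support ∪ l.support) Finset.subset_union_left,
    mon_eq_prod_of_subset f l (k.support ∪ l.support) Finset.subset_union_right,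
    ← Finset.prod_mul_distrib]
  exact Finset.prod_congr rfl fun n _ => by rw [coeff_add, zpow_add]

@[simp] theorem mon_neg (f : ℕ → Circle) (k : ℤ[X]) : mon f (-k) = (mon f k)⁻¹ := by
  apply eq_inv_of_mul_eq_one_left
  rw [← mon_add, neg_add_cancel, mon_zero]

theorem mon_sub (f : ℕ → Circle) (k l : ℤ[X]) : mon f (k - l) = mon f k * (mon f l)⁻¹ := by
  rw [sub_eq_add_neg, mon_add, mon_neg]

@[simp] theorem mon_monomial (f : ℕ → Circle) (n : ℕ) (e : ℤ) :
    mon f (monomial n e) = f n ^ e := by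
  classical
  rw [mon_eq_prod_of_subset f _ {n} (support_monomial_subset n e), Finset.prod_singleton,
    coeff_monomial_same]

@[simp] theorem mon_one (f : ℕ → Circle) : mon f 1 = f 0 := by
  have := mon_monomial f 0 1
  rwa [zpow_one] at this

@[simp] theorem mon_C (f : ℕ → Circle) (e : ℤ) : mon f (C e) = f 0 ^ e := mon_monomial f 0 e

theorem mon_mul_fun (f g : ℕ → Circle) (k : ℤ[X]) :
    mon (fun n => f n * g n) k = mon f k * mon g k := by
  unfold mon
  rw [← Finset.prod_mul_distrib]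
  exact Finset.prod_congr rfl fun n _ => mul_zpow _ _ _

theorem mon_inv_fun (f : ℕ → Circle) (k : ℤ[X]) :
    mon (fun n => (f n)⁻¹) k = (mon f k)⁻¹ := by
  unfold mon
  rw [← Finset.prod_inv_distrib]
  exact Finset.prod_congr rfl fun n _ => inv_zpow _ _

theorem mon_C_mul (f : ℕ → Circle) (e : ℤ) (k : ℤ[X]) : mon f (C e * k) = mon f k ^ e := by
  induction k using Polynomial.induction_on' with
  | add p q hp hq => rw [mul_add, mon_add, mon_add, hp, hq, mul_zpow]
  | monomial n a => rw [C_mul_monomial, mon_monomial, mon_monomial, mul_comm e a, zpow_mul]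

theorem mon_X_mul (f : ℕ → Circle) (k : ℤ[X]) : mon f (X * k) = mon (fun n => f (n + 1)) k := by
  induction k using Polynomial.induction_on' with
  | add p q hp hq => rw [mul_add, mon_add, mon_add, hp, hq]
  | monomial n a => rw [X_mul_monomial, mon_monomial, mon_monomial]

theorem mon_X_pow_mul (f : ℕ → Circle) (m : ℕ) (k : ℤ[X]) :
    mon f (X ^ m * k) = mon (fun n => f (n + m)) k := by
  induction k using Polynomial.induction_on' with
  | add p q hp hq => rw [mul_add, mon_add, mon_add, hp, hq]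
  | monomial n a => rw [X_pow_mul_monomial, mon_monomial, mon_monomial]

theorem mon_expand (f : ℕ → Circle) (j : ℕ) (k : ℤ[X]) :
    mon f (expand ℤ j k) = mon (fun n => f (n * j)) k := by
  induction k using Polynomial.induction_on' with
  | add p q hp hq => rw [map_add, mon_add, mon_add, hp, hq]
  | monomial n a => rw [expand_monomial, mon_monomial, mon_monomial]

/-- the monomials of the monomials of `f` -/
theorem mon_mon (f : ℕ → Circle) (n k : ℤ[X]) :
    mon (fun i => mon (fun l => f (l + i)) k) n = mon f (n * k) := by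
  induction n using Polynomial.induction_on' with
  | add p q hp hq => rw [add_mul, mon_add, mon_add, hp, hq]
  | monomial i a =>
    rw [mon_monomial, ← mon_X_pow_mul, ← mon_C_mul, ← mul_assoc, C_mul_X_pow_eq_monomial]

theorem measurable_mon {β : Type} {mβ : MeasurableSpace β} {f : ℕ → β → Circle}
    (hf : ∀ n, Measurable[mβ] (f n)) (k : ℤ[X]) :
    Measurable[mβ] (fun x => mon (fun n => f n x) k) := by
  unfold mon
  exact Finset.measurable_prod _ fun n _ => (hf n).pow_const _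

end mon

/-! ### Characters -/

section chr

variable {β : Type} (w : β → Circle) (S : β → β)

@[simp] theorem chr_zero (x : β) : chr w S 0 x = 1 := mon_zero _

@[simp] theorem chr_one (x : β) : chr w S 1 x = w x := mon_one _

theorem chr_add (k l : ℤ[X]) (x : β) : chr w S (k + l) x = chr w S k x * chr w S l x :=
  mon_add _ _ _

@[simp] theorem chr_neg (k : ℤ[X]) (x : β) : chr w S (-k) x = (chr w S k x)⁻¹ := mon_neg _ _

theorem chr_sub (k l : ℤ[X]) (x : β) : chr w S (k - l) x = chr w S k x * (chr w S l x)⁻¹ :=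
  mon_sub _ _ _

theorem chr_C_mul (e : ℤ) (k : ℤ[X]) (x : β) : chr w S (C e * k) x = chr w S k x ^ e :=
  mon_C_mul _ _ _

theorem chr_X_pow_mul (m : ℕ) (k : ℤ[X]) (x : β) :
    chr w S (X ^ m * k) x = chr w S k (S^[m] x) := by
  unfold chr
  rw [mon_X_pow_mul]
  congr 1
  funext n
  rw [Function.iterate_add_apply]

theorem chr_X_mul (k : ℤ[X]) (x : β) : chr w S (X * k) x = chr w S k (S x) := by
  have := chr_X_pow_mul w S 1 k x
  rwa [pow_one] at this

theorem chr_expand (j : ℕ) (k : ℤ[X]) (x : β) :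
    chr w S (expand ℤ j k) x = mon (fun n => w (S^[n * j] x)) k := mon_expand _ _ _

theorem measurable_chr {mβ : MeasurableSpace β} (hw : Measurable[mβ] w)
    (hS : Measurable[mβ, mβ] S) (k : ℤ[X]) : Measurable[mβ] (chr w S k) :=
  measurable_mon (fun n => hw.comp (hS.iterate n)) k

theorem iterate_prodMap {α : Type} (T : α → α) (n : ℕ) (p : α × α) :
    (Prod.map T T)^[n] p = (T^[n] p.1, T^[n] p.2) := by
  rw [Prod.map_iterate]
  rfl

/-- the characters of `z = u / v` -/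
theorem chr_zz {α : Type} (u v : α → Circle) (T : α → α) (k : ℤ[X]) (p : α × α) :
    chr (zz u v) (Prod.map T T) k p = chr u T k p.1 * (chr v T k p.2)⁻¹ := by
  unfold chr
  rw [← mon_inv_fun, ← mon_mul_fun]
  congr 1
  funext n
  rw [iterate_prodMap]
  rfl

end chr

/-! ### The representative in the upper half plane -/

section up

theorem up_eq_or (z : Circle) : z = up z ∨ z = (up z)⁻¹ := by
  unfold up
  split_ifs with h
  · exact Or.inl rfl
  · exact Or.inr (inv_inv z).symm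

theorem up_im (z : Circle) : 0 ≤ ((up z : Circle) : ℂ).im := by
  unfold up
  split_ifs with h
  · exact h
  · push Not at h
    rw [Circle.coe_inv_eq_conj, Complex.conj_im]
    linarith

theorem up_re (z : Circle) : ((up z : Circle) : ℂ).re = (z : ℂ).re := by
  unfold up
  split_ifs with h
  · rfl
  · rw [Circle.coe_inv_eq_conj, Complex.conj_re]

theorem circle_sq (z : Circle) : (z : ℂ).re ^ 2 + (z : ℂ).im ^ 2 = 1 := by
  have h := Circle.normSq_coe z
  rw [Complex.normSq_apply] at h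
  linarith

/-- the representative is a function of the real part -/
theorem up_eq_exp (z : Circle) : up z = Circle.exp (Real.arccos (z : ℂ).re) := by
  have h1 := circle_sq z
  have hr : (z : ℂ).re ∈ Set.Icc (-1 : ℝ) 1 := by
    constructor <;> nlinarith [sq_nonneg (z : ℂ).im]
  apply Circle.ext
  rw [Circle.coe_exp, Complex.exp_mul_I]
  apply Complex.ext
  · rw [up_re]
    simp [Complex.cos_ofReal_re, Complex.sin_ofReal_im, Real.cos_arccos hr.1 hr.2]
  · have h2 := circle_sq (up z)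
    rw [up_re] at h2
    have h3 : ((up z : Circle) : ℂ).im = Real.sqrt (1 - (z : ℂ).re ^ 2) := by
      rw [eq_comm, Real.sqrt_eq_iff_mul_self_eq (by nlinarith [sq_nonneg (z : ℂ).im]) (up_im z)]
      nlinarith
    rw [h3]
    simp [Complex.cos_ofReal_im, Complex.sin_ofReal_re, Real.sin_arccos]

theorem measurable_up_of_re {β : Type} {mβ : MeasurableSpace β} {z : β → Circle}
    (h : Measurable[mβ] (fun x => (z x : ℂ).re)) : Measurable[mβ] (fun x => up (z x)) := by
  simp only [up_eq_exp]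
  exact (Circle.exp.continuous.measurable.comp Real.measurable_arccos).comp h

end up

/-! ### Factors -/

namespace Fac

variable {α : Type} [MeasurableSpace α] {μ : Measure α} {T : α ≃ᵐ α} {F : SA α}

/-- `F`-measurable functions are measurable -/
theorem meas (h : Fac μ T F) {β : Type} [MeasurableSpace β] {G : α × α → β}
    (hG : Measurable[F] G) : Measurable G := fun _ hs => h.le _ (hG hs)

theorem measurable_S (h : Fac μ T F) : Measurable[F, F] (Prod.map ⇑T ⇑T) :=
  fun s hs => (h.inv s).1 hs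

theorem comp_iterate (h : Fac μ T F) {β : Type} [MeasurableSpace β] {G : α × α → β}
    (hG : Measurable[F] G) (n : ℕ) : Measurable[F] (fun p => G ((Prod.map ⇑T ⇑T)^[n] p)) :=
  hG.comp ((h.measurable_S).iterate n)

/-- a function which is measurable in the product and almost everywhere equal to an
`F`-measurable one is `F`-measurable -/
theorem congr (h : Fac μ T F) {β : Type} [MeasurableSpace β] {G G' : α × α → β}
    (hG : Measurable G) (hG' : Measurable[F] G') (he : G =ᵐ[μ.prod μ] G') : Measurable[F] G := by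
  intro s hs
  refine h.cpl _ (G' ⁻¹' s) (hG hs) (hG' hs) ?_
  filter_upwards [he] with p hp
  show (G p ∈ s) = (G' p ∈ s)
  rw [hp]

end Fac

theorem measurable_zz {α : Type} [MeasurableSpace α] {u v : α → Circle} (hu : Measurable u)
    (hv : Measurable v) : Measurable (zz u v) :=
  (hu.comp measurable_fst).mul (hv.comp measurable_snd).inv

end Pool.Agent.Work.MP_fa3ce5_an.R2

end

section

set_option autoImplicit false

/-!
# Sign variants of exponents; finitely valued functions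
-/

namespace Pool.Agent.Work.MP_fa3ce5_an.R2

open MeasureTheory ProbabilityTheory Polynomial

/-- `z` or `z⁻¹` -/
noncomputable def ap (b : Bool) (z : Circle) : Circle := if b then z else z⁻¹

@[simp] theorem ap_true (z : Circle) : ap true z = z := rfl

@[simp] theorem ap_false (z : Circle) : ap false z = z⁻¹ := rfl

/-- every element is `ap b` of its representative in the upper half plane -/
theorem exists_ap (z : Circle) : ∃ b : Bool, z = ap b (up z) := by
  rcases up_eq_or z with h | h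
  · exact ⟨true, h⟩
  · exact ⟨false, h⟩

theorem ap_ap (b b' : Bool) (z : Circle) : ap b (ap b' z) = ap (b == b') z := by
  cases b <;> cases b' <;> simp

/-- change of the signs of the coefficients -/
noncomputable def vary (ε : ℕ → Bool) (g : ℤ[X]) : ℤ[X] :=
  ∑ n ∈ g.support, monomial n (if ε n then g.coeff n else -g.coeff n)

theorem coeff_vary (ε : ℕ → Bool) (g : ℤ[X]) (n : ℕ) :
    (vary ε g).coeff n = if ε n then g.coeff n else -g.coeff n := by
  unfold vary
  rw [finsetSum_coeff]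
  by_cases h : n ∈ g.support
  · rw [Finset.sum_eq_single n (fun b _ hb => coeff_monomial_of_ne _ hb.symm)
      (fun h' => absurd h h'), coeff_monomial_same]
  · have h0 : ∀ b ∈ g.support,
        (monomial b (if ε b then g.coeff b else -g.coeff b)).coeff n = 0 := by
      intro b hb
      apply coeff_monomial_of_ne
      rintro rfl
      exact h hb
    rw [Finset.sum_eq_zero h0, notMem_support_iff.1 h]
    simp

theorem abs_coeff_vary (ε : ℕ → Bool) (g : ℤ[X]) (n : ℕ) :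
    |(vary ε g).coeff n| = |g.coeff n| := by
  rw [coeff_vary]
  split_ifs
  · rfl
  · exact abs_neg _

theorem support_vary (ε : ℕ → Bool) (g : ℤ[X]) : (vary ε g).support = g.support := by
  ext n
  rw [mem_support_iff, mem_support_iff, ← abs_ne_zero, abs_coeff_vary, abs_ne_zero]

/-- changing the signs of the exponents or inverting the entries -/
theorem mon_ap (ε : ℕ → Bool) (f : ℕ → Circle) (k : ℤ[X]) :
    mon (fun n => ap (ε n) (f n)) k = mon f (vary ε k) := by
  unfold mon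
  rw [support_vary]
  refine Finset.prod_congr rfl fun n _ => ?_
  rw [coeff_vary]
  cases hε : ε n
  · simp [hε]
  · simp [hε]

/-- the sign variants -/
noncomputable def variants (g : ℤ[X]) : Finset ℤ[X] := by
  classical
  exact g.support.powerset.image (fun t => vary (fun n => decide (n ∉ t)) g)

theorem mem_variants (g g' : ℤ[X]) :
    g' ∈ variants g ↔ ∀ n, |g'.coeff n| = |g.coeff n| := by
  classical
  unfold variants
  rw [Finset.mem_image]
  constructor
  · rintro ⟨t, -, rfl⟩ n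
    exact abs_coeff_vary _ _ _
  · intro h
    refine ⟨g.support.filter (fun n => g'.coeff n ≠ g.coeff n),
      Finset.mem_powerset.2 (Finset.filter_subset _ _), ?_⟩
    ext n
    rw [coeff_vary]
    have hn := h n
    by_cases h0 : n ∈ g.support
    · by_cases h1 : g'.coeff n = g.coeff n
      · simp [h1]
      · rcases abs_eq_abs.1 hn with h2 | h2
        · exact absurd h2 h1
        · simp only [Finset.mem_filter, h0, ne_eq, h1, not_false_eq_true, and_self,
            not_true_eq_false, decide_false, Bool.false_eq_true, if_false]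
          rw [h2]
    · have h2 := notMem_support_iff.1 h0
      rw [h2, abs_zero, abs_eq_zero] at hn
      rw [h2, hn]
      simp

theorem vary_mem_variants (ε : ℕ → Bool) (g : ℤ[X]) : vary ε g ∈ variants g :=
  (mem_variants _ _).2 (abs_coeff_vary ε g)

theorem self_mem_variants (g : ℤ[X]) : g ∈ variants g := (mem_variants _ _).2 fun _ => rfl

/-! ### Finitely valued functions -/

section FV

variable {α : Type} [MeasurableSpace α] {μ : Measure α}

/-- a finitely valued function factors through an index -/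
theorem FV.exists_index [NeZero μ] {w : α → Circle} (h : FV μ w) (hw : Measurable w) :
    ∃ (m : ℕ) (P : α → Fin m) (s : Fin m → Circle), Measurable P ∧ ∀ᵐ x ∂μ, w x = s (P x) := by
  classical
  obtain ⟨Φ, hΦ⟩ := h
  have hne : Φ.Nonempty := by
    by_contra h0
    rw [Finset.not_nonempty_iff_eq_empty] at h0
    subst h0
    have : ∀ᵐ x ∂μ, False := by
      filter_upwards [hΦ] with x hx
      simp at hx
    rw [Filter.eventually_false_iff_eq_bot, ae_eq_bot] at this
    exact NeZero.ne μ this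
  obtain ⟨a, ha⟩ := hne
  have e := Φ.equivFin
  refine ⟨Φ.card, fun x => if h : w x ∈ Φ then e ⟨w x, h⟩ else e ⟨a, ha⟩,
    fun i => ((e.symm i : Φ) : Circle), ?_, ?_⟩
  · apply measurable_to_countable'
    intro i
    have : (fun x => if h : w x ∈ Φ then e ⟨w x, h⟩ else e ⟨a, ha⟩) ⁻¹' {i} =
        (w ⁻¹' {((e.symm i : Φ) : Circle)}) ∪
          (if e ⟨a, ha⟩ = i then (w ⁻¹' (Φ : Set Circle))ᶜ else ∅) := by
      ext x
      simp only [Set.mem_preimage, Set.mem_singleton_iff, Set.mem_union]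
      by_cases hx : w x ∈ Φ
      · rw [dif_pos hx]
        constructor
        · rintro rfl
          left
          simp
        · rintro (h1 | h1)
          · have : (⟨w x, hx⟩ : Φ) = e.symm i := Subtype.ext h1
            rw [this, e.apply_symm_apply]
          · split_ifs at h1
            · exact absurd hx h1
            · exact absurd h1 (Set.notMem_empty _)
      · rw [dif_neg hx]
        constructor
        · intro h1
          right
          rw [if_pos h1]
          exact hx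
        · rintro (h1 | h1)
          · exact absurd (h1 ▸ (e.symm i).2) hx
          · split_ifs at h1 with h2
            · exact h2
            · exact absurd h1 (Set.notMem_empty _)
    rw [this]
    refine (hw (measurableSet_singleton _)).union ?_
    split_ifs
    · exact (hw (Finset.measurableSet Φ)).compl
    · exact MeasurableSet.empty
  · filter_upwards [hΦ] with x hx
    rw [dif_pos hx, e.symm_apply_apply]

/-- a finitely valued function has an atom -/
theorem FV.exists_atom [NeZero μ] {w : α → Circle} (h : FV μ w) :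
    ∃ s : Circle, μ {x | w x = s} ≠ 0 := by
  obtain ⟨Φ, hΦ⟩ := h
  by_contra hcon
  push Not at hcon
  have h1 : μ (⋃ s ∈ Φ, {x | w x = s}) = 0 := by
    exact (measure_biUnion_null_iff Φ.countable_toSet).2 fun s _ => hcon s
  have : ∀ᵐ x ∂μ, False := by
    filter_upwards [hΦ, measure_eq_zero_iff_ae_notMem.1 h1] with x hx hx'
    apply hx'
    simp only [Set.mem_iUnion, Set.mem_ofPred_eq, exists_prop, exists_eq_right']
    exact hx
  rw [Filter.eventually_false_iff_eq_bot, ae_eq_bot] at this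
  exact NeZero.ne μ this

theorem FV.mul {w w' : α → Circle} (h : FV μ w) (h' : FV μ w') : FV μ (fun x => w x * w' x) := by
  classical
  obtain ⟨Φ, hΦ⟩ := h
  obtain ⟨Φ', hΦ'⟩ := h'
  refine ⟨(Φ ×ˢ Φ').image (fun q => q.1 * q.2), ?_⟩
  filter_upwards [hΦ, hΦ'] with x hx hx'
  exact Finset.mem_image.2 ⟨(w x, w' x), Finset.mem_product.2 ⟨hx, hx'⟩, rfl⟩

theorem FV.inv {w : α → Circle} (h : FV μ w) : FV μ (fun x => (w x)⁻¹) := by
  classical
  obtain ⟨Φ, hΦ⟩ := h
  refine ⟨Φ.image (fun q => q⁻¹), ?_⟩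
  filter_upwards [hΦ] with x hx
  exact Finset.mem_image.2 ⟨w x, hx, rfl⟩

/-- a function whose power is finitely valued is finitely valued -/
theorem FV.of_zpow {w : α → Circle} {n : ℤ} (hn : n ≠ 0) (h : FV μ (fun x => w x ^ n)) :
    FV μ w := by
  classical
  obtain ⟨Φ, hΦ⟩ := h
  have hfin : ({z : Circle | z ^ n ∈ Φ}).Finite := by
    have h1 : {z : Circle | z ^ n ∈ Φ} = ⋃ s ∈ Φ, {z : Circle | z ^ n = s} := by
      ext z
      simp
    rw [h1]
    refine Set.Finite.biUnion Φ.finite_toSet fun s _ => ?_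
    have h2 : ({x : ℂ | x ^ n.natAbs = s} ∪ {x : ℂ | x ^ n.natAbs = (s : ℂ)⁻¹}).Finite := by
      have h3 : ∀ c : ℂ, {x : ℂ | x ^ n.natAbs = c}.Finite := by
        intro c
        have hp : (X ^ n.natAbs - C c : ℂ[X]) ≠ 0 := X_pow_sub_C_ne_zero (by omega) c
        refine ((X ^ n.natAbs - C c : ℂ[X]).rootSet_finite ℂ).subset fun x hx => ?_
        rw [mem_rootSet]
        refine ⟨hp, ?_⟩
        simp only [map_sub, map_pow, aeval_X, aeval_C, Algebra.algebraMap_self, RingHom.id_apply]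
        exact sub_eq_zero.2 hx
      exact (h3 _).union (h3 _)
    refine Set.Finite.of_finite_image (f := fun z : Circle => (z : ℂ)) (h2.subset ?_)
      (fun a _ b _ hab => Circle.ext hab)
    rintro _ ⟨z, hz, rfl⟩
    have hz' : z ^ n = s := hz
    rcases Int.natAbs_eq n with h4 | h4
    · left
      show (z : ℂ) ^ n.natAbs = s
      rw [← hz', ← Circle.coe_pow, ← zpow_natCast, ← h4]
    · right
      show (z : ℂ) ^ n.natAbs = (s : ℂ)⁻¹
      rw [← hz']
      have : (z : ℂ) ^ n.natAbs = ((z ^ (n.natAbs : ℤ) : Circle) : ℂ) := by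
        rw [zpow_natCast]
        simp
      rw [this, show (n.natAbs : ℤ) = -n by omega, zpow_neg, Circle.coe_inv]
  refine ⟨hfin.toFinset, ?_⟩
  filter_upwards [hΦ] with x hx
  rw [Set.Finite.mem_toFinset]
  exact hx

theorem FV.comp {w : α → Circle} (h : FV μ w) {f : α → α} (hf : MeasurePreserving f μ μ) :
    FV μ (fun x => w (f x)) := by
  obtain ⟨Φ, hΦ⟩ := h
  exact ⟨Φ, hf.quasiMeasurePreserving.ae hΦ⟩

/-- if `w ∘ f` is finitely valued, so is `w` -/
theorem FV.of_comp {w : α → Circle} (hw : Measurable w) {f : α → α}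
    (hf : MeasurePreserving f μ μ) (h : FV μ (fun x => w (f x))) : FV μ w := by
  obtain ⟨Φ, hΦ⟩ := h
  refine ⟨Φ, ?_⟩
  have hm : MeasurableSet {x | w x ∈ Φ} := hw (Finset.measurableSet Φ)
  have := hf.measure_preimage (s := {x | w x ∈ Φ}ᶜ) hm.compl.nullMeasurableSet
  rw [ae_iff] at hΦ ⊢
  have h2 : μ {a | ¬ w a ∈ Φ} = μ (f ⁻¹' {x | w x ∈ Φ}ᶜ) := this.symm
  rw [h2]
  exact hΦ

end FV

end Pool.Agent.Work.MP_fa3ce5_an.R2

end

section

set_option autoImplicit false

/-!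
# Kernels of rank two: statements of the items

Notation of the paper proof (note 2295): `U_k = chr u T k`, `V_k = chr v T k`,
`z = zz u v`, `S = Prod.map T T`, `W_k = chr (zz u v) S k = U_k(x) / V_k(y)` (lemma `chr_zz`),
`zt_n = up (z ∘ S^n)`.
-/

namespace Pool.Agent.Work.MP_fa3ce5_an.R2

open MeasureTheory ProbabilityTheory Polynomial

/-- circle valued functions `u`, `v` such that the factor contains `Re (u(x) / v(y))` -/
structure Cir {α : Type} [MeasurableSpace α] (μ : Measure α) (T : α ≃ᵐ α)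
    (F : SA α) (u v : α → Circle) : Prop where
  fac : Fac μ T F
  hu : Measurable u
  hv : Measurable v
  re : Measurable[F] (fun p => ((zz u v p : Circle) : ℂ).re)

/-- the conclusion of the sign determination: along the multiples of `j` the values of `z` are
known up to one global sign -/
def Glob {α : Type} [MeasurableSpace α] (μ : Measure α) (T : α ≃ᵐ α)
    (F : SA α) (u v : α → Circle) (j : ℕ) (zs : ℕ → α × α → Circle) : Prop :=
  (∀ i, Measurable[F] (zs i)) ∧ ∀ᵐ p ∂(μ.prod μ),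
    (∀ i, zz u v ((Prod.map ⇑T ⇑T)^[j * i] p) = zs i p) ∨
    (∀ i, zz u v ((Prod.map ⇑T ⇑T)^[j * i] p) = (zs i p)⁻¹)

/-! ### General items -/

/-- CPL: completion of the factor -/
def StCpl : Prop := ∀ (α : Type) [MeasurableSpace α] (μ : Measure α) [IsProbabilityMeasure μ]
  (T : α ≃ᵐ α), MeasurePreserving (⇑T) μ μ → Ergodic (Prod.map ⇑T ⇑T) (μ.prod μ) →
  ∀ F : SA α, (∀ s : Set (α × α), MeasurableSet[F] s → MeasurableSet s) →
  (∀ s : Set (α × α), MeasurableSet[F] s ↔ MeasurableSet[F] (Prod.map ⇑T ⇑T ⁻¹' s)) →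
  (∀ (s : Set (α × α)) (t : Set α), MeasurableSet[F] s → MeasurableSet t →
    (μ.prod μ) (s ∩ Prod.fst ⁻¹' t) = (μ.prod μ) s * μ t) →
  (∀ (s : Set (α × α)) (t : Set α), MeasurableSet[F] s → MeasurableSet t →
    (μ.prod μ) (s ∩ Prod.snd ⁻¹' t) = (μ.prod μ) s * μ t) →
  ∃ F₁ : SA α, (∀ s : Set (α × α), MeasurableSet[F] s → MeasurableSet[F₁] s) ∧ Fac μ T F₁

/-- LAW: the law of an `F`-measurable function does not depend on one coordinate -/
def StLaw : Prop := ∀ (α : Type) [MeasurableSpace α] [StandardBorelSpace α] (μ : Measure α)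
  [IsProbabilityMeasure μ] (T : α ≃ᵐ α) (F : SA α), Fac μ T F →
  ∀ (Q : Type) [MeasurableSpace Q] [StandardBorelSpace Q] (q : α × α → Q), Measurable[F] q →
  (∀ᵐ x ∂μ, μ.map (fun y => q (x, y)) = (μ.prod μ).map q) ∧
  (∀ᵐ y ∂μ, μ.map (fun x => q (x, y)) = (μ.prod μ).map q) ∧
  (μ.prod μ).map (fun p => (p.1, q p)) = μ.prod ((μ.prod μ).map q)

/-- EXP: the expectation of an `F`-measurable function does not depend on one coordinate -/
def StExp : Prop := ∀ (α : Type) [MeasurableSpace α] [StandardBorelSpace α] (μ : Measure α)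
  [IsProbabilityMeasure μ] (T : α ≃ᵐ α) (F : SA α), Fac μ T F →
  ∀ (G : α × α → ℝ), Measurable[F] G →
  (∀ᵐ x ∂μ, ∫ y, G (x, y) ∂μ = ∫ p, G p ∂(μ.prod μ)) ∧
  (∀ᵐ y ∂μ, ∫ x, G (x, y) ∂μ = ∫ p, G p ∂(μ.prod μ))

/-- EIG: eigenfunctions of powers of `T` are constant -/
def StEig : Prop := ∀ (α : Type) [MeasurableSpace α] (μ : Measure α) [IsProbabilityMeasure μ]
  (T : α ≃ᵐ α), MeasurePreserving (⇑T) μ μ → Ergodic (Prod.map ⇑T ⇑T) (μ.prod μ) →
  ∀ w : α → Circle, Measurable w → ∀ m : ℕ, 1 ≤ m → ∀ c : Circle,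
  (∀ᵐ x ∂μ, w ((⇑T)^[m] x) = c * w x) → ∃ c' : Circle, ∀ᵐ x ∂μ, w x = c'

/-- ENT: vanishing moments give positive entropy -/
def StEnt : Prop := ∀ (α : Type) [MeasurableSpace α] (μ : Measure α) [IsProbabilityMeasure μ]
  (T : α ≃ᵐ α), MeasurePreserving (⇑T) μ μ → ∀ w : α → Circle, Measurable w → ∀ N : ℕ, 1 ≤ N →
  (∀ k : ℤ[X], k ≠ 0 → Sm k → ∫ x, ((chr w ((⇑T)^[N]) k x : Circle) : ℂ) ∂μ = 0) → PosEnt μ T

/-- ALG: the algebraic lemma -/
def StAlg : Prop := ∀ L : Ideal ℤ[X], (1 : ℤ[X]) ∉ L →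
  (∀ (n : ℤ) (k : ℤ[X]), n ≠ 0 → C n * k ∈ L → k ∈ L) → (∀ k : ℤ[X], X * k ∈ L → k ∈ L) →
  (∀ (m : ℕ) (k : ℤ[X]), 1 ≤ m → (X ^ m - 1) * k ∈ L → k ∈ L) →
  ∃ (k₀ : ℤ[X]) (m : ℕ), 1 ≤ m ∧ ∀ n : ℤ[X], n ≠ 0 → Sm n → expand ℤ m n * k₀ ∉ L

/-- RECT: finite rectangle functions in the factor -/
def StRect : Prop := ∀ (α : Type) [MeasurableSpace α] [StandardBorelSpace α] (μ : Measure α)
  [IsProbabilityMeasure μ] (T : α ≃ᵐ α) (F : SA α), Fac μ T F →
  ∀ (G : α × α → ℝ), Measurable[F] G → ∀ (m : ℕ) (P : α → Fin m) (Φ : Fin m → α → ℝ),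
  Measurable P → (∀ i, Measurable (Φ i)) → (∀ᵐ p ∂(μ.prod μ), G p = Φ (P p.1) p.2) →
  (∃ c : ℝ, ∀ᵐ p ∂(μ.prod μ), G p = c) ∨ PosEnt μ T

/-- SWAP: exchange of the coordinates -/
def StSwap : Prop := ∀ (α : Type) [MeasurableSpace α] (μ : Measure α) [IsProbabilityMeasure μ]
  (T : α ≃ᵐ α) (F : SA α) (u v : α → Circle), Cir μ T F u v →
  Cir μ T (show SA α from MeasurableSpace.comap Prod.swap F) v u

/-! ### Circle valued functions -/

/-- DICH: if `V_p` has an atom then `U_p` is finitely valued -/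
def StDich : Prop := ∀ (α : Type) [MeasurableSpace α] [StandardBorelSpace α] (μ : Measure α)
  [IsProbabilityMeasure μ] (T : α ≃ᵐ α) (F : SA α) (u v : α → Circle),
  Cir μ T F u v → ∀ (p : ℤ[X]) (s : Circle), μ {y | chr v (⇑T) p y = s} ≠ 0 →
  FV μ (chr u (⇑T) p)

/-- REL1: a relation is mapped to a relation by translations -/
def StRel1 : Prop := ∀ (α : Type) [MeasurableSpace α] [StandardBorelSpace α] (μ : Measure α)
  [IsProbabilityMeasure μ] (T : α ≃ᵐ α) (F : SA α) (u v : α → Circle),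
  Cir μ T F u v → ∀ (M : Finset ℤ[X]) (g : ℤ[X] → ℂ),
  μ {y | ∑ k ∈ M, g k * ((chr v (⇑T) k y : Circle) : ℂ) = 0} ≠ 0 →
  (μ.prod μ) {r : α × α | μ {y | ∑ k ∈ M, g k * ((chr v (⇑T) k y : Circle) : ℂ) = 0 ∧
    ∑ k ∈ M, g k * ((chr u (⇑T) k r.2 * (chr u (⇑T) k r.1)⁻¹ * chr v (⇑T) k y : Circle) : ℂ) =
      0} ≠ 0} ≠ 0

/-- REL: a nontrivial relation between the `V_k` gives an atom of some `U_l` -/
def StRel : Prop := ∀ (α : Type) [MeasurableSpace α] [StandardBorelSpace α] (μ : Measure α)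
  [IsProbabilityMeasure μ] (T : α ≃ᵐ α) (F : SA α) (u v : α → Circle),
  Cir μ T F u v → ∀ (M : Finset ℤ[X]) (g : ℤ[X] → ℂ), M.Nonempty → (∀ k ∈ M, g k ≠ 0) →
  μ {y | ∑ k ∈ M, g k * ((chr v (⇑T) k y : Circle) : ℂ) = 0} ≠ 0 →
  ∃ l : ℤ[X], l ≠ 0 ∧ ∃ s : Circle, μ {x | chr u (⇑T) l x = s} ≠ 0

/-- ZERO: if there are no atoms then the moments with exponents in `{-1, 0, 1}` vanish -/
def StZero : Prop := ∀ (α : Type) [MeasurableSpace α] [StandardBorelSpace α] (μ : Measure α)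
  [IsProbabilityMeasure μ] (T : α ≃ᵐ α) (F : SA α) (u v : α → Circle),
  Cir μ T F u v → (∀ l : ℤ[X], l ≠ 0 → ∀ s : Circle, μ {x | chr u (⇑T) l x = s} = 0) →
  ∀ e : ℤ[X], e ≠ 0 → Sm e → ∫ x, ((chr u (⇑T) e x : Circle) : ℂ) ∂μ = 0

/-- SIGN1: determination of the relative sign of `z` and `z ∘ S^j` -/
def StSign1 : Prop := ∀ (α : Type) [MeasurableSpace α] (μ : Measure α)
  [IsProbabilityMeasure μ] (T : α ≃ᵐ α) (F : SA α) (u v : α → Circle),
  Cir μ T F u v → ∀ (g : ℤ[X]) (j : ℕ) (Φ : Finset Circle), g.coeff 0 ≠ 0 → g.coeff j ≠ 0 →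
  (∀ᵐ p ∂(μ.prod μ), chr (zz u v) (Prod.map ⇑T ⇑T) g p ∈ Φ) →
  (∀ g' ∈ variants g, g' ≠ g → g' ≠ -g → ∀ s : Circle,
    (μ.prod μ) {p | chr (zz u v) (Prod.map ⇑T ⇑T) g' p = s} = 0) →
  ∃ R : Set (α × α), MeasurableSet[F] R ∧ ∀ᵐ p ∂(μ.prod μ), ∀ ε : ℕ → Bool,
    (∀ n, zz u v ((Prod.map ⇑T ⇑T)^[n] p) = ap (ε n) (up (zz u v ((Prod.map ⇑T ⇑T)^[n] p)))) →
    (p ∈ R ↔ ε 0 = ε j)

/-- SIGN2: from relative signs to one global sign -/
def StSign2 : Prop := ∀ (α : Type) [MeasurableSpace α] (μ : Measure α)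
  [IsProbabilityMeasure μ] (T : α ≃ᵐ α) (F : SA α) (u v : α → Circle),
  Cir μ T F u v → ∀ (j : ℕ) (R : Set (α × α)), MeasurableSet[F] R →
  (∀ᵐ p ∂(μ.prod μ), ∀ ε : ℕ → Bool,
    (∀ n, zz u v ((Prod.map ⇑T ⇑T)^[n] p) = ap (ε n) (up (zz u v ((Prod.map ⇑T ⇑T)^[n] p)))) →
    (p ∈ R ↔ ε 0 = ε j)) → ∃ zs : ℕ → α × α → Circle, Glob μ T F u v j zs

/-- MIN: a finitely valued character with minimal support -/
def StMin : Prop := ∀ (α : Type) [MeasurableSpace α] [StandardBorelSpace α] (μ : Measure α)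
  [IsProbabilityMeasure μ] (T : α ≃ᵐ α) (F : SA α) (u v : α → Circle),
  Cir μ T F u v → ¬ FV μ u →
  (∃ l : ℤ[X], l ≠ 0 ∧ ∃ s : Circle, μ {x | chr u (⇑T) l x = s} ≠ 0) →
  ∃ (g : ℤ[X]) (j : ℕ) (Φ : Finset Circle), 1 ≤ j ∧ g.coeff 0 ≠ 0 ∧ g.coeff j ≠ 0 ∧
    (∀ᵐ p ∂(μ.prod μ), chr (zz u v) (Prod.map ⇑T ⇑T) g p ∈ Φ) ∧
    ∀ g' ∈ variants g, g' ≠ g → g' ≠ -g → ∀ s : Circle,
      (μ.prod μ) {p | chr (zz u v) (Prod.map ⇑T ⇑T) g' p = s} = 0

/-- A: vanishing moments in the second case -/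
def StA : Prop := ∀ (α : Type) [MeasurableSpace α] [StandardBorelSpace α] (μ : Measure α)
  [IsProbabilityMeasure μ] (T : α ≃ᵐ α) (F : SA α) (u v : α → Circle),
  Cir μ T F u v → ∀ (j : ℕ) (zs : ℕ → α × α → Circle), Glob μ T F u v j zs → ∀ k : ℤ[X],
  ¬ FV μ (chr v (⇑T) (expand ℤ j k)) →
  ∫ x, ((chr u (⇑T) (expand ℤ j k) x : Circle) : ℂ) ∂μ = 0

/-- B: finitely valued characters are constant in the second case -/
def StB : Prop := ∀ (α : Type) [MeasurableSpace α] [StandardBorelSpace α] (μ : Measure α)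
  [IsProbabilityMeasure μ] (T : α ≃ᵐ α) (F : SA α) (u v : α → Circle),
  Cir μ T F u v → ∀ (j : ℕ) (zs : ℕ → α × α → Circle), 1 ≤ j → Glob μ T F u v j zs →
  ∀ k : ℤ[X], FV μ (chr u (⇑T) (expand ℤ j k)) →
  (∃ c : Circle, ∀ᵐ x ∂μ, chr u (⇑T) (expand ℤ j k) x = c) ∨ PosEnt μ T

/-- LAST: the ideal of the constant characters -/
def StLast : Prop := ∀ (α : Type) [MeasurableSpace α] (μ : Measure α) [IsProbabilityMeasure μ]
  (T : α ≃ᵐ α), MeasurePreserving (⇑T) μ μ → Ergodic (Prod.map ⇑T ⇑T) (μ.prod μ) →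
  ∀ u : α → Circle, Measurable u → ¬ FV μ u → ∀ j : ℕ, 1 ≤ j →
  (∀ k : ℤ[X], FV μ (chr u (⇑T) (expand ℤ j k)) →
    ∃ c : Circle, ∀ᵐ x ∂μ, chr u (⇑T) (expand ℤ j k) x = c) →
  (∀ k : ℤ[X], ¬ FV μ (chr u (⇑T) (expand ℤ j k)) →
    ∫ x, ((chr u (⇑T) (expand ℤ j k) x : Circle) : ℂ) ∂μ = 0) → PosEnt μ T

/-- CASE: the result for circle valued functions -/
def StCase : Prop := ∀ (α : Type) [MeasurableSpace α] [StandardBorelSpace α] (μ : Measure α)
  [IsProbabilityMeasure μ] (T : α ≃ᵐ α) (F : SA α) (u v : α → Circle),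
  Cir μ T F u v → ¬ FV μ u → PosEnt μ T

/-! ### Reduction to circle valued functions -/

/-- NORM0: centering -/
def StNorm0 : Prop := ∀ (α : Type) [MeasurableSpace α] [StandardBorelSpace α] (μ : Measure α)
  [IsProbabilityMeasure μ] (T : α ≃ᵐ α) (F : SA α), Fac μ T F →
  ∀ (K : α × α → ℝ) (f g a₁ a₂ b₁ b₂ : α → ℝ), Measurable[F] K → MemLp f 2 μ → MemLp g 2 μ →
  MemLp a₁ 2 μ → MemLp a₂ 2 μ → MemLp b₁ 2 μ → MemLp b₂ 2 μ →
  (∀ᵐ p ∂(μ.prod μ), K p = f p.1 + g p.2 + a₁ p.1 * b₁ p.2 + a₂ p.1 * b₂ p.2) →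
  ∃ (c : ℝ) (a₁' a₂' b₁' b₂' : α → ℝ), Measurable a₁' ∧ Measurable a₂' ∧ Measurable b₁' ∧
    Measurable b₂' ∧ MemLp a₁' 2 μ ∧ MemLp a₂' 2 μ ∧ MemLp b₁' 2 μ ∧ MemLp b₂' 2 μ ∧
    ∀ᵐ p ∂(μ.prod μ), K p - c = a₁' p.1 * b₁' p.2 + a₂' p.1 * b₂' p.2

/-- NORM1: the Gram matrix -/
def StNorm1 : Prop := ∀ (α : Type) [MeasurableSpace α] [StandardBorelSpace α] (μ : Measure α)
  [IsProbabilityMeasure μ] (T : α ≃ᵐ α) (F : SA α), Fac μ T F →
  ∀ (G : α × α → ℝ) (a₁ a₂ b₁ b₂ : α → ℝ), Measurable[F] G → Measurable a₁ → Measurable a₂ →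
  Measurable b₁ → Measurable b₂ → MemLp a₁ 2 μ → MemLp a₂ 2 μ → MemLp b₁ 2 μ →
  MemLp b₂ 2 μ → (∀ᵐ p ∂(μ.prod μ), G p = a₁ p.1 * b₁ p.2 + a₂ p.1 * b₂ p.2) →
  (¬ ∀ᵐ p ∂(μ.prod μ), G p = 0) →
  ∃ (u : α → Circle) (b : α → ℂ), Measurable u ∧ Measurable b ∧ MemLp b 2 μ ∧
    ∀ᵐ p ∂(μ.prod μ), G p = ((u p.1 : ℂ) * (starRingEnd ℂ) (b p.2)).re

/-- BDD: the second factor is bounded -/
def StBdd : Prop := ∀ (α : Type) [MeasurableSpace α] [StandardBorelSpace α] (μ : Measure α)
  [IsProbabilityMeasure μ] (T : α ≃ᵐ α) (F : SA α), Fac μ T F →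
  ∀ (G : α × α → ℝ) (u : α → Circle) (b : α → ℂ), Measurable[F] G → Measurable u →
  Measurable b → ¬ FV μ u →
  (∀ᵐ p ∂(μ.prod μ), G p = ((u p.1 : ℂ) * (starRingEnd ℂ) (b p.2)).re) →
  ∃ C : ℝ, ∀ᵐ y ∂μ, ‖b y‖ ≤ C

/-- ABS: the second factor has constant absolute value -/
def StAbs : Prop := ∀ (α : Type) [MeasurableSpace α] [StandardBorelSpace α] (μ : Measure α)
  [IsProbabilityMeasure μ] (T : α ≃ᵐ α) (F : SA α), Fac μ T F →
  ∀ (G : α × α → ℝ) (u : α → Circle) (b : α → ℂ) (C : ℝ), Measurable[F] G → Measurable u →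
  Measurable b → ¬ FV μ u → (∀ᵐ y ∂μ, ‖b y‖ ≤ C) →
  (∀ᵐ p ∂(μ.prod μ), G p = ((u p.1 : ℂ) * (starRingEnd ℂ) (b p.2)).re) →
  ∃ c : ℝ, ∀ᵐ y ∂μ, ‖b y‖ = c

end Pool.Agent.Work.MP_fa3ce5_an.R2

end

section

set_option autoImplicit false

/-!
# Item A
-/

namespace Pool.Agent.Work.MP_fa3ce5_an.R2

open MeasureTheory ProbabilityTheory Polynomial

namespace AuxA

/-- the intersection of the unit circle with a line is finite -/
theorem finite_line (a : ℂ) (ha : a ≠ 0) (c : ℝ) :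
    {v : Circle | (a * ((v⁻¹ : Circle) : ℂ)).re = c}.Finite := by
  classical
  have hne : ((C ((starRingEnd ℂ) a) * X ^ 2 + C (-(2 * c : ℂ)) * X + C a : ℂ[X])) ≠ 0 := by
    intro h
    have h1 := congrArg (fun p : ℂ[X] => p.coeff 2) h
    simp at h1
    exact ha h1
  have h2 : {z : ℂ | ((C ((starRingEnd ℂ) a) * X ^ 2 + C (-(2 * c : ℂ)) * X + C a : ℂ[X])).IsRoot z
      }.Finite := Polynomial.finite_setOfPred_isRoot hne
  refine Set.Finite.subset (h2.preimage (f := fun v : Circle => (v : ℂ))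
    (fun x _ y _ hxy => Circle.ext hxy)) ?_
  intro v hv
  have hv' : (a * ((v⁻¹ : Circle) : ℂ)).re = c := hv
  show ((C ((starRingEnd ℂ) a) * X ^ 2 + C (-(2 * c : ℂ)) * X + C a : ℂ[X])).IsRoot (v : ℂ)
  rw [Polynomial.IsRoot.def]
  simp only [eval_add, eval_mul, eval_C, eval_pow, eval_X]
  have h3 : a * ((v⁻¹ : Circle) : ℂ) + (starRingEnd ℂ) (a * ((v⁻¹ : Circle) : ℂ)) = (2 * c : ℂ) := by
    rw [Complex.add_conj, hv']
    push_cast
    ring
  rw [map_mul, Circle.coe_inv_eq_conj, Complex.conj_conj] at h3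
  have h4 : (v : ℂ) * (starRingEnd ℂ) (v : ℂ) = 1 := by
    rw [← Circle.coe_inv_eq_conj, Circle.coe_inv]
    exact mul_inv_cancel₀ (Circle.coe_ne_zero v)
  calc (starRingEnd ℂ) a * (v : ℂ) ^ 2 + -(2 * c : ℂ) * (v : ℂ) + a
      = (starRingEnd ℂ) a * (v : ℂ) ^ 2 -
        (a * (starRingEnd ℂ) (v : ℂ) + (starRingEnd ℂ) a * (v : ℂ)) * (v : ℂ) + a := by
        rw [h3]; ring
    _ = a * (1 - (v : ℂ) * (starRingEnd ℂ) (v : ℂ)) := by ring
    _ = 0 := by rw [h4]; ring

end AuxA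

theorem pr_A (h : StExp) : StA := by
  intro α _ _ μ _ T F u v hC j zs hG k hV
  obtain ⟨hz, hae⟩ := hG
  have hT : Measurable (⇑T) := T.measurable
  have hS : Measurable (Prod.map ⇑T ⇑T) := hT.prodMap hT
  have hUm : Measurable (chr u (⇑T) (expand ℤ j k)) := measurable_chr u _ hC.hu hT _
  have hVm : Measurable (chr v (⇑T) (expand ℤ j k)) := measurable_chr v _ hC.hv hT _
  have hcoe : Measurable (fun z : Circle => (z : ℂ)) := (show Continuous (fun z : Circle => (z : ℂ)) from continuous_subtype_val).measurable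
  have hre : Measurable (fun z : Circle => (z : ℂ).re) := Complex.measurable_re.comp hcoe
  have hWm : Measurable (fun p => ((chr (zz u v) (Prod.map ⇑T ⇑T) (expand ℤ j k) p : Circle) :
      ℂ).re) :=
    hre.comp (measurable_chr _ _ (measurable_zz hC.hu hC.hv) hS _)
  have hW'm : Measurable[F] (fun p => ((mon (fun n => zs n p) k : Circle) : ℂ).re) :=
    hre.comp (measurable_mon hz k)
  have hWF : Measurable[F] (fun p => ((chr (zz u v) (Prod.map ⇑T ⇑T) (expand ℤ j k) p : Circle) :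
      ℂ).re) := by
    refine hC.fac.congr hWm hW'm ?_
    filter_upwards [hae] with p hp
    rw [chr_expand]
    rcases hp with hp | hp
    · have : (fun n => zz u v ((Prod.map ⇑T ⇑T)^[n * j] p)) = fun n => zs n p := by
        funext n
        rw [mul_comm n j]
        exact hp n
      rw [this]
    · have : (fun n => zz u v ((Prod.map ⇑T ⇑T)^[n * j] p)) = fun n => (zs n p)⁻¹ := by
        funext n
        rw [mul_comm n j]
        exact hp n
      rw [this, mon_inv_fun, Circle.coe_inv_eq_conj, Complex.conj_re]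
  obtain ⟨-, hy⟩ := h α μ T F hC.fac _ hWF
  by_contra hne
  apply hV
  have hfin := AuxA.finite_line (∫ x, ((chr u (⇑T) (expand ℤ j k) x : Circle) : ℂ) ∂μ) hne
    (∫ p, ((chr (zz u v) (Prod.map ⇑T ⇑T) (expand ℤ j k) p : Circle) : ℂ).re ∂(μ.prod μ))
  refine ⟨hfin.toFinset, ?_⟩
  filter_upwards [hy] with y hy
  rw [Set.Finite.mem_toFinset]
  show ((∫ x, ((chr u (⇑T) (expand ℤ j k) x : Circle) : ℂ) ∂μ) *
    (((chr v (⇑T) (expand ℤ j k) y)⁻¹ : Circle) : ℂ)).re = _
  rw [← hy]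
  have hint : Integrable (fun x => ((chr u (⇑T) (expand ℤ j k) x : Circle) : ℂ) *
      (((chr v (⇑T) (expand ℤ j k) y)⁻¹ : Circle) : ℂ)) μ := by
    refine Integrable.mul_const ?_ _
    refine Integrable.of_bound (hcoe.comp hUm).aestronglyMeasurable 1 ?_
    filter_upwards with x
    show ‖((chr u (⇑T) (expand ℤ j k) x : Circle) : ℂ)‖ ≤ 1
    rw [Circle.norm_coe]
  have h1 := integral_re hint
  rw [integral_mul_const] at h1
  have h2 : ∀ z : ℂ, RCLike.re z = z.re := fun z => rfl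
  simp only [h2] at h1
  rw [← h1]
  refine integral_congr_ae (Filter.Eventually.of_forall fun x => ?_)
  show _ = ((chr (zz u v) (Prod.map ⇑T ⇑T) (expand ℤ j k) (x, y) : Circle) : ℂ).re
  rw [chr_zz, Circle.coe_mul]

end Pool.Agent.Work.MP_fa3ce5_an.R2

end

section

set_option autoImplicit false

namespace Pool.Agent.Work.MP_fa3ce5_an.R2

open MeasureTheory ProbabilityTheory Polynomial

namespace AuxAbs

variable {α : Type} [MeasurableSpace α]

/-- a polynomial relation with a nonzero polynomial makes `u` finitely valued -/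
theorem poly_zero {μ : Measure α} {u : α → Circle} (hu : ¬ FV μ u) (P : ℂ[X])
    (h : ∀ᵐ x ∂μ, P.eval (u x : ℂ) = 0) : P = 0 := by
  classical
  by_contra hP
  apply hu
  have hfin : ({z : Circle | P.eval (z : ℂ) = 0}).Finite := by
    refine Set.Finite.of_finite_image (f := fun z : Circle => (z : ℂ))
      ((P.rootSet_finite ℂ).subset ?_) (fun a _ b _ hab => Circle.ext hab)
    rintro _ ⟨z, hz, rfl⟩
    rw [mem_rootSet]
    refine ⟨hP, ?_⟩
    simpa using hz
  refine ⟨hfin.toFinset, ?_⟩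
  filter_upwards [h] with x hx
  rw [Set.Finite.mem_toFinset]
  exact hx

theorem two_re (t : ℂ) (h2 : t * (starRingEnd ℂ) t = 1) (b : ℂ) :
    t * (2 * (((t * (starRingEnd ℂ) b).re : ℝ) : ℂ)) = t ^ 2 * (starRingEnd ℂ) b + b := by
  have h1 : (2 * (((t * (starRingEnd ℂ) b).re : ℝ) : ℂ)) =
      t * (starRingEnd ℂ) b + (starRingEnd ℂ) t * b := by
    rw [Complex.re_eq_add_conj, map_mul, Complex.conj_conj]
    ring
  rw [h1, mul_add, ← mul_assoc, ← mul_assoc, h2]
  ring

theorem circ (t : Circle) : (t : ℂ) * (starRingEnd ℂ) (t : ℂ) = 1 := by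
  rw [Complex.mul_conj, Circle.normSq_coe]
  simp

/-- bounded functions are integrable -/
theorem int_of_bdd {μ : Measure α} [IsProbabilityMeasure μ] {b : α → ℂ} (hb : Measurable b)
    {C : ℝ} (hC : ∀ᵐ y ∂μ, ‖b y‖ ≤ C) (i j : ℕ) :
    Integrable (fun y => (starRingEnd ℂ) (b y) ^ i * b y ^ j) μ := by
  have hm : Measurable (fun y => (starRingEnd ℂ) (b y) ^ i * b y ^ j) :=
    ((Complex.continuous_conj.measurable.comp hb).pow_const i).mul (hb.pow_const j)
  refine Integrable.of_bound hm.aestronglyMeasurable (C ^ i * C ^ j) ?_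
  filter_upwards [hC] with y hy
  rw [norm_mul, norm_pow, norm_pow, Complex.norm_conj]
  have h0 := norm_nonneg (b y)
  have hC0 : 0 ≤ C := h0.trans hy
  exact mul_le_mul (pow_le_pow_left₀ h0 hy i) (pow_le_pow_left₀ h0 hy j)
    (pow_nonneg h0 j) (pow_nonneg hC0 i)

/-- moments -/
noncomputable def cc (μ : Measure α) (b : α → ℂ) (i j : ℕ) : ℂ :=
  ∫ y, (starRingEnd ℂ) (b y) ^ i * b y ^ j ∂μ

/-- second moment of the real part -/
theorem mom2 {μ : Measure α} [IsProbabilityMeasure μ] {b : α → ℂ} (hb : Measurable b)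
    {C : ℝ} (hC : ∀ᵐ y ∂μ, ‖b y‖ ≤ C) (t : ℂ)
    (ht : t * (starRingEnd ℂ) t = 1) :
    4 * t ^ 2 * ((∫ y, ((t * (starRingEnd ℂ) (b y)).re) ^ 2 ∂μ : ℝ) : ℂ) =
      cc μ b 2 0 * t ^ 4 + 2 * cc μ b 1 1 * t ^ 2 + cc μ b 0 2 := by
  rw [← integral_complex_ofReal, ← integral_const_mul]
  have h1 : ∀ y, 4 * t ^ 2 * ((((t * (starRingEnd ℂ) (b y)).re) ^ 2 : ℝ) : ℂ) =
      t ^ 4 * ((starRingEnd ℂ) (b y) ^ 2 * b y ^ 0) +
      (2 * t ^ 2 * ((starRingEnd ℂ) (b y) ^ 1 * b y ^ 1) +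
        ((starRingEnd ℂ) (b y) ^ 0 * b y ^ 2)) := by
    intro y
    have h2 := two_re t ht (b y)
    have h3 : 4 * t ^ 2 * ((((t * (starRingEnd ℂ) (b y)).re) ^ 2 : ℝ) : ℂ) =
      (t * (2 * (((t * (starRingEnd ℂ) (b y)).re : ℝ) : ℂ))) ^ 2 := by
      push_cast
      ring
    rw [h3, h2]
    ring
  simp only [h1]
  rw [integral_add, integral_add, integral_const_mul, integral_const_mul]
  · unfold cc
    ring
  · exact (int_of_bdd hb hC 1 1).const_mul _
  · exact int_of_bdd hb hC 0 2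
  · exact (int_of_bdd hb hC 2 0).const_mul _
  · exact ((int_of_bdd hb hC 1 1).const_mul _).add (int_of_bdd hb hC 0 2)

/-- fourth moment of the real part -/
theorem mom4 {μ : Measure α} [IsProbabilityMeasure μ] {b : α → ℂ} (hb : Measurable b)
    {C : ℝ} (hC : ∀ᵐ y ∂μ, ‖b y‖ ≤ C) (t : ℂ)
    (ht : t * (starRingEnd ℂ) t = 1) :
    16 * t ^ 4 * ((∫ y, ((t * (starRingEnd ℂ) (b y)).re) ^ 4 ∂μ : ℝ) : ℂ) =
      cc μ b 4 0 * t ^ 8 + 4 * cc μ b 3 1 * t ^ 6 + 6 * cc μ b 2 2 * t ^ 4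
      + 4 * cc μ b 1 3 * t ^ 2 + cc μ b 0 4 := by
  rw [← integral_complex_ofReal, ← integral_const_mul]
  have h1 : ∀ y, 16 * t ^ 4 * ((((t * (starRingEnd ℂ) (b y)).re) ^ 4 : ℝ) : ℂ) =
      t ^ 8 * ((starRingEnd ℂ) (b y) ^ 4 * b y ^ 0) +
      (4 * t ^ 6 * ((starRingEnd ℂ) (b y) ^ 3 * b y ^ 1) +
      (6 * t ^ 4 * ((starRingEnd ℂ) (b y) ^ 2 * b y ^ 2) +
      (4 * t ^ 2 * ((starRingEnd ℂ) (b y) ^ 1 * b y ^ 3) +
        ((starRingEnd ℂ) (b y) ^ 0 * b y ^ 4)))) := by
    intro y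
    have h2 := two_re t ht (b y)
    have h3 : 16 * t ^ 4 * ((((t * (starRingEnd ℂ) (b y)).re) ^ 4 : ℝ) : ℂ) =
      (t * (2 * (((t * (starRingEnd ℂ) (b y)).re : ℝ) : ℂ))) ^ 4 := by
      push_cast
      ring
    rw [h3, h2]
    ring
  have i40 := (int_of_bdd hb hC 4 0).const_mul (t ^ 8)
  have i31 := (int_of_bdd hb hC 3 1).const_mul (4 * t ^ 6)
  have i22 := (int_of_bdd hb hC 2 2).const_mul (6 * t ^ 4)
  have i13 := (int_of_bdd hb hC 1 3).const_mul (4 * t ^ 2)
  have i04 := int_of_bdd hb hC 0 4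
  simp only [h1]
  rw [integral_add, integral_add, integral_add, integral_add,
    integral_const_mul, integral_const_mul, integral_const_mul, integral_const_mul]
  · unfold cc
    ring
  · exact i13
  · exact i04
  · exact i22
  · exact i13.add i04
  · exact i31
  · exact i22.add (i13.add i04)
  · exact i40
  · exact i31.add (i22.add (i13.add i04))

end AuxAbs

theorem pr_Abs (h : StExp) : StAbs := by
  intro α _ _ μ _ T F hF G u b C₀ hG hu hb hFV hC hGe
  -- squares and fourth powers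
  have hG2 : Measurable[F] (fun p => G p ^ 2) := by
    exact (measurable_id.pow_const 2).comp hG
  have hG4 : Measurable[F] (fun p => G p ^ 4) := by
    exact (measurable_id.pow_const 4).comp hG
  obtain ⟨x2, y2⟩ := h α μ T F hF _ hG2
  obtain ⟨x4, -⟩ := h α μ T F hF _ hG4
  set m2 := ∫ p, G p ^ 2 ∂(μ.prod μ) with hm2
  set m4 := ∫ p, G p ^ 4 ∂(μ.prod μ) with hm4
  have hGx : ∀ᵐ x ∂μ, ∀ᵐ y ∂μ, G (x, y) = ((u x : ℂ) * (starRingEnd ℂ) (b y)).re :=
    Measure.ae_ae_of_ae_prod hGe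
  have hGy : ∀ᵐ y ∂μ, ∀ᵐ x ∂μ, G (x, y) = ((u x : ℂ) * (starRingEnd ℂ) (b y)).re :=
    Measure.ae_ae_of_ae_prod (p := fun q : α × α =>
      G (q.2, q.1) = ((u q.2 : ℂ) * (starRingEnd ℂ) (b q.1)).re)
      (Measure.measurePreserving_swap.quasiMeasurePreserving.ae hGe)
  -- first step
  have e20 : AuxAbs.cc μ b 2 0 = 0 := by
    have hP : (C (AuxAbs.cc μ b 2 0) * X ^ 4 + C (2 * AuxAbs.cc μ b 1 1 - 4 * (m2 : ℂ)) * X ^ 2
        + C (AuxAbs.cc μ b 0 2) : ℂ[X]) = 0 := by
      apply AuxAbs.poly_zero hFV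
      filter_upwards [hGx, x2] with x h1 h2
      have h3 : ∫ y, (((u x : ℂ) * (starRingEnd ℂ) (b y)).re) ^ 2 ∂μ = m2 := by
        rw [← h2]
        apply integral_congr_ae
        filter_upwards [h1] with y hy
        rw [hy]
      have h4 := AuxAbs.mom2 hb hC (u x : ℂ) (AuxAbs.circ _)
      rw [h3] at h4
      simp only [eval_add, eval_mul, eval_C, eval_pow, eval_X]
      linear_combination -h4
    have h5 := congrArg (fun P : ℂ[X] => P.coeff 4) hP
    simp only [coeff_add, coeff_C_mul_X_pow, coeff_C, coeff_zero] at h5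
    norm_num at h5
    exact h5
  have e31 : AuxAbs.cc μ b 3 1 = 0 := by
    have hP : (C (AuxAbs.cc μ b 4 0) * X ^ 8 + C (4 * AuxAbs.cc μ b 3 1) * X ^ 6
        + C (6 * AuxAbs.cc μ b 2 2 - 16 * (m4 : ℂ)) * X ^ 4
        + C (4 * AuxAbs.cc μ b 1 3) * X ^ 2
        + C (AuxAbs.cc μ b 0 4) : ℂ[X]) = 0 := by
      apply AuxAbs.poly_zero hFV
      filter_upwards [hGx, x4] with x h1 h2
      have h3 : ∫ y, (((u x : ℂ) * (starRingEnd ℂ) (b y)).re) ^ 4 ∂μ = m4 := by
        rw [← h2]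
        apply integral_congr_ae
        filter_upwards [h1] with y hy
        rw [hy]
      have h4 := AuxAbs.mom4 hb hC (u x : ℂ) (AuxAbs.circ _)
      rw [h3] at h4
      simp only [eval_add, eval_mul, eval_C, eval_pow, eval_X]
      linear_combination -h4
    have h5 := congrArg (fun P : ℂ[X] => P.coeff 6) hP
    simp only [coeff_add, coeff_C_mul_X_pow, coeff_C, coeff_zero] at h5
    norm_num at h5
    exact h5
  -- second step
  set m : ℂ := ∫ x, ((u x : ℂ)) ^ 2 ∂μ with hm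
  have hui : Integrable (fun x => (u x : ℂ) ^ 2) μ := by
    have hcc : Continuous (fun z : Circle => (z : ℂ)) := by fun_prop
    have hc : Measurable (fun z : Circle => (z : ℂ)) := hcc.measurable
    refine Integrable.of_bound ((hc.comp hu).pow_const 2).aestronglyMeasurable 1 ?_
    filter_upwards with x
    rw [norm_pow, Circle.norm_coe, one_pow]
  have key : ∀ᵐ y ∂μ, (m * (starRingEnd ℂ) (b y) ^ 2).re + ‖b y‖ ^ 2 = 2 * m2 := by
    filter_upwards [hGy, y2] with y h1 h2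
    have h3 : ∀ x, 2 * (((u x : ℂ) * (starRingEnd ℂ) (b y)).re) ^ 2 =
        (((u x : ℂ)) ^ 2 * (starRingEnd ℂ) (b y) ^ 2).re + ‖b y‖ ^ 2 := by
      intro x
      have h4 : ∀ z : ℂ, 2 * z.re ^ 2 = (z ^ 2).re + ‖z‖ ^ 2 := by
        intro z
        rw [Complex.sq_norm, Complex.normSq_apply, pow_two z, Complex.mul_re]
        ring
      rw [h4, mul_pow, norm_mul, Circle.norm_coe, one_mul, Complex.norm_conj]
    rw [← h2]
    have h5 : ∫ x, G (x, y) ^ 2 ∂μ =
        ∫ x, (((u x : ℂ) * (starRingEnd ℂ) (b y)).re) ^ 2 ∂μ := by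
      apply integral_congr_ae
      filter_upwards [h1] with x hx
      rw [hx]
    rw [h5, ← integral_const_mul]
    simp only [h3]
    have h6 : Integrable (fun x => (((u x : ℂ)) ^ 2 * (starRingEnd ℂ) (b y) ^ 2)) μ :=
      hui.mul_const _
    have h7 : Integrable (fun x => (((u x : ℂ)) ^ 2 * (starRingEnd ℂ) (b y) ^ 2).re) μ :=
      h6.re
    have h8 : ∫ x, (((u x : ℂ)) ^ 2 * (starRingEnd ℂ) (b y) ^ 2).re ∂μ =
        (∫ x, (((u x : ℂ)) ^ 2 * (starRingEnd ℂ) (b y) ^ 2) ∂μ).re := integral_re h6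
    rw [integral_add h7 (integrable_const _), integral_const, h8, integral_mul_const]
    simp [hm]
  -- the square of the real part
  have hsq : ∫ y, (m * (starRingEnd ℂ) (b y) ^ 2).re ^ 2 ∂μ = 0 := by
    have i20 := AuxAbs.int_of_bdd hb hC 2 0
    have i31 := AuxAbs.int_of_bdd hb hC 3 1
    have h1 : ∫ y, (m * (starRingEnd ℂ) (b y) ^ 2).re ^ 2 ∂μ =
        ∫ y, (2 * (m2 : ℂ) * m * ((starRingEnd ℂ) (b y) ^ 2 * b y ^ 0) -
          m * ((starRingEnd ℂ) (b y) ^ 3 * b y ^ 1)).re ∂μ := by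
      apply integral_congr_ae
      filter_upwards [key] with y hy
      have h2 : (starRingEnd ℂ) (b y) ^ 3 * b y ^ 1 =
          (starRingEnd ℂ) (b y) ^ 2 * ((‖b y‖ ^ 2 : ℝ) : ℂ) := by
        have h3 : (starRingEnd ℂ) (b y) * b y = ((‖b y‖ ^ 2 : ℝ) : ℂ) := by
          rw [Complex.conj_mul']
          push_cast
          rfl
        rw [← h3]
        ring
      rw [h2]
      have h4 : (2 * (m2 : ℂ) * m * ((starRingEnd ℂ) (b y) ^ 2 * b y ^ 0) -
          m * ((starRingEnd ℂ) (b y) ^ 2 * ((‖b y‖ ^ 2 : ℝ) : ℂ))) =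
          ((2 * m2 - ‖b y‖ ^ 2 : ℝ) : ℂ) * (m * (starRingEnd ℂ) (b y) ^ 2) := by
        push_cast
        ring
      rw [h4, Complex.re_ofReal_mul, ← hy]
      ring
    have h5 : Integrable (fun y => 2 * (m2 : ℂ) * m * ((starRingEnd ℂ) (b y) ^ 2 * b y ^ 0) -
          m * ((starRingEnd ℂ) (b y) ^ 3 * b y ^ 1)) μ :=
      (i20.const_mul _).sub (i31.const_mul _)
    have h6 : ∫ y, (2 * (m2 : ℂ) * m * ((starRingEnd ℂ) (b y) ^ 2 * b y ^ 0) -
          m * ((starRingEnd ℂ) (b y) ^ 3 * b y ^ 1)).re ∂μ =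
        (∫ y, (2 * (m2 : ℂ) * m * ((starRingEnd ℂ) (b y) ^ 2 * b y ^ 0) -
          m * ((starRingEnd ℂ) (b y) ^ 3 * b y ^ 1)) ∂μ).re := integral_re h5
    rw [h1, h6, integral_sub (i20.const_mul _) (i31.const_mul _), integral_const_mul,
      integral_const_mul]
    have e20' : ∫ y, (starRingEnd ℂ) (b y) ^ 2 * b y ^ 0 ∂μ = 0 := e20
    have e31' : ∫ y, (starRingEnd ℂ) (b y) ^ 3 * b y ^ 1 ∂μ = 0 := e31
    rw [e20', e31']
    simp
  have hint : Integrable (fun y => (m * (starRingEnd ℂ) (b y) ^ 2).re ^ 2) μ := by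
    have hmeas : Measurable (fun y => (m * (starRingEnd ℂ) (b y) ^ 2).re ^ 2) :=
      (Complex.measurable_re.comp (((Complex.continuous_conj.measurable.comp hb).pow_const
        2).const_mul m)).pow_const 2
    refine Integrable.of_bound hmeas.aestronglyMeasurable ((‖m‖ * C₀ ^ 2) ^ 2) ?_
    filter_upwards [hC] with y hy
    rw [norm_pow]
    apply pow_le_pow_left₀ (norm_nonneg _)
    calc ‖(m * (starRingEnd ℂ) (b y) ^ 2).re‖ ≤ ‖m * (starRingEnd ℂ) (b y) ^ 2‖ :=
          Complex.abs_re_le_norm _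
      _ = ‖m‖ * ‖b y‖ ^ 2 := by rw [norm_mul, norm_pow, Complex.norm_conj]
      _ ≤ ‖m‖ * C₀ ^ 2 := by gcongr
  rw [integral_eq_zero_iff_of_nonneg_ae (Filter.Eventually.of_forall fun y => sq_nonneg _)
    hint] at hsq
  refine ⟨Real.sqrt (2 * m2), ?_⟩
  filter_upwards [hsq, key] with y h1 h2
  have h3 : (m * (starRingEnd ℂ) (b y) ^ 2).re = 0 := by
    have : (m * (starRingEnd ℂ) (b y) ^ 2).re ^ 2 = 0 := h1
    exact pow_eq_zero_iff (two_ne_zero) |>.1 this
  rw [h3, zero_add] at h2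
  rw [← h2, Real.sqrt_sq (norm_nonneg _)]

end Pool.Agent.Work.MP_fa3ce5_an.R2

end

section

set_option autoImplicit false

/-!
# ALG: the algebraic lemma
-/

namespace Pool.Agent.Work.MP_fa3ce5_an.R2

open MeasureTheory ProbabilityTheory Polynomial

namespace AuxAlg

/-- a polynomial with coefficients `-1, 0, 1` has leading coefficient `1` or `-1` -/
lemma lead {n : ℤ[X]} (hn : n ≠ 0) (hs : Sm n) : n.leadingCoeff = 1 ∨ n.leadingCoeff = -1 := by
  rcases hs n.natDegree with h | h | h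
  · right; exact h
  · exact absurd (leadingCoeff_eq_zero.mp h) hn
  · left; exact h

lemma isInt {K : Type} [Field K] {a : K} {n : ℤ[X]} (hn : n ≠ 0) (hs : Sm n)
    (h : aeval a n = 0) : IsIntegral ℤ a := by
  rcases lead hn hs with h1 | h1
  · exact ⟨n, h1, h⟩
  · refine ⟨-n, ?_, ?_⟩
    · unfold Monic
      rw [leadingCoeff_neg, h1, neg_neg]
    · rw [eval₂_neg]
      have : eval₂ (algebraMap ℤ K) a n = 0 := h
      rw [this, neg_zero]

lemma geom (t : ℝ) (ht : 2 ≤ t) (d : ℕ) : ∑ i ∈ Finset.range d, t ^ i ≤ t ^ d - 1 := by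
  induction d with
  | zero => simp
  | succ d ih =>
    rw [Finset.sum_range_succ, pow_succ]
    have : 0 < t ^ d := by positivity
    nlinarith

lemma small {b : ℂ} (hb : 2 ≤ ‖b‖) {n : ℤ[X]} (hn : n ≠ 0) (hs : Sm n) : aeval b n ≠ 0 := by
  intro h
  rw [aeval_eq_sum_range, Finset.sum_range_succ] at h
  have h1 : ‖n.coeff n.natDegree • b ^ n.natDegree‖ = ‖b‖ ^ n.natDegree := by
    rcases lead hn hs with h1 | h1
    · rw [coeff_natDegree, h1, one_smul, norm_pow]
    · rw [coeff_natDegree, h1, neg_smul, one_smul, norm_neg, norm_pow]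
  have h2 : n.coeff n.natDegree • b ^ n.natDegree =
      -∑ i ∈ Finset.range n.natDegree, n.coeff i • b ^ i := by
    linear_combination h
  rw [h2, norm_neg] at h1
  have h3 : ‖∑ i ∈ Finset.range n.natDegree, n.coeff i • b ^ i‖ ≤
      ∑ i ∈ Finset.range n.natDegree, ‖b‖ ^ i := by
    refine (norm_sum_le _ _).trans (Finset.sum_le_sum fun i _ => ?_)
    rcases hs i with h4 | h4 | h4
    · rw [h4, neg_smul, one_smul, norm_neg, norm_pow]
    · rw [h4, zero_smul, norm_zero]; positivity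
    · rw [h4, one_smul, norm_pow]
  have h5 := geom ‖b‖ hb n.natDegree
  linarith

/-- the embedding with a large conjugate -/
lemma exists_emb {K : Type} [Field K] [CharZero K] {a : K} (ha0 : a ≠ 0)
    (ha : ∀ m : ℕ, 1 ≤ m → a ^ m ≠ 1) (hi : IsIntegral ℤ a) :
    ∃ m : ℕ, 1 ≤ m ∧ ∀ n : ℤ[X], n ≠ 0 → Sm n → aeval (a ^ m) n ≠ 0 := by
  have hq : IsIntegral ℚ a := hi.tower_top
  let E := IntermediateField.adjoin ℚ {a}
  have hfd : FiniteDimensional ℚ E := IntermediateField.adjoin.finiteDimensional hq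
  have hnf : NumberField E := ⟨⟩
  let x : E := IntermediateField.AdjoinSimple.gen ℚ a
  have hx : (x : K) = a := IntermediateField.AdjoinSimple.coe_gen ℚ a
  have hx0 : x ≠ 0 := by
    intro h
    apply ha0
    rw [← hx, h]; rfl
  have hxi : IsIntegral ℤ x := by
    have h1 : IsIntegral ℤ ((IntermediateField.val E).restrictScalars ℤ x) := by
      show IsIntegral ℤ (x : K)
      rw [hx]; exact hi
    exact (isIntegral_algHom_iff ((IntermediateField.val E).restrictScalars ℤ)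
      Subtype.val_injective).mp h1
  have hex : ∃ φ : E →+* ℂ, 1 < ‖φ x‖ := by
    by_contra hcon
    push Not at hcon
    obtain ⟨n, hn, hxn⟩ := NumberField.Embeddings.pow_eq_one_of_norm_le_one E ℂ hx0 hxi hcon
    apply ha n hn
    rw [← hx]
    have := congrArg (fun z : E => (z : K)) hxn
    simpa using this
  obtain ⟨φ, hφ⟩ := hex
  obtain ⟨m, hm⟩ := pow_unbounded_of_one_lt 2 hφ
  have hm1 : 1 ≤ m := by
    rcases Nat.eq_zero_or_pos m with h | h
    · rw [h, pow_zero] at hm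
      norm_num at hm
    · exact h
  refine ⟨m, hm1, fun n hn hs h => ?_⟩
  have h1 : aeval (x ^ m) n = 0 := by
    have h2 : ((IntermediateField.val E).restrictScalars ℤ) (aeval (x ^ m) n) = 0 := by
      rw [← aeval_algHom_apply]
      have : ((IntermediateField.val E).restrictScalars ℤ) (x ^ m) = a ^ m := by
        rw [map_pow]
        show (x : K) ^ m = a ^ m
        rw [hx]
      rw [this, h]
    exact (map_eq_zero_iff _ Subtype.val_injective).mp h2
  have h3 : aeval ((φ x) ^ m) n = 0 := by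
    have h4 : (φ.toIntAlgHom) (aeval (x ^ m) n) = 0 := by rw [h1, map_zero]
    rw [← aeval_algHom_apply] at h4
    have : φ.toIntAlgHom (x ^ m) = (φ x) ^ m := by
      rw [map_pow]; rfl
    rwa [this] at h4
  refine small ?_ hn hs h3
  rw [norm_pow]
  exact hm.le

lemma core {K : Type} [Field K] (ψ : ℤ[X] →+* K) (L : Ideal ℤ[X]) (k₀ : ℤ[X])
    (hψ : ∀ f : ℤ[X], f * k₀ ∈ L ↔ ψ f = 0) (hCP : ∀ n : ℤ, n ≠ 0 → ψ (C n) ≠ 0)
    (hXP : ψ X ≠ 0) (hXmP : ∀ m : ℕ, 1 ≤ m → ψ (X ^ m - 1) ≠ 0) :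
    ∃ (k₀ : ℤ[X]) (m : ℕ), 1 ≤ m ∧ ∀ n : ℤ[X], n ≠ 0 → Sm n → expand ℤ m n * k₀ ∉ L := by
  have hav : ∀ f : ℤ[X], aeval (ψ X) f = ψ f := by
    intro f
    have h2 : (aeval (ψ X) : ℤ[X] →ₐ[ℤ] K).toRingHom = ψ := by
      apply Polynomial.ringHom_ext
      · intro n
        simp
      · show aeval (ψ X) X = _
        rw [aeval_X]
    exact RingHom.congr_fun h2 f
  have hch : CharZero K := by
    refine charZero_of_inj_zero fun n hn => ?_
    by_contra hne
    refine hCP (n : ℤ) (by exact_mod_cast hne) ?_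
    simpa using hn
  have ham : ∀ m : ℕ, 1 ≤ m → (ψ X) ^ m ≠ 1 := by
    intro m hm h
    apply hXmP m hm
    rw [map_sub, map_pow, h, map_one, sub_self]
  by_cases hi : IsIntegral ℤ (ψ X)
  · obtain ⟨m, hm, h2⟩ := exists_emb hXP ham hi
    refine ⟨k₀, m, hm, fun n hn hs h => h2 n hn hs ?_⟩
    rw [← expand_aeval, hav, ← hψ]
    exact h
  · refine ⟨k₀, 1, le_rfl, fun n hn hs h => hi ?_⟩
    rw [expand_one, hψ, ← hav] at h
    exact isInt hn hs h

end AuxAlg

open AuxAlg in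
theorem pr_Alg : StAlg := by
  intro L h1 hC hX hXm
  have hLtop : L ≠ ⊤ := fun h => h1 (h ▸ Submodule.mem_top)
  have hnt : Nontrivial (ℤ[X] ⧸ L) := Ideal.Quotient.nontrivial_iff.mpr hLtop
  obtain ⟨P, hP⟩ := associatedPrimes.nonempty ℤ[X] (ℤ[X] ⧸ L)
  obtain ⟨hPp, x, hx⟩ := isAssociatedPrime_iff.mp hP
  obtain ⟨k₀, rfl⟩ := Ideal.Quotient.mk_surjective x
  have hPm : ∀ f : ℤ[X], f ∈ P ↔ f * k₀ ∈ L := by
    intro f
    rw [hx, Submodule.mem_colon_singleton, Submodule.mem_bot, ← Ideal.Quotient.eq_zero_iff_mem,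
      map_mul]
    rfl
  have hk0 : k₀ ∉ L := by
    intro h
    apply hPp.ne_top
    rw [Ideal.eq_top_iff_one, hPm, one_mul]
    exact h
  have hdom : IsDomain (ℤ[X] ⧸ P) := Ideal.Quotient.isDomain P
  have hinj : Function.Injective (algebraMap (ℤ[X] ⧸ P) (FractionRing (ℤ[X] ⧸ P))) :=
    IsFractionRing.injective _ _
  have hze : ∀ f : ℤ[X], f ∈ P ↔ ((algebraMap (ℤ[X] ⧸ P) (FractionRing (ℤ[X] ⧸ P))).comp
      (Ideal.Quotient.mk P)) f = 0 := by
    intro f
    rw [RingHom.comp_apply, map_eq_zero_iff _ hinj, Ideal.Quotient.eq_zero_iff_mem]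
  refine core ((algebraMap (ℤ[X] ⧸ P) (FractionRing (ℤ[X] ⧸ P))).comp (Ideal.Quotient.mk P))
    L k₀ (fun f => by rw [← hPm, hze]) (fun n hn h => ?_) (fun h => ?_) (fun m hm h => ?_)
  · exact hk0 (hC n k₀ hn ((hPm _).mp ((hze _).mpr h)))
  · exact hk0 (hX k₀ ((hPm _).mp ((hze _).mpr h)))
  · exact hk0 (hXm m k₀ hm ((hPm _).mp ((hze _).mpr h)))

end Pool.Agent.Work.MP_fa3ce5_an.R2

end

section

set_option autoImplicit false

/-!
# Item B
-/

namespace Pool.Agent.Work.MP_fa3ce5_an.R2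

open MeasureTheory ProbabilityTheory Polynomial

namespace AuxB

theorem measurable_re : Measurable (fun z : Circle => (z : ℂ).re) :=
  Complex.measurable_re.comp
    (show Continuous (fun z : Circle => (z : ℂ)) from continuous_subtype_val).measurable

theorem measurable_im : Measurable (fun z : Circle => (z : ℂ).im) :=
  Complex.measurable_im.comp
    (show Continuous (fun z : Circle => (z : ℂ)) from continuous_subtype_val).measurable

/-- three circle elements -/
theorem three (w₀ w₁ w₂ : Circle) (c₁ c₂ : ℝ) (h0 : (w₀ : ℂ).re = c₁) (h1 : (w₁ : ℂ).re = c₁)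
    (h2 : (w₂ : ℂ).re = c₁) (h3 : (w₀ : ℂ).im * (w₁ : ℂ).im = c₂)
    (h4 : (w₁ : ℂ).im * (w₂ : ℂ).im = c₂) : w₂ = w₀ := by
  have e0 := circle_sq w₀
  have e1 := circle_sq w₁
  have e2 := circle_sq w₂
  apply Circle.ext
  apply Complex.ext
  · rw [h2, h0]
  · by_cases hi : (w₁ : ℂ).im = 0
    · have h5 : (w₀ : ℂ).im = 0 := by
        have : (w₀ : ℂ).im ^ 2 = 0 := by
          rw [hi] at e1
          rw [h0] at e0
          rw [h1] at e1
          linarith
        exact pow_eq_zero_iff (two_ne_zero) |>.1 this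
      have h6 : (w₂ : ℂ).im = 0 := by
        have : (w₂ : ℂ).im ^ 2 = 0 := by
          rw [hi] at e1
          rw [h2] at e2
          rw [h1] at e1
          linarith
        exact pow_eq_zero_iff (two_ne_zero) |>.1 this
      rw [h5, h6]
    · apply mul_left_cancel₀ hi
      rw [h4, ← h3, mul_comm]

/-- the real part and the product of the imaginary parts are in the factor -/
theorem inF {α : Type} [MeasurableSpace α] {μ : Measure α} [IsProbabilityMeasure μ]
    {T : α ≃ᵐ α} {F : SA α} {u v : α → Circle} (hC : Cir μ T F u v) {j : ℕ}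
    {zs : ℕ → α × α → Circle} (hG : Glob μ T F u v j zs) (k : ℤ[X]) :
    Measurable[F] (fun p => ((chr (zz u v) (Prod.map ⇑T ⇑T) (expand ℤ j k) p : Circle) :
      ℂ).re) ∧
    Measurable[F] (fun p => ((chr (zz u v) (Prod.map ⇑T ⇑T) (expand ℤ j k) p : Circle) :
      ℂ).im * ((chr (zz u v) (Prod.map ⇑T ⇑T) (expand ℤ j k)
        ((Prod.map ⇑T ⇑T)^[j] p) : Circle) : ℂ).im) := by
  obtain ⟨hz, hae⟩ := hG
  have hT : Measurable (⇑T) := T.measurable
  have hS : Measurable (Prod.map ⇑T ⇑T) := hT.prodMap hT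
  have hW := measurable_chr (zz u v) (Prod.map ⇑T ⇑T) (measurable_zz hC.hu hC.hv) hS
    (expand ℤ j k)
  have key : ∀ᵐ p ∂(μ.prod μ),
      (chr (zz u v) (Prod.map ⇑T ⇑T) (expand ℤ j k) p = mon (fun n => zs n p) k ∧
       chr (zz u v) (Prod.map ⇑T ⇑T) (expand ℤ j k) ((Prod.map ⇑T ⇑T)^[j] p) =
         mon (fun n => zs (n + 1) p) k) ∨
      (chr (zz u v) (Prod.map ⇑T ⇑T) (expand ℤ j k) p = (mon (fun n => zs n p) k)⁻¹ ∧
       chr (zz u v) (Prod.map ⇑T ⇑T) (expand ℤ j k) ((Prod.map ⇑T ⇑T)^[j] p) =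
         (mon (fun n => zs (n + 1) p) k)⁻¹) := by
    filter_upwards [hae] with p hp
    rw [chr_expand, chr_expand]
    have e2 : ∀ n : ℕ, (Prod.map ⇑T ⇑T)^[n * j] ((Prod.map ⇑T ⇑T)^[j] p) =
        (Prod.map ⇑T ⇑T)^[j * (n + 1)] p := by
      intro n
      rw [← Function.iterate_add_apply, show n * j + j = j * (n + 1) by ring]
    rcases hp with hp | hp
    · left
      constructor
      · congr 1
        funext n
        rw [mul_comm n j]
        exact hp n
      · congr 1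
        funext n
        rw [e2]
        exact hp (n + 1)
    · right
      constructor
      · rw [← mon_inv_fun]
        congr 1
        funext n
        rw [mul_comm n j]
        exact hp n
      · rw [← mon_inv_fun]
        congr 1
        funext n
        rw [e2]
        exact hp (n + 1)
  constructor
  · refine hC.fac.congr (measurable_re.comp hW) (measurable_re.comp (measurable_mon hz k)) ?_
    filter_upwards [key] with p hp
    show ((chr (zz u v) (Prod.map ⇑T ⇑T) (expand ℤ j k) p : Circle) : ℂ).re =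
      ((mon (fun n => zs n p) k : Circle) : ℂ).re
    rcases hp with hp | hp
    · rw [hp.1]
    · rw [hp.1, Circle.coe_inv_eq_conj, Complex.conj_re]
  · refine hC.fac.congr ((measurable_im.comp hW).mul (measurable_im.comp (hW.comp (hS.iterate j))))
      ((measurable_im.comp (measurable_mon hz k)).mul
        (measurable_im.comp (measurable_mon (fun n => hz (n + 1)) k))) ?_
    filter_upwards [key] with p hp
    show ((chr (zz u v) (Prod.map ⇑T ⇑T) (expand ℤ j k) p : Circle) : ℂ).im *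
      ((chr (zz u v) (Prod.map ⇑T ⇑T) (expand ℤ j k) ((Prod.map ⇑T ⇑T)^[j] p) : Circle) : ℂ).im =
      ((mon (fun n => zs n p) k : Circle) : ℂ).im * ((mon (fun n => zs (n + 1) p) k : Circle) :
        ℂ).im
    rcases hp with hp | hp
    · rw [hp.1, hp.2]
    · rw [hp.1, hp.2, Circle.coe_inv_eq_conj, Circle.coe_inv_eq_conj, Complex.conj_im,
        Complex.conj_im]
      ring

end AuxB

theorem pr_B (h1 : StRect) (h2 : StEig) : StB := by
  intro α _ _ μ _ T F u v hC j zs hj hG k hFV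
  have hT : Measurable (⇑T) := T.measurable
  have hUm : Measurable (chr u (⇑T) (expand ℤ j k)) := measurable_chr u _ hC.hu hT _
  have hVm : Measurable (chr v (⇑T) (expand ℤ j k)) := measurable_chr v _ hC.hv hT _
  obtain ⟨hF1, hF2⟩ := AuxB.inF hC hG k
  obtain ⟨m, P, s, hP, hs⟩ := FV.exists_index hFV hUm
  have hTj : MeasurePreserving ((⇑T)^[j]) μ μ := hC.fac.mp.iterate j
  have hs' : ∀ᵐ x ∂μ, chr u (⇑T) (expand ℤ j k) ((⇑T)^[j] x) = s (P ((⇑T)^[j] x)) :=
    hTj.quasiMeasurePreserving.ae hs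
  have hfst : Measure.QuasiMeasurePreserving (Prod.fst : α × α → α) (μ.prod μ) μ :=
    Measure.quasiMeasurePreserving_fst
  -- the first function
  have hr1 := h1 α μ T F hC.fac _ hF1 m P
    (fun i y => ((s i * (chr v (⇑T) (expand ℤ j k) y)⁻¹ : Circle) : ℂ).re) hP
    (fun i => AuxB.measurable_re.comp (measurable_const.mul hVm.inv)) (by
      filter_upwards [hfst.ae hs] with p hp
      rw [chr_zz, hp])
  have hr2 := h1 α μ T F hC.fac _ hF2 (m * m)
    (fun x => finProdFinEquiv (P x, P ((⇑T)^[j] x)))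
    (fun i y => ((s (finProdFinEquiv.symm i).1 * (chr v (⇑T) (expand ℤ j k) y)⁻¹ : Circle) :
      ℂ).im * ((s (finProdFinEquiv.symm i).2 * (chr v (⇑T) (expand ℤ j k) ((⇑T)^[j] y))⁻¹ :
      Circle) : ℂ).im)
    ((measurable_of_finite _).comp (hP.prodMk (hP.comp hTj.measurable)))
    (fun i => (AuxB.measurable_im.comp (measurable_const.mul hVm.inv)).mul
      (AuxB.measurable_im.comp (measurable_const.mul (hVm.comp hTj.measurable).inv))) (by
      filter_upwards [hfst.ae hs, hfst.ae hs'] with p hp hp'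
      rw [chr_zz, chr_zz, iterate_prodMap, Equiv.symm_apply_apply]
      show _ = ((s (P p.1) * (chr v (⇑T) (expand ℤ j k) p.2)⁻¹ : Circle) : ℂ).im *
        ((s (P ((⇑T)^[j] p.1)) * (chr v (⇑T) (expand ℤ j k) ((⇑T)^[j] p.2))⁻¹ : Circle) : ℂ).im
      rw [hp, hp'])
  rcases hr1 with ⟨c₁, hc1⟩ | hr1
  swap
  · exact Or.inr hr1
  rcases hr2 with ⟨c₂, hc2⟩ | hr2
  swap
  · exact Or.inr hr2
  left
  have hSm : MeasurePreserving (Prod.map ⇑T ⇑T) (μ.prod μ) (μ.prod μ) :=
    hC.fac.mp.prod hC.fac.mp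
  have hSj : MeasurePreserving ((Prod.map ⇑T ⇑T)^[j]) (μ.prod μ) (μ.prod μ) := hSm.iterate j
  have hc1' := hSj.quasiMeasurePreserving.ae hc1
  have hc1'' := hSj.quasiMeasurePreserving.ae hc1'
  have hc2' := hSj.quasiMeasurePreserving.ae hc2
  have hW : ∀ᵐ p ∂(μ.prod μ),
      chr u (⇑T) (expand ℤ j k) ((⇑T)^[2 * j] p.1) * (chr u (⇑T) (expand ℤ j k) p.1)⁻¹ =
      chr v (⇑T) (expand ℤ j k) ((⇑T)^[2 * j] p.2) * (chr v (⇑T) (expand ℤ j k) p.2)⁻¹ := by
    filter_upwards [hc1, hc1', hc1'', hc2, hc2'] with p e0 e1 e2 e3 e4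
    have e5 := AuxB.three _ _ _ c₁ c₂ e0 e1 e2 e3 e4
    rw [← Function.iterate_add_apply, ← two_mul, iterate_prodMap, chr_zz, chr_zz] at e5
    have e6 : chr u (⇑T) (expand ℤ j k) ((⇑T)^[2 * j] p.1) *
        (chr v (⇑T) (expand ℤ j k) ((⇑T)^[2 * j] p.2))⁻¹ =
        chr u (⇑T) (expand ℤ j k) p.1 * (chr v (⇑T) (expand ℤ j k) p.2)⁻¹ := e5
    rw [← div_eq_mul_inv, ← div_eq_mul_inv, div_eq_div_iff_mul_eq_mul] at e6 ⊢
    rw [mul_comm (chr v (⇑T) (expand ℤ j k) ((⇑T)^[2 * j] p.2))]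
    exact e6
  have hsw : ∀ᵐ q ∂(μ.prod μ),
      chr u (⇑T) (expand ℤ j k) ((⇑T)^[2 * j] q.2) * (chr u (⇑T) (expand ℤ j k) q.2)⁻¹ =
      chr v (⇑T) (expand ℤ j k) ((⇑T)^[2 * j] q.1) * (chr v (⇑T) (expand ℤ j k) q.1)⁻¹ :=
    (Measure.measurePreserving_swap (μ := μ) (ν := μ)).quasiMeasurePreserving.ae hW
  obtain ⟨y, hy⟩ := (Measure.ae_ae_of_ae_prod hsw).exists
  refine h2 α μ T hC.fac.mp hC.fac.erg _ hUm (2 * j) (by omega)
    (chr v (⇑T) (expand ℤ j k) ((⇑T)^[2 * j] y) * (chr v (⇑T) (expand ℤ j k) y)⁻¹) ?_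
  filter_upwards [hy] with x hx
  have hx' : chr u (⇑T) (expand ℤ j k) ((⇑T)^[2 * j] x) * (chr u (⇑T) (expand ℤ j k) x)⁻¹ =
      chr v (⇑T) (expand ℤ j k) ((⇑T)^[2 * j] y) * (chr v (⇑T) (expand ℤ j k) y)⁻¹ := hx
  rw [← hx', mul_assoc, inv_mul_cancel, mul_one]

end Pool.Agent.Work.MP_fa3ce5_an.R2

end

section

/-!
# The second factor is bounded (block R2)
-/

set_option autoImplicit false

namespace Pool.Agent.Work.MP_fa3ce5_an.R2

open MeasureTheory ProbabilityTheory Polynomial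

namespace AuxBdd

theorem sq_eq {a b : Circle} (h : ((a * b⁻¹ : Circle) : ℂ).im = 0) : b ^ (2 : ℤ) = a ^ (2 : ℤ) := by
  have h1 := circle_sq (a * b⁻¹)
  have h2 : (a * b⁻¹) ^ 2 = 1 := by
    apply Circle.ext
    rw [Circle.coe_pow, Circle.coe_one]
    apply Complex.ext
    · rw [pow_two, Complex.mul_re, h, Complex.one_re]
      rw [h] at h1
      nlinarith
    · rw [pow_two, Complex.mul_im, h, Complex.one_im]
      ring
  have h3 : a ^ 2 = b ^ 2 := by
    rw [mul_pow, inv_pow] at h2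
    exact mul_inv_eq_one.1 h2
  rw [show (2 : ℤ) = ((2 : ℕ) : ℤ) from rfl, zpow_natCast, zpow_natCast, h3]

theorem bound {a c b : ℂ} {m d : ℝ} (ha : |a.re| ≤ 1 ∧ |a.im| ≤ 1) (hc : |c.re| ≤ 1 ∧ |c.im| ≤ 1)
    (hd : d = a.im * c.re - a.re * c.im) (hd0 : d ≠ 0)
    (h1 : |(a * (starRingEnd ℂ) b).re| ≤ m) (h2 : |(c * (starRingEnd ℂ) b).re| ≤ m) :
    ‖b‖ ≤ 4 * m / |d| := by
  have hdp : 0 < |d| := abs_pos.2 hd0
  have e1 : (a * (starRingEnd ℂ) b).re = a.re * b.re + a.im * b.im := by simp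
  have e2 : (c * (starRingEnd ℂ) b).re = c.re * b.re + c.im * b.im := by simp
  set r := (a * (starRingEnd ℂ) b).re with hr
  set s := (c * (starRingEnd ℂ) b).re with hs
  have e3 : b.re * d = s * a.im - r * c.im := by
    rw [hd, e1, e2]
    ring
  have e4 : b.im * d = r * c.re - s * a.re := by
    rw [hd, e1, e2]
    ring
  have hm : 0 ≤ m := (abs_nonneg _).trans h1
  have hmul : ∀ x y : ℝ, |x| ≤ m → |y| ≤ 1 → |x * y| ≤ m := by
    intro x y hx hy
    rw [abs_mul]
    calc |x| * |y| ≤ m * 1 := mul_le_mul hx hy (abs_nonneg _) hm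
      _ = m := mul_one m
  have h3 : |b.re| * |d| ≤ 2 * m := by
    rw [← abs_mul, e3]
    have := abs_sub (s * a.im) (r * c.im)
    linarith [hmul s a.im h2 ha.2, hmul r c.im h1 hc.2]
  have h4 : |b.im| * |d| ≤ 2 * m := by
    rw [← abs_mul, e4]
    have := abs_sub (r * c.re) (s * a.re)
    linarith [hmul s a.re h2 ha.1, hmul r c.re h1 hc.1]
  have h5 := Complex.norm_le_abs_re_add_abs_im b
  rw [le_div_iff₀ hdp]
  nlinarith

end AuxBdd

open AuxBdd in
theorem pr_Bdd (h : StLaw) : StBdd := by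
  intro α _ _ μ _ T F hF G u b hG hu hb hFV hGe
  obtain ⟨-, hlaw, -⟩ := h α μ T F hF ℝ G hG
  have hGm : Measurable G := hF.meas hG
  have hsw : ∀ᵐ y ∂μ, ∀ᵐ x ∂μ, G (x, y) = ((u x : ℂ) * (starRingEnd ℂ) (b y)).re := by
    have h1 : ∀ᵐ p ∂(μ.prod μ), G p.swap = ((u p.swap.1 : ℂ) * (starRingEnd ℂ) (b p.swap.2)).re :=
      (Measure.measurePreserving_swap (μ := μ) (ν := μ)).quasiMeasurePreserving.ae hGe
    exact Measure.ae_ae_of_ae_prod h1
  obtain ⟨y0, hy1, hy2⟩ := (hlaw.and hsw).exists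
  set m : ℝ := ‖b y0‖ with hm
  have hrho : ((μ.prod μ).map G) {t | m < |t|} = 0 := by
    have hms : MeasurableSet {t : ℝ | m < |t|} :=
      measurableSet_lt measurable_const measurable_norm
    have hmy : Measurable (fun x => G (x, y0)) :=
      hGm.comp (measurable_id.prodMk measurable_const)
    rw [← hy1, Measure.map_apply hmy hms]
    refine measure_eq_zero_iff_ae_notMem.2 ?_
    filter_upwards [hy2] with x hx
    show ¬ m < |G (x, y0)|
    rw [not_lt, hx]
    refine (Complex.abs_re_le_norm _).trans ?_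
    rw [norm_mul, Circle.norm_coe, one_mul, RCLike.norm_conj]
  have hbd : ∀ᵐ p ∂(μ.prod μ), |((u p.1 : ℂ) * (starRingEnd ℂ) (b p.2)).re| ≤ m := by
    have hms : MeasurableSet {t : ℝ | m < |t|} :=
      measurableSet_lt measurable_const measurable_norm
    rw [Measure.map_apply hGm hms] at hrho
    filter_upwards [measure_eq_zero_iff_ae_notMem.1 hrho, hGe] with p hp hp2
    have : ¬ m < |G p| := hp
    rw [not_lt, hp2] at this
    exact this
  have hx := Measure.ae_ae_of_ae_prod hbd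
  obtain ⟨x1, hx1⟩ := hx.exists
  obtain ⟨x2, hx2, hd⟩ : ∃ x2, (∀ᵐ y ∂μ, |((u x2 : ℂ) * (starRingEnd ℂ) (b y)).re| ≤ m) ∧
      ((u x1 * (u x2)⁻¹ : Circle) : ℂ).im ≠ 0 := by
    by_contra hcon
    push Not at hcon
    refine hFV (FV.of_zpow (n := 2) two_ne_zero ⟨{u x1 ^ (2 : ℤ)}, ?_⟩)
    filter_upwards [hx] with x hxx
    rw [Finset.mem_singleton]
    exact sq_eq (hcon x hxx)
  have hc : ∀ z : Circle, |(z : ℂ).re| ≤ 1 ∧ |(z : ℂ).im| ≤ 1 := by
    intro z
    have h1 := Complex.abs_re_le_norm (z : ℂ)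
    have h2 := Complex.abs_im_le_norm (z : ℂ)
    rw [Circle.norm_coe] at h1 h2
    exact ⟨h1, h2⟩
  refine ⟨4 * m / |((u x1 * (u x2)⁻¹ : Circle) : ℂ).im|, ?_⟩
  filter_upwards [hx1, hx2] with y h1 h2
  refine bound (hc (u x1)) (hc (u x2)) ?_ hd h1 h2
  rw [Circle.coe_mul, Circle.coe_inv_eq_conj]
  simp
  ring

end Pool.Agent.Work.MP_fa3ce5_an.R2

end

section

set_option autoImplicit false

/-!
# CPL: completion of the factor
-/

namespace Pool.Agent.Work.MP_fa3ce5_an.R2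

open MeasureTheory ProbabilityTheory Polynomial

namespace AuxCpl

/-- the completion -/
def F1 {α : Type} [MeasurableSpace α] (ν : Measure (α × α)) (F : SA α) : SA α :=
  { MeasurableSet' := fun s => MeasurableSet s ∧ ∃ t, MeasurableSet[F] t ∧ s =ᵐ[ν] t
    measurableSet_empty := ⟨MeasurableSet.empty, ∅, @MeasurableSet.empty _ F, Filter.EventuallyEq.rfl⟩
    measurableSet_compl := by
      rintro s ⟨hs, t, ht, he⟩
      exact ⟨hs.compl, tᶜ, @MeasurableSet.compl _ _ F ht, he.compl⟩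
    measurableSet_iUnion := by
      intro f hf
      choose h1 t ht he using hf
      exact ⟨MeasurableSet.iUnion h1, ⋃ i, t i, @MeasurableSet.iUnion _ _ F _ _ ht,
        Filter.EventuallyEq.countable_iUnion he⟩ }

lemma mem_F1 {α : Type} [MeasurableSpace α] (ν : Measure (α × α)) (F : SA α) (s : Set (α × α)) :
    MeasurableSet[F1 ν F] s ↔ MeasurableSet s ∧ ∃ t, MeasurableSet[F] t ∧ s =ᵐ[ν] t := Iff.rfl

end AuxCpl

open AuxCpl in
theorem pr_Cpl : StCpl := by
  intro α _ μ _ T hT herg F hle hinv hind1 hind2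
  have hS : MeasurePreserving (Prod.map ⇑T ⇑T) (μ.prod μ) (μ.prod μ) := hT.prod hT
  set S : (α × α) ≃ᵐ (α × α) := MeasurableEquiv.prodCongr T T with hSd
  have hSe : (⇑S : α × α → α × α) = Prod.map ⇑T ⇑T := rfl
  refine ⟨F1 (μ.prod μ) F, ?_, ?_⟩
  · intro s hs
    rw [mem_F1]
    exact ⟨hle s hs, s, hs, Filter.EventuallyEq.rfl⟩
  · refine ⟨hT, herg, ?_, ?_, ?_, ?_, ?_⟩
    · intro s hs
      exact ((mem_F1 _ _ _).mp hs).1
    · intro s
      rw [mem_F1, mem_F1]
      constructor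
      · rintro ⟨hs, t, ht, he⟩
        exact ⟨hS.measurable hs, Prod.map ⇑T ⇑T ⁻¹' t, (hinv t).1 ht,
          hS.quasiMeasurePreserving.preimage_ae_eq he⟩
      · rintro ⟨hs, t, ht, he⟩
        have hs1 : s = ⇑S.symm ⁻¹' (Prod.map ⇑T ⇑T ⁻¹' s) := by
          rw [← hSe, ← Set.preimage_comp, MeasurableEquiv.self_comp_symm, Set.preimage_id]
        have ht1 : Prod.map ⇑T ⇑T ⁻¹' (⇑S.symm ⁻¹' t) = t := by
          rw [← hSe, ← Set.preimage_comp, MeasurableEquiv.symm_comp_self, Set.preimage_id]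
        have hSs : MeasurePreserving (⇑S.symm) (μ.prod μ) (μ.prod μ) :=
          MeasurePreserving.symm S hS
        refine ⟨?_, ⇑S.symm ⁻¹' t, ?_, ?_⟩
        · rw [hs1]
          exact S.symm.measurable hs
        · rw [hinv, ht1]
          exact ht
        · have := hSs.quasiMeasurePreserving.preimage_ae_eq he
          rwa [← hs1] at this
    · intro s t hs ht
      obtain ⟨-, s', hs', he⟩ := (mem_F1 _ _ _).mp hs
      rw [measure_congr he, ← hind1 s' t hs' ht]
      exact measure_congr (he.inter Filter.EventuallyEq.rfl)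
    · intro s t hs ht
      obtain ⟨-, s', hs', he⟩ := (mem_F1 _ _ _).mp hs
      rw [measure_congr he, ← hind2 s' t hs' ht]
      exact measure_congr (he.inter Filter.EventuallyEq.rfl)
    · intro s t hs ht he
      obtain ⟨-, t', ht', he'⟩ := (mem_F1 _ _ _).mp ht
      rw [mem_F1]
      exact ⟨hs, t', ht', he.trans he'⟩

end Pool.Agent.Work.MP_fa3ce5_an.R2

end
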