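import Pool.Agent.Work.MP_fa3ce5_an.Bd.B02

/-! Bundle of small proof modules (one section per former module). -/

section

set_option autoImplicit false

namespace Pool.Agent.Work.MP_fa3ce5_an.R2

open MeasureTheory ProbabilityTheory Polynomial
open scoped ENNReal

namespace AuxDich

section

variable {α : Type} [MeasurableSpace α] {μ : Measure α} {T : α ≃ᵐ α} {F : SA α}
  {u v : α → Circle}

/-- the sequence of representatives in the upper half plane -/
noncomputable def qq (T : α ≃ᵐ α) (u v : α → Circle) (p : α × α) : ℕ → Circle :=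
  fun n => up (zz u v ((Prod.map ⇑T ⇑T)^[n] p))

theorem measurable_qq (hC : Cir μ T F u v) : Measurable[F] (qq T u v) :=
  @measurable_pi_lambda (α × α) ℕ (fun _ => Circle) F (fun _ => inferInstance) (qq T u v)
    (fun n => measurable_up_of_re (hC.fac.comp_iterate hC.re n))

theorem exists_variant (k : ℤ[X]) (p : α × α) : ∃ k' ∈ variants k,
    chr (zz u v) (Prod.map ⇑T ⇑T) k p = mon (qq T u v p) k' := by
  choose ε hε using fun n => exists_ap (zz u v ((Prod.map ⇑T ⇑T)^[n] p))
  refine ⟨vary ε k, vary_mem_variants ε k, ?_⟩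
  rw [← mon_ap]
  unfold chr
  congr 1
  funext n
  exact hε n

end

theorem measurableSet_mon (k : ℤ[X]) (τ : Circle) :
    MeasurableSet {f : ℕ → Circle | mon f k = τ} :=
  (measurable_mon (fun n => measurable_pi_apply n) k) (measurableSet_singleton τ)

theorem finite_big (ρ : Measure (ℕ → Circle)) [IsProbabilityMeasure ρ] (k : ℤ[X]) {c : ℝ≥0∞}
    (hc : c ≠ 0) : {τ : Circle | c ≤ ρ {f | mon f k = τ}}.Finite := by
  refine Measure.finite_const_le_meas_of_disjoint_iUnion ρ (pos_iff_ne_zero.2 hc)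
    (As := fun τ : Circle => {f : ℕ → Circle | mon f k = τ}) (fun τ => measurableSet_mon k τ) ?_
    (measure_ne_top _ _)
  intro a b hab
  rw [Function.onFun, Set.disjoint_left]
  intro f hf hf'
  exact hab (hf.symm.trans hf')

end AuxDich

open AuxDich in
theorem pr_Dich (h : StLaw) : StDich := by
  classical
  intro α _ _ μ _ T F u v hC p s hs
  have hqF := measurable_qq hC
  have hq := hC.fac.meas hqF
  have hρ : IsProbabilityMeasure ((μ.prod μ).map (qq T u v)) :=
    Measure.isProbabilityMeasure_map hq.aemeasurable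
  obtain ⟨h1, -, -⟩ := h α μ T F hC.fac (ℕ → Circle) (qq T u v) hqF
  set ρ := (μ.prod μ).map (qq T u v) with hρdef
  set d := μ {y | chr v (⇑T) p y = s} with hd
  have hN : ((variants p).card : ℝ≥0∞) ≠ 0 := by
    rw [Nat.cast_ne_zero]
    exact (Finset.card_pos.2 ⟨p, self_mem_variants p⟩).ne'
  have hN' : ((variants p).card : ℝ≥0∞) ≠ ∞ := ENNReal.natCast_ne_top _
  set c := d / ((variants p).card : ℝ≥0∞) with hcdef
  have hc : c ≠ 0 := by
    rw [hcdef]
    exact (ENNReal.div_pos hs hN').ne'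
  have hfin : (⋃ k ∈ variants p, {τ : Circle | c ≤ ρ {f | mon f k = τ}}).Finite :=
    Set.Finite.biUnion (variants p).finite_toSet fun k _ => finite_big ρ k hc
  refine ⟨(hfin.image (fun τ => τ * s)).toFinset, ?_⟩
  filter_upwards [h1] with x hx
  rw [Set.Finite.mem_toFinset]
  refine ⟨chr u (⇑T) p x * s⁻¹, ?_, by simp⟩
  by_contra hcon
  simp only [Set.mem_iUnion, exists_prop, not_exists, not_and] at hcon
  have hlt : ∀ k ∈ variants p, ρ {f | mon f k = chr u (⇑T) p x * s⁻¹} < c := by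
    intro k hk
    have := hcon k hk
    exact not_le.1 this
  have hle : d ≤ ∑ k ∈ variants p, ρ {f | mon f k = chr u (⇑T) p x * s⁻¹} := by
    have hsub : {y | chr v (⇑T) p y = s} ⊆
        ⋃ k ∈ variants p, {y | mon (qq T u v (x, y)) k = chr u (⇑T) p x * s⁻¹} := by
      intro y hy
      obtain ⟨k, hk, hk'⟩ := exists_variant (T := T) (u := u) (v := v) p (x, y)
      rw [chr_zz] at hk'
      have hy' : chr v (⇑T) p y = s := hy
      simp only [Set.mem_iUnion, exists_prop]
      refine ⟨k, hk, ?_⟩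
      show mon (qq T u v (x, y)) k = chr u (⇑T) p x * s⁻¹
      rw [← hk']
      show chr u (⇑T) p x * (chr v (⇑T) p y)⁻¹ = _
      rw [hy']
    calc d ≤ μ (⋃ k ∈ variants p, {y | mon (qq T u v (x, y)) k = chr u (⇑T) p x * s⁻¹}) :=
          measure_mono hsub
      _ ≤ ∑ k ∈ variants p, μ {y | mon (qq T u v (x, y)) k = chr u (⇑T) p x * s⁻¹} :=
          measure_biUnion_finset_le _ _
      _ = ∑ k ∈ variants p, ρ {f | mon f k = chr u (⇑T) p x * s⁻¹} := by
          refine Finset.sum_congr rfl fun k _ => ?_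
          rw [← hx]
          exact (Measure.map_apply (hq.comp measurable_prodMk_left)
            (measurableSet_mon k _)).symm
  have hlt2 : ∑ k ∈ variants p, ρ {f | mon f k = chr u (⇑T) p x * s⁻¹} <
      ∑ _k ∈ variants p, c :=
    ENNReal.sum_lt_sum_of_nonempty ⟨p, self_mem_variants p⟩ hlt
  rw [Finset.sum_const, nsmul_eq_mul, hcdef, ENNReal.mul_div_cancel hN hN'] at hlt2
  exact absurd hle (not_le.2 hlt2)

end Pool.Agent.Work.MP_fa3ce5_an.R2

end

section

set_option autoImplicit false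

namespace Pool.Agent.Work.MP_fa3ce5_an.R2

open MeasureTheory ProbabilityTheory Polynomial

namespace AuxEig

/-- the Fourier sums of `w` along the first `m` iterates -/
noncomputable def G {α : Type} (T : α → α) (w : α → Circle) (m : ℕ) (l : Circle) (x : α) : ℂ :=
  ∑ i ∈ Finset.range m, ((l⁻¹ : Circle) : ℂ) ^ i * ((w (T^[i] x) : Circle) : ℂ)

theorem measurable_coe : Measurable (fun z : Circle => (z : ℂ)) := by
  have : Continuous (fun z : Circle => (z : ℂ)) := by fun_prop
  exact this.measurable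

theorem measurable_G {α : Type} [MeasurableSpace α] (T : α → α) (hT : Measurable T)
    (w : α → Circle) (hw : Measurable w) (m : ℕ) (l : Circle) : Measurable (G T w m l) := by
  unfold G
  refine Finset.measurable_sum _ fun i _ => ?_
  exact (measurable_coe.comp (hw.comp (hT.iterate i))).const_mul _

theorem G_shift {α : Type} (T : α → α) (w : α → Circle) (m : ℕ) (l c : Circle)
    (hl : l ^ m = c) (x : α) (hx : w (T^[m] x) = c * w x) :
    G T w m l (T x) = l * G T w m l x := by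
  have h1 : (l : ℂ) * ((l⁻¹ : Circle) : ℂ) = 1 := by
    rw [Circle.coe_inv]
    exact mul_inv_cancel₀ (Circle.coe_ne_zero l)
  have h2 : ((l⁻¹ : Circle) : ℂ) ^ m * (c : ℂ) = 1 := by
    rw [← hl, Circle.coe_pow, ← mul_pow, mul_comm, h1, one_pow]
  have h3 : ∑ i ∈ Finset.range m, ((l⁻¹ : Circle) : ℂ) ^ (i + 1) *
      ((w (T^[i + 1] x) : Circle) : ℂ) = G T w m l x := by
    have h4 := Finset.sum_range_succ' (fun i => ((l⁻¹ : Circle) : ℂ) ^ i *
      ((w (T^[i] x) : Circle) : ℂ)) m
    rw [Finset.sum_range_succ] at h4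
    rw [hx, Circle.coe_mul, ← mul_assoc, h2, pow_zero] at h4
    simp only [Function.iterate_zero, id_eq] at h4
    exact (add_right_cancel h4).symm
  rw [← h3, Finset.mul_sum]
  unfold G
  refine Finset.sum_congr rfl fun i _ => ?_
  rw [pow_succ, Function.iterate_succ_apply]
  linear_combination (-(((l⁻¹ : Circle) : ℂ) ^ i * ((w (T^[i] (T x)) : Circle) : ℂ))) * h1

theorem G_const {α : Type} [MeasurableSpace α] (μ : Measure α) [IsProbabilityMeasure μ]
    (T : α ≃ᵐ α) (hT : MeasurePreserving (⇑T) μ μ)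
    (hE : Ergodic (Prod.map ⇑T ⇑T) (μ.prod μ)) (w : α → Circle) (hw : Measurable w) (m : ℕ)
    (l c : Circle) (hl : l ^ m = c) (hc : ∀ᵐ x ∂μ, w ((⇑T)^[m] x) = c * w x) :
    ∃ C : ℂ, ∀ᵐ x ∂μ, G T w m l x = C := by
  have hm := measurable_G T T.measurable w hw m l
  have hH : Measurable (fun p : α × α => G T w m l p.1 * (starRingEnd ℂ) (G T w m l p.2)) :=
    (hm.comp measurable_fst).mul
      (Complex.continuous_conj.measurable.comp (hm.comp measurable_snd))
  have h1 : ∀ᵐ p ∂(μ.prod μ), w ((⇑T)^[m] p.1) = c * w p.1 :=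
    Measure.quasiMeasurePreserving_fst.ae hc
  have h2 : ∀ᵐ p ∂(μ.prod μ), w ((⇑T)^[m] p.2) = c * w p.2 :=
    Measure.quasiMeasurePreserving_snd.ae hc
  have hinv : (fun p : α × α => G T w m l p.1 * (starRingEnd ℂ) (G T w m l p.2)) ∘
      (Prod.map ⇑T ⇑T) =ᵐ[μ.prod μ]
      (fun p : α × α => G T w m l p.1 * (starRingEnd ℂ) (G T w m l p.2)) := by
    filter_upwards [h1, h2] with p hp1 hp2
    simp only [Function.comp_apply, Prod.map_fst, Prod.map_snd]
    rw [G_shift T w m l c hl p.1 hp1, G_shift T w m l c hl p.2 hp2, map_mul]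
    have h3 : (l : ℂ) * (starRingEnd ℂ) (l : ℂ) = 1 := by
      rw [Complex.mul_conj, Circle.normSq_coe, Complex.ofReal_one]
    linear_combination (G T w m l p.1 * (starRingEnd ℂ) (G T w m l p.2)) * h3
  obtain ⟨C, hC⟩ := hE.ae_eq_const_of_ae_eq_comp_ae hH.aestronglyMeasurable hinv
  have hC' : ∀ᵐ p ∂(μ.prod μ), G T w m l p.1 * (starRingEnd ℂ) (G T w m l p.2) = C := by
    filter_upwards [hC] with p hp
    exact hp
  -- exchange the coordinates
  have hsw : ∀ᵐ p ∂(μ.prod μ), G T w m l p.2 * (starRingEnd ℂ) (G T w m l p.1) = C :=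
    (Measure.measurePreserving_swap (μ := μ) (ν := μ)).quasiMeasurePreserving.ae hC'
  have hF := Measure.ae_ae_of_ae_prod hsw
  by_cases h0 : ∀ᵐ x ∂μ, G T w m l x = 0
  · exact ⟨0, h0⟩
  · have hex : ∃ x, G T w m l x ≠ 0 ∧ ∀ᵐ y ∂μ,
        G T w m l y * (starRingEnd ℂ) (G T w m l x) = C := by
      by_contra hcon
      apply h0
      filter_upwards [hF] with x hx
      by_contra hne
      exact hcon ⟨x, hne, hx⟩
    obtain ⟨x, hx0, hx⟩ := hex
    refine ⟨C / (starRingEnd ℂ) (G T w m l x), ?_⟩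
    filter_upwards [hx] with y hy
    rw [eq_div_iff ((_root_.map_ne_zero _).2 hx0)]
    exact hy

theorem sum_G {α : Type} (T : α → α) (w : α → Circle) (m : ℕ) (hm : 1 ≤ m) (l ζ : Circle)
    (hζ : IsPrimitiveRoot (ζ : ℂ) m) (x : α) :
    ∑ r ∈ Finset.range m, G T w m (l * ζ ^ r) x = m * ((w x : Circle) : ℂ) := by
  unfold G
  rw [Finset.sum_comm]
  rw [Finset.sum_eq_single 0]
  · simp
  · intro i hi hi0
    rw [← Finset.sum_mul]
    have h1 : ∑ r ∈ Finset.range m, (((l * ζ ^ r)⁻¹ : Circle) : ℂ) ^ i =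
        ((l⁻¹ : Circle) : ℂ) ^ i * ∑ r ∈ Finset.range m, (((ζ : ℂ)⁻¹) ^ i) ^ r := by
      rw [Finset.mul_sum]
      refine Finset.sum_congr rfl fun r _ => ?_
      rw [mul_inv, Circle.coe_mul, mul_pow, Circle.coe_inv (ζ ^ r), Circle.coe_pow, ← inv_pow,
        ← pow_mul, ← pow_mul, mul_comm r i]
    have h2 : ∑ r ∈ Finset.range m, (((ζ : ℂ)⁻¹) ^ i) ^ r = 0 := by
      have hp : IsPrimitiveRoot ((ζ : ℂ)⁻¹) m := hζ.inv
      have h3 : ((ζ : ℂ)⁻¹) ^ i ≠ 1 := by
        apply hp.pow_ne_one_of_pos_of_lt hi0 (Finset.mem_range.1 hi)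
      have h4 := mul_neg_geom_sum (((ζ : ℂ)⁻¹) ^ i) m
      rw [← pow_mul, mul_comm i m, pow_mul, hp.pow_eq_one, one_pow, sub_self] at h4
      rcases mul_eq_zero.1 h4 with h5 | h5
      · exact absurd (sub_eq_zero.1 h5).symm h3
      · exact h5
    rw [h1, h2, mul_zero, zero_mul]
  · intro h
    exact absurd (Finset.mem_range.2 (by omega)) h

end AuxEig

open AuxEig in
theorem pr_Eig : StEig := by
  intro α _ μ _ T hT hE w hw m hm c hc
  obtain ⟨l, hl⟩ : ∃ l : Circle, l ^ m = c := by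
    refine ⟨Circle.exp (Complex.arg c / m), ?_⟩
    rw [← Circle.exp_natCast_mul, mul_div_cancel₀ _ (by positivity), Circle.exp_arg]
  have hm0 : m ≠ 0 := by omega
  obtain ⟨ζ, hζ⟩ : ∃ ζ : Circle, IsPrimitiveRoot (ζ : ℂ) m := by
    refine ⟨Circle.exp (2 * Real.pi / m), ?_⟩
    have := Complex.isPrimitiveRoot_exp m hm0
    rw [Circle.coe_exp]
    convert this using 2
    push_cast
    ring
  have hζ1 : ζ ^ m = 1 := by
    apply Circle.ext
    rw [Circle.coe_pow, hζ.pow_eq_one, Circle.coe_one]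
  have hr : ∀ r : ℕ, (l * ζ ^ r) ^ m = c := by
    intro r
    rw [mul_pow, hl, ← pow_mul, mul_comm r m, pow_mul, hζ1, one_pow, mul_one]
  choose C hC using fun r : ℕ => G_const μ T hT hE w hw m (l * ζ ^ r) c (hr r) hc
  have hall : ∀ᵐ x ∂μ, ∀ r : ℕ, G T w m (l * ζ ^ r) x = C r := ae_all_iff.2 hC
  have hW : ∀ᵐ x ∂μ, ((w x : Circle) : ℂ) = (∑ r ∈ Finset.range m, C r) / m := by
    filter_upwards [hall] with x hx
    rw [eq_div_iff (by exact_mod_cast hm0), mul_comm, ← sum_G T w m hm l ζ hζ x]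
    exact Finset.sum_congr rfl fun r _ => hx r
  obtain ⟨x₀, hx₀⟩ := hW.exists
  refine ⟨w x₀, ?_⟩
  filter_upwards [hW] with x hx
  exact Circle.ext (hx.trans hx₀.symm)

end Pool.Agent.Work.MP_fa3ce5_an.R2

end

section

set_option autoImplicit false

/-!
# Vanishing moments give positive entropy
-/

namespace Pool.Agent.Work.MP_fa3ce5_an.R2

open MeasureTheory ProbabilityTheory Polynomial

namespace AuxEnt

theorem cont_coe : Continuous fun z : Circle => (z : ℂ) := by fun_prop

/-! ### Three arcs -/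

/-- the centres of the arcs -/
noncomputable def cc : Fin 3 → ℂ := ![1, ⟨-1 / 2, √3 / 2⟩, ⟨-1 / 2, -(√3 / 2)⟩]

/-- the arc of a point -/
noncomputable def idx (z : Circle) : Fin 3 :=
  if 1 / 2 ≤ (z : ℂ).re then 0 else if 0 ≤ (z : ℂ).im then 1 else 2

theorem norm_cc (i : Fin 3) : ‖cc i‖ = 1 := by
  have h3 : √3 * √3 = 3 := Real.mul_self_sqrt (by norm_num)
  have h : ∀ c : ℂ, Complex.normSq c = 1 → ‖c‖ = 1 := by
    intro c hc
    rw [Complex.normSq_eq_norm_sq] at hc
    nlinarith [norm_nonneg c]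
  apply h
  fin_cases i
  · simp [cc]
  · simp only [cc, Fin.mk_one, Matrix.cons_val_one, Matrix.cons_val_zero, Complex.normSq_apply]
    nlinarith
  · change Complex.normSq (⟨-1 / 2, -(√3 / 2)⟩ : ℂ) = 1
    rw [Complex.normSq_apply]
    nlinarith

theorem abs_re_le (z : Circle) (i : Fin 3) :
    |((z : ℂ) * (starRingEnd ℂ) (cc i)).re| ≤ 1 := by
  refine (Complex.abs_re_le_norm _).trans ?_
  rw [norm_mul, Complex.norm_conj, norm_cc, Circle.norm_coe, one_mul]

theorem arc (z : Circle) : 1 / 2 ≤ ((z : ℂ) * (starRingEnd ℂ) (cc (idx z))).re := by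
  have h3 : √3 * √3 = 3 := Real.mul_self_sqrt (by norm_num)
  have h30 : 0 ≤ √3 := Real.sqrt_nonneg 3
  have hz := circle_sq z
  have key : ∀ x y : ℝ, x ^ 2 + y ^ 2 = 1 → x < 1 / 2 → 0 ≤ y → 1 / 2 ≤ x * (-1 / 2) + y * (√3 / 2) := by
    intro x y h1 h2 h4
    have h5 : -1 ≤ x := by nlinarith [sq_nonneg y]
    have h6 : (1 + x) ^ 2 ≤ (√3 * y) ^ 2 := by
      have : (√3 * y) ^ 2 = 3 * (1 - x ^ 2) := by
        rw [mul_pow, pow_two (√3), h3]
        linarith
      rw [this]
      nlinarith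
    have h7 : 1 + x ≤ √3 * y := by
      apply le_of_sq_le_sq _ (mul_nonneg h30 h4)
      exact h6
    nlinarith
  unfold idx
  split_ifs with h1 h2
  · simpa [cc] using h1
  · push Not at h1
    have := key (z : ℂ).re (z : ℂ).im hz h1 h2
    simp only [cc, Matrix.cons_val_one, Matrix.cons_val_zero, Complex.mul_re, Complex.conj_re,
      Complex.conj_im]
    linarith
  · push Not at h1 h2
    have := key (z : ℂ).re (-(z : ℂ).im) (by rw [neg_sq]; exact hz) h1 (by linarith)
    change 1 / 2 ≤ ((z : ℂ) * (starRingEnd ℂ) (⟨-1 / 2, -(√3 / 2)⟩ : ℂ)).re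
    simp only [Complex.mul_re, Complex.conj_re, Complex.conj_im]
    linarith

theorem measurable_idx : Measurable idx := by
  unfold idx
  have hre : Measurable fun z : Circle => (z : ℂ).re :=
    (Complex.continuous_re.comp cont_coe).measurable
  have him : Measurable fun z : Circle => (z : ℂ).im :=
    (Complex.continuous_im.comp cont_coe).measurable
  refine Measurable.ite (measurableSet_le measurable_const hre) measurable_const ?_
  exact Measurable.ite (measurableSet_le measurable_const him) measurable_const measurable_const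

/-! ### The moments -/

/-- one factor of the product -/
noncomputable def gf (c : ℂ) (z : Circle) : ℂ :=
  1 + ((z : ℂ) * (starRingEnd ℂ) c + ((z⁻¹ : Circle) : ℂ) * c) / 2

theorem gf_eq (c : ℂ) (z : Circle) :
    gf c z = ((1 + ((z : ℂ) * (starRingEnd ℂ) c).re : ℝ) : ℂ) := by
  unfold gf
  rw [Circle.coe_inv_eq_conj]
  have h : (starRingEnd ℂ) (z : ℂ) * c = (starRingEnd ℂ) ((z : ℂ) * (starRingEnd ℂ) c) := by
    rw [map_mul, Complex.conj_conj]
  rw [h, Complex.add_conj]
  push_cast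
  ring

theorem measurable_gf (c : ℂ) : Measurable (gf c) := by
  unfold gf
  have h1 : Measurable fun z : Circle => (z : ℂ) := cont_coe.measurable
  have h2 : Measurable fun z : Circle => ((z⁻¹ : Circle) : ℂ) :=
    (cont_coe.comp continuous_inv).measurable
  exact measurable_const.add (((h1.mul_const _).add (h2.mul_const _)).div_const _)

theorem norm_gf (c : ℂ) (z : Circle) : ‖gf c z‖ ≤ 1 + ‖c‖ := by
  unfold gf
  refine (norm_add_le _ _).trans ?_
  rw [norm_one, norm_div]
  have h1 : ‖(z : ℂ) * (starRingEnd ℂ) c + ((z⁻¹ : Circle) : ℂ) * c‖ ≤ ‖c‖ + ‖c‖ := by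
    refine (norm_add_le _ _).trans ?_
    rw [norm_mul, norm_mul, Complex.norm_conj, Circle.norm_coe, Circle.norm_coe, one_mul]
  have h2 : ‖(2 : ℂ)‖ = 2 := by simp
  rw [h2]
  linarith

variable {α : Type} [MeasurableSpace α] {μ : Measure α} [IsProbabilityMeasure μ]

theorem integrable_gf {w : α → Circle} (hw : Measurable w) {S : α → α} (hS : Measurable S)
    (c : ℕ → ℂ) (q : ℕ) (k : ℤ[X]) :
    Integrable (fun x => (∏ l ∈ Finset.range q, gf (c l) (w (S^[l] x))) *
      ((chr w S k x : Circle) : ℂ)) μ := by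
  refine Integrable.of_bound (C := ∏ l ∈ Finset.range q, (1 + ‖c l‖)) ?_ ?_
  · apply Measurable.aestronglyMeasurable
    refine Measurable.mul ?_ ?_
    · exact Finset.measurable_prod _ fun l _ =>
        (measurable_gf (c l)).comp (hw.comp (hS.iterate l))
    · exact cont_coe.measurable.comp (measurable_chr w S hw hS k)
  · refine Filter.Eventually.of_forall fun x => ?_
    rw [norm_mul, Circle.norm_coe, mul_one, norm_prod]
    exact Finset.prod_le_prod (fun l _ => norm_nonneg _) fun l _ => norm_gf _ _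

theorem chr_X_pow (w : α → Circle) (S : α → α) (q : ℕ) (x : α) :
    chr w S (X ^ q) x = w (S^[q] x) := by
  have := chr_X_pow_mul w S q 1 x
  rwa [mul_one, chr_one] at this

omit [IsProbabilityMeasure μ] in
theorem int3 {f g h : α → ℂ} (hf : Integrable f μ) (hg : Integrable g μ)
    (hh : Integrable h μ) : ∫ x, (f x + (g x + h x)) ∂μ =
      ∫ x, f x ∂μ + (∫ x, g x ∂μ + ∫ x, h x ∂μ) := by
  rw [← integral_add hg hh]
  exact integral_add hf (hg.add hh)

theorem moments {w : α → Circle} (hw : Measurable w) {S : α → α} (hS : Measurable S)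
    (h : ∀ k : ℤ[X], k ≠ 0 → Sm k → ∫ x, ((chr w S k x : Circle) : ℂ) ∂μ = 0)
    (c : ℕ → ℂ) (q : ℕ) : ∀ k : ℤ[X], Sm k → (∀ l < q, k.coeff l = 0) →
    ∫ x, (∏ l ∈ Finset.range q, gf (c l) (w (S^[l] x))) *
      ((chr w S k x : Circle) : ℂ) ∂μ = if k = 0 then 1 else 0 := by
  induction q with
  | zero =>
    intro k hk _
    simp only [Finset.range_zero, Finset.prod_empty, one_mul]
    split_ifs with h0
    · subst h0
      simp
    · exact h k h0 hk
  | succ q ih =>
    intro k hk hl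
    have hkq : k.coeff q = 0 := hl q (Nat.lt_succ_self q)
    have hl' : ∀ l < q, k.coeff l = 0 := fun l h => hl l (Nat.lt_succ_of_lt h)
    have hp : ∀ i, (k + X ^ q).coeff i = if i = q then 1 else k.coeff i := by
      intro i
      rw [coeff_add, coeff_X_pow]
      split_ifs with h1
      · rw [h1, hkq, zero_add]
      · rw [add_zero]
    have hm : ∀ i, (k - X ^ q).coeff i = if i = q then -1 else k.coeff i := by
      intro i
      rw [coeff_sub, coeff_X_pow]
      split_ifs with h1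
      · rw [h1, hkq, zero_sub]
      · rw [sub_zero]
    have i1 := ih k hk hl'
    have i2 := ih (k + X ^ q) (fun i => by
      rw [hp]
      split_ifs
      · exact Or.inr (Or.inr rfl)
      · exact hk i) (fun l h => by rw [hp, if_neg h.ne, hl' l h])
    have i3 := ih (k - X ^ q) (fun i => by
      rw [hm]
      split_ifs
      · exact Or.inl rfl
      · exact hk i) (fun l h => by rw [hm, if_neg h.ne, hl' l h])
    have hp0 : k + X ^ q ≠ 0 := by
      intro h0
      have := hp q
      rw [h0, if_pos rfl, coeff_zero] at this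
      exact absurd this (by norm_num)
    have hm0 : k - X ^ q ≠ 0 := by
      intro h0
      have := hm q
      rw [h0, if_pos rfl, coeff_zero] at this
      exact absurd this (by norm_num)
    rw [if_neg hp0] at i2
    rw [if_neg hm0] at i3
    have e : ∀ x, (∏ l ∈ Finset.range (q + 1), gf (c l) (w (S^[l] x))) *
        ((chr w S k x : Circle) : ℂ) =
        (∏ l ∈ Finset.range q, gf (c l) (w (S^[l] x))) * ((chr w S k x : Circle) : ℂ) +
        ((starRingEnd ℂ) (c q) / 2 * ((∏ l ∈ Finset.range q, gf (c l) (w (S^[l] x))) *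
          ((chr w S (k + X ^ q) x : Circle) : ℂ)) +
        c q / 2 * ((∏ l ∈ Finset.range q, gf (c l) (w (S^[l] x))) *
          ((chr w S (k - X ^ q) x : Circle) : ℂ))) := by
      intro x
      rw [Finset.prod_range_succ, chr_add, chr_sub, chr_X_pow, Circle.coe_mul, Circle.coe_mul]
      unfold gf
      ring
    simp only [e]
    have j1 := integrable_gf (μ := μ) hw hS c q k
    have j2 := (integrable_gf (μ := μ) hw hS c q (k + X ^ q)).const_mul
      ((starRingEnd ℂ) (c q) / 2)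
    have j3 := (integrable_gf (μ := μ) hw hS c q (k - X ^ q)).const_mul (c q / 2)
    refine (int3 j1 j2 j3).trans ?_
    rw [integral_const_mul, integral_const_mul, i1, i2, i3, mul_zero, mul_zero, add_zero,
      add_zero]

/-- the real form -/
theorem moment_real {w : α → Circle} (hw : Measurable w) {S : α → α} (hS : Measurable S)
    (h : ∀ k : ℤ[X], k ≠ 0 → Sm k → ∫ x, ((chr w S k x : Circle) : ℂ) ∂μ = 0)
    (c : ℕ → ℂ) (q : ℕ) :
    Integrable (fun x => ∏ l ∈ Finset.range q,
      (1 + ((w (S^[l] x) : ℂ) * (starRingEnd ℂ) (c l)).re)) μ ∧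
    ∫ x, ∏ l ∈ Finset.range q, (1 + ((w (S^[l] x) : ℂ) * (starRingEnd ℂ) (c l)).re) ∂μ = 1 := by
  obtain ⟨P, hP⟩ : ∃ P : α → ℝ, P = fun x => ∏ l ∈ Finset.range q,
      (1 + ((w (S^[l] x) : ℂ) * (starRingEnd ℂ) (c l)).re) := ⟨_, rfl⟩
  have e : ∀ x, (∏ l ∈ Finset.range q, gf (c l) (w (S^[l] x))) *
      ((chr w S 0 x : Circle) : ℂ) = ((P x : ℝ) : ℂ) := by
    intro x
    rw [chr_zero, Circle.coe_one, mul_one, hP, Complex.ofReal_prod]
    exact Finset.prod_congr rfl fun l _ => gf_eq _ _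
  rw [← hP]
  constructor
  · have := integrable_gf (μ := μ) hw hS c q 0
    simp only [e] at this
    have h2 := this.re
    simpa using h2
  · have := moments (μ := μ) hw hS h c q 0 (fun i => Or.inr (Or.inl (coeff_zero i)))
      (fun l _ => coeff_zero l)
    rw [if_pos rfl] at this
    simp only [e] at this
    rw [integral_complex_ofReal] at this
    exact_mod_cast this

/-- the measure of a set on which all factors are large -/
theorem small {w : α → Circle} (hw : Measurable w) {S : α → α} (hS : Measurable S)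
    (h : ∀ k : ℤ[X], k ≠ 0 → Sm k → ∫ x, ((chr w S k x : Circle) : ℂ) ∂μ = 0)
    (v : ℕ → Fin 3) (q : ℕ) :
    (μ {x | ∀ l < q, idx (w (S^[l] x)) = v l}).toReal ≤ (2 / 3) ^ q := by
  obtain ⟨h1, h2⟩ := moment_real (μ := μ) hw hS h (fun l => cc (v l)) q
  have hm : MeasurableSet {x | ∀ l < q, idx (w (S^[l] x)) = v l} := by
    have : {x | ∀ l < q, idx (w (S^[l] x)) = v l} =
        ⋂ l ∈ Finset.range q, (fun x => idx (w (S^[l] x))) ⁻¹' {v l} := by
      ext x
      simp
    rw [this]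
    exact Finset.measurableSet_biInter _ fun l _ =>
      (measurable_idx.comp (hw.comp (hS.iterate l))) (measurableSet_singleton _)
  have h3 : (μ {x | ∀ l < q, idx (w (S^[l] x)) = v l}).toReal =
      ∫ x, Set.indicator {x | ∀ l < q, idx (w (S^[l] x)) = v l} (fun _ => (1 : ℝ)) x ∂μ := by
    rw [integral_indicator hm, setIntegral_const, smul_eq_mul, mul_one]
    rfl
  have h4 : ∀ x, 0 ≤ ∏ l ∈ Finset.range q,
      (1 + ((w (S^[l] x) : ℂ) * (starRingEnd ℂ) (cc (v l))).re) := by
    intro x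
    refine Finset.prod_nonneg fun l _ => ?_
    have := (abs_le.1 (abs_re_le (w (S^[l] x)) (v l))).1
    linarith
  rw [h3]
  calc ∫ x, Set.indicator {x | ∀ l < q, idx (w (S^[l] x)) = v l} (fun _ => (1 : ℝ)) x ∂μ
      ≤ ∫ x, (2 / 3) ^ q * ∏ l ∈ Finset.range q,
        (1 + ((w (S^[l] x) : ℂ) * (starRingEnd ℂ) (cc (v l))).re) ∂μ := by
        refine integral_mono ?_ (h1.const_mul _) ?_
        · exact (integrable_const (1 : ℝ)).indicator hm
        · intro x
          by_cases hx : x ∈ {x | ∀ l < q, idx (w (S^[l] x)) = v l}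
          · simp only [Set.indicator_of_mem hx]
            have h5 : (3 / 2 : ℝ) ^ q ≤ ∏ l ∈ Finset.range q,
                (1 + ((w (S^[l] x) : ℂ) * (starRingEnd ℂ) (cc (v l))).re) := by
              rw [← Finset.card_range q, ← Finset.prod_const, Finset.card_range]
              refine Finset.prod_le_prod (fun _ _ => by norm_num) fun l hl => ?_
              have h6 := arc (w (S^[l] x))
              rw [hx l (Finset.mem_range.1 hl)] at h6
              linarith
            have h6 : (2 / 3 : ℝ) ^ q * (3 / 2) ^ q = 1 := by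
              rw [← mul_pow]
              norm_num
            calc (1 : ℝ) = (2 / 3 : ℝ) ^ q * (3 / 2) ^ q := h6.symm
              _ ≤ _ := mul_le_mul_of_nonneg_left h5 (by positivity)
          · rw [Set.indicator_of_notMem hx]
            exact mul_nonneg (by positivity) (h4 x)
    _ = (2 / 3) ^ q := by rw [integral_const_mul, h2, mul_one]

end AuxEnt

open AuxEnt in
theorem pr_Ent : StEnt := by
  intro α _ μ _ T hT w hw N hN h
  have hTm : Measurable (⇑T) := T.measurable
  refine ⟨3, fun x => idx (w x), measurable_idx.comp hw, Real.log (3 / 2) / N, ?_, ?_⟩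
  · have : 0 < Real.log (3 / 2) := Real.log_pos (by norm_num)
    positivity
  intro n
  have hlog : 0 < Real.log (3 / 2) := Real.log_pos (by norm_num)
  -- number of blocks
  obtain ⟨q, hq1, hq2⟩ : ∃ q : ℕ, (∀ l < q, N * l < n) ∧ n ≤ N * q := by
    refine ⟨(n + N - 1) / N, ?_, ?_⟩
    · intro l hl
      have h1 : l + 1 ≤ (n + N - 1) / N := hl
      rw [Nat.le_div_iff_mul_le (by omega)] at h1
      have h2 : (l + 1) * N = N * l + N := by ring
      omega
    · have h1 := Nat.div_add_mod (n + N - 1) N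
      have h2 := Nat.mod_lt (n + N - 1) (show 0 < N by omega)
      omega
  have hq3 : (n : ℝ) ≤ N * q := by exact_mod_cast hq2
  have hN0 : (0 : ℝ) < N := by exact_mod_cast hN
  set C : (Fin n → Fin 3) → Set α :=
    fun v => {x | ∀ i : Fin n, idx (w ((⇑T)^[(i : ℕ)] x)) = v i} with hC
  have hsmall : ∀ v, (μ (C v)).toReal ≤ (2 / 3) ^ q := by
    intro v
    have h1 := small (μ := μ) hw (hTm.iterate N) h
      (fun l => if hl : N * l < n then v ⟨N * l, hl⟩ else 0) q
    refine le_trans ?_ h1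
    refine ENNReal.toReal_mono (measure_ne_top _ _) (measure_mono ?_)
    intro x hx l hl
    have h2 := hq1 l hl
    rw [dif_pos h2, ← Function.iterate_mul]
    exact hx ⟨N * l, h2⟩
  have hsum : ∑ v, (μ (C v)).toReal = 1 := by
    have hφ : Measurable fun x => fun i : Fin n => idx (w ((⇑T)^[(i : ℕ)] x)) :=
      measurable_pi_lambda _ fun i => measurable_idx.comp (hw.comp (hTm.iterate i))
    have h1 := sum_measure_preimage_singleton (μ := μ) (Finset.univ : Finset (Fin n → Fin 3))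
      (f := fun x => fun i : Fin n => idx (w ((⇑T)^[(i : ℕ)] x)))
      (fun y _ => hφ (measurableSet_singleton y))
    have h2 : ∀ v, C v = (fun x => fun i : Fin n => idx (w ((⇑T)^[(i : ℕ)] x))) ⁻¹' {v} := by
      intro v
      ext x
      simp only [hC, Set.mem_ofPred_eq, Set.mem_preimage, Set.mem_singleton_iff]
      exact ⟨fun h => funext h, fun h i => congrFun h i⟩
    rw [← ENNReal.toReal_sum (fun v _ => measure_ne_top _ _)]
    simp only [h2]
    rw [h1]
    simp
  have hterm : ∀ v, (q * Real.log (3 / 2)) * (μ (C v)).toReal ≤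
      Real.negMulLog ((μ (C v)).toReal) := by
    intro v
    rcases (ENNReal.toReal_nonneg (a := μ (C v))).eq_or_lt with h0 | h0
    · rw [← h0]
      simp
    · unfold Real.negMulLog
      have h1 : Real.log ((μ (C v)).toReal) ≤ Real.log ((2 / 3) ^ q) :=
        Real.log_le_log h0 (hsmall v)
      have h2 : Real.log ((2 / 3 : ℝ) ^ q) = -(q * Real.log (3 / 2)) := by
        rw [Real.log_pow, show (2 / 3 : ℝ) = (3 / 2)⁻¹ by norm_num, Real.log_inv]
        ring
      rw [h2] at h1
      nlinarith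
  calc Real.log (3 / 2) / N * n ≤ q * Real.log (3 / 2) := by
        rw [div_mul_eq_mul_div, div_le_iff₀ hN0]
        nlinarith
    _ = ∑ v, (q * Real.log (3 / 2)) * (μ (C v)).toReal := by
        rw [← Finset.mul_sum, hsum, mul_one]
    _ ≤ ∑ v, Real.negMulLog ((μ (C v)).toReal) := Finset.sum_le_sum fun v _ => hterm v

end Pool.Agent.Work.MP_fa3ce5_an.R2

end

section

set_option autoImplicit false

namespace Pool.Agent.Work.MP_fa3ce5_an.R2

open MeasureTheory ProbabilityTheory Polynomial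

namespace AuxExp

theorem integral_eq {α β : Type} [MeasurableSpace α] [MeasurableSpace β] (μ : Measure α)
    (ν : Measure β) {g : α → ℝ} {G : β → ℝ} (hg : Measurable g) (hG : Measurable G)
    (h : μ.map g = ν.map G) : ∫ y, g y ∂μ = ∫ p, G p ∂ν := by
  have h1 : ∫ y, g y ∂μ = ∫ t, t ∂(μ.map g) :=
    (integral_map hg.aemeasurable measurable_id.aestronglyMeasurable).symm
  have h2 : ∫ p, G p ∂ν = ∫ t, t ∂(ν.map G) :=
    (integral_map hG.aemeasurable measurable_id.aestronglyMeasurable).symm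
  rw [h1, h2, h]

end AuxExp

theorem pr_Exp (h : StLaw) : StExp := by
  intro α _ _ μ _ T F hF G hG
  have hG' := hF.meas hG
  obtain ⟨h1, h2, -⟩ := h α μ T F hF ℝ G hG
  constructor
  · filter_upwards [h1] with x hx
    exact AuxExp.integral_eq _ _ (hG'.comp measurable_prodMk_left) hG' hx
  · filter_upwards [h2] with y hy
    exact AuxExp.integral_eq _ _ (hG'.comp measurable_prodMk_right) hG' hy

end Pool.Agent.Work.MP_fa3ce5_an.R2

end

section

set_option autoImplicit false

/-!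
# LAST: the ideal of the constant characters (MP_fa3ce5_an, block R2)
-/

namespace Pool.Agent.Work.MP_fa3ce5_an.R2

open MeasureTheory ProbabilityTheory Polynomial

namespace AuxLast

theorem expand_X_pow_mul (j i : ℕ) (k : ℤ[X]) :
    expand ℤ j (X ^ i * k) = X ^ (j * i) * expand ℤ j k := by
  rw [map_mul, map_pow, expand_X, ← pow_mul]

theorem expand_C_mul' (j : ℕ) (a : ℤ) (k : ℤ[X]) :
    expand ℤ j (C a * k) = C a * expand ℤ j k := by
  rw [map_mul, expand_C]

theorem monomial_mul_eq (i : ℕ) (a : ℤ) (k : ℤ[X]) :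
    monomial i a * k = C a * (X ^ i * k) := by
  rw [← mul_assoc, C_mul_X_pow_eq_monomial]

section

variable {α : Type} (u : α → Circle) (T : α → α) (j : ℕ)

theorem chr_exp_X_pow_mul (i : ℕ) (k : ℤ[X]) (x : α) :
    chr u T (expand ℤ j (X ^ i * k)) x = chr u T (expand ℤ j k) (T^[j * i] x) := by
  rw [expand_X_pow_mul, chr_X_pow_mul]

theorem chr_exp_C_mul (a : ℤ) (k : ℤ[X]) (x : α) :
    chr u T (expand ℤ j (C a * k)) x = chr u T (expand ℤ j k) x ^ a := by
  rw [expand_C_mul', chr_C_mul]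

/-- the characters of a character -/
theorem chr_chr (k₀ : ℤ[X]) (m : ℕ) (n : ℤ[X]) (x : α) :
    chr (chr u T (expand ℤ j k₀)) (T^[j * m]) n x =
      chr u T (expand ℤ j (expand ℤ m n * k₀)) x := by
  induction n using Polynomial.induction_on' with
  | add p q hp hq => rw [chr_add, hp, hq, map_add, add_mul, map_add, chr_add]
  | monomial i a =>
    rw [expand_monomial, monomial_mul_eq, chr_exp_C_mul, chr_exp_X_pow_mul]
    have h : chr (chr u T (expand ℤ j k₀)) (T^[j * m]) (monomial i a) x =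
        chr u T (expand ℤ j k₀) ((T^[j * m])^[i] x) ^ a := mon_monomial _ _ _
    rw [h, ← Function.iterate_mul]
    congr 3
    ring

end

section

variable {α : Type} [MeasurableSpace α] (μ : Measure α) (T : α → α) (u : α → Circle) (j : ℕ)

/-- constant characters -/
def Cst (k : ℤ[X]) : Prop := ∃ c : Circle, ∀ᵐ x ∂μ, chr u T (expand ℤ j k) x = c

variable {μ T u j}

theorem Cst.zero : Cst μ T u j 0 := ⟨1, Filter.Eventually.of_forall fun x => by
  rw [map_zero, chr_zero]⟩

theorem Cst.add {k l : ℤ[X]} (hk : Cst μ T u j k) (hl : Cst μ T u j l) :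
    Cst μ T u j (k + l) := by
  obtain ⟨c, hc⟩ := hk
  obtain ⟨d, hd⟩ := hl
  refine ⟨c * d, ?_⟩
  filter_upwards [hc, hd] with x h1 h2
  rw [map_add, chr_add, h1, h2]

theorem Cst.monomial (hT : MeasurePreserving T μ μ) {k : ℤ[X]} (hk : Cst μ T u j k) (i : ℕ)
    (a : ℤ) : Cst μ T u j (monomial i a * k) := by
  obtain ⟨c, hc⟩ := hk
  refine ⟨c ^ a, ?_⟩
  filter_upwards [(hT.iterate (j * i)).quasiMeasurePreserving.ae hc] with x hx
  rw [monomial_mul_eq, chr_exp_C_mul, chr_exp_X_pow_mul, hx]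

theorem Cst.mul (hT : MeasurePreserving T μ μ) {k : ℤ[X]} (hk : Cst μ T u j k) (n : ℤ[X]) :
    Cst μ T u j (n * k) := by
  induction n using Polynomial.induction_on' with
  | add p q hp hq =>
    rw [add_mul]
    exact hp.add hq
  | monomial i a => exact hk.monomial hT i a

/-- the ideal of the constant characters -/
def LI (hT : MeasurePreserving T μ μ) (u : α → Circle) (j : ℕ) : Ideal ℤ[X] where
  carrier := {k | Cst μ T u j k}
  add_mem' := fun ha hb => Cst.add ha hb
  zero_mem' := Cst.zero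
  smul_mem' := fun n _ hk => Cst.mul hT hk n

theorem mem_LI (hT : MeasurePreserving T μ μ) (k : ℤ[X]) : k ∈ LI hT u j ↔ Cst μ T u j k :=
  Iff.rfl

theorem FV.const {w : α → Circle} {c : Circle} (h : ∀ᵐ x ∂μ, w x = c) : FV μ w := by
  refine ⟨{c}, ?_⟩
  filter_upwards [h] with x hx
  rw [Finset.mem_singleton]
  exact hx

end

end AuxLast

open AuxLast in
theorem pr_Last (h1 : StAlg) (h2 : StEnt) (h3 : StEig) : StLast := by
  intro α _ μ _ T hT hE u hu hnu j hj hc hz
  have hmeas : ∀ k : ℤ[X], Measurable (chr u (⇑T) k) := fun k =>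
    measurable_chr u (⇑T) hu T.measurable k
  obtain ⟨k₀, m, hm, hk₀⟩ := h1 (LI hT u j) (by
      intro h
      obtain ⟨c, hcc⟩ := h
      apply hnu
      apply FV.const (c := c)
      filter_upwards [hcc] with x hx
      rwa [map_one, chr_one] at hx)
    (by
      intro n k hn h
      obtain ⟨c, hcc⟩ := h
      apply hc
      apply FV.of_zpow hn
      apply FV.const (c := c)
      filter_upwards [hcc] with x hx
      rwa [chr_exp_C_mul] at hx)
    (by
      intro k h
      obtain ⟨c, hcc⟩ := h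
      apply hc
      apply FV.of_comp (hmeas _) (hT.iterate (j * 1))
      apply FV.const (c := c)
      filter_upwards [hcc] with x hx
      rw [← pow_one (X : ℤ[X]), chr_exp_X_pow_mul] at hx
      exact hx)
    (by
      intro n k hn h
      obtain ⟨c, hcc⟩ := h
      refine h3 α μ T hT hE _ (hmeas (expand ℤ j k)) (j * n) (Nat.mul_pos hj hn) c ?_
      filter_upwards [hcc] with x hx
      rw [sub_mul, one_mul, map_sub, chr_sub, chr_exp_X_pow_mul] at hx
      rw [← hx]
      group)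
  refine h2 α μ T hT (chr u (⇑T) (expand ℤ j k₀)) (hmeas _) (j * m) (Nat.mul_pos hj hm) ?_
  intro n hn hs
  have h4 : ∀ x, chr (chr u (⇑T) (expand ℤ j k₀)) ((⇑T)^[j * m]) n x =
      chr u (⇑T) (expand ℤ j (expand ℤ m n * k₀)) x := chr_chr u (⇑T) j k₀ m n
  simp only [h4]
  apply hz
  intro h5
  exact hk₀ n hn hs (hc _ h5)

end Pool.Agent.Work.MP_fa3ce5_an.R2

end

section

set_option autoImplicit false

namespace Pool.Agent.Work.MP_fa3ce5_an.R2

open MeasureTheory ProbabilityTheory Polynomial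

namespace AuxLaw

variable {α Q : Type} [MeasurableSpace α] [MeasurableSpace Q]

/-- the kernel of the sections -/
noncomputable def ker (μ : Measure α) [IsProbabilityMeasure μ] (q : α × α → Q)
    (hq : Measurable q) : Kernel α Q where
  toFun x := μ.map (fun y => q (x, y))
  measurable' := by
    refine Measure.measurable_of_measurable_coe _ fun B hB => ?_
    have : (fun x => (μ.map (fun y => q (x, y))) B) =
        fun x => μ (Prod.mk x ⁻¹' (q ⁻¹' B)) := by
      funext x
      exact Measure.map_apply (hq.comp measurable_prodMk_left) hB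
    rw [this]
    exact measurable_measure_prodMk_left (hq hB)

theorem ker_apply (μ : Measure α) [IsProbabilityMeasure μ] (q : α × α → Q)
    (hq : Measurable q) (x : α) : ker μ q hq x = μ.map (fun y => q (x, y)) := rfl

instance (μ : Measure α) [IsProbabilityMeasure μ] (q : α × α → Q)
    (hq : Measurable q) : IsMarkovKernel (ker μ q hq) :=
  ⟨fun x => by
    rw [ker_apply]
    exact Measure.isProbabilityMeasure_map (hq.comp measurable_prodMk_left).aemeasurable⟩

theorem compProd_ker (μ : Measure α) [IsProbabilityMeasure μ] (q : α × α → Q)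
    (hq : Measurable q) : μ ⊗ₘ ker μ q hq = (μ.prod μ).map (fun p => (p.1, q p)) := by
  have hm : Measurable (fun p : α × α => (p.1, q p)) := measurable_fst.prodMk hq
  ext s hs
  rw [Measure.compProd_apply hs, Measure.map_apply hm hs, Measure.prod_apply (hm hs)]
  refine lintegral_congr fun x => ?_
  rw [ker_apply]
  exact Measure.map_apply (hq.comp measurable_prodMk_left) (measurable_prodMk_left hs)

theorem ae_of_prod [MeasurableSpace.CountablyGenerated Q] (μ : Measure α)
    [IsProbabilityMeasure μ] (q : α × α → Q) (hq : Measurable q) (ρ : Measure Q)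
    [IsProbabilityMeasure ρ] (h : (μ.prod μ).map (fun p => (p.1, q p)) = μ.prod ρ) :
    ∀ᵐ x ∂μ, μ.map (fun y => q (x, y)) = ρ := by
  have h1 : μ ⊗ₘ ker μ q hq = μ ⊗ₘ Kernel.const α ρ := by
    rw [compProd_ker, Measure.compProd_const, h]
  filter_upwards [Kernel.ae_eq_of_compProd_eq h1] with x hx
  rw [ker_apply, Kernel.const_apply] at hx
  exact hx

end AuxLaw

open AuxLaw in
theorem pr_Law : StLaw := by
  intro α _ _ μ _ T F hF Q _ _ q hqF
  have hq : Measurable q := hF.meas hqF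
  have hρ : IsProbabilityMeasure ((μ.prod μ).map q) :=
    Measure.isProbabilityMeasure_map hq.aemeasurable
  have h3 : (μ.prod μ).map (fun p => (p.1, q p)) = μ.prod ((μ.prod μ).map q) := by
    symm
    refine Measure.prod_eq fun s t hs ht => ?_
    rw [Measure.map_apply (measurable_fst.prodMk hq) (hs.prod ht), Measure.map_apply hq ht,
      mul_comm, ← hF.ind1 _ s (hqF ht) hs]
    congr 1
    ext p
    simp only [Set.mem_preimage, Set.mem_prod, Set.mem_inter_iff]
    exact and_comm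
  have h4 : (μ.prod μ).map (fun p => (p.1, q p.swap)) = μ.prod ((μ.prod μ).map q) := by
    symm
    refine Measure.prod_eq fun s t hs ht => ?_
    have hm : Measurable (fun p : α × α => (p.1, q p.swap)) :=
      measurable_fst.prodMk (hq.comp measurable_swap)
    rw [Measure.map_apply hm (hs.prod ht), Measure.map_apply hq ht,
      mul_comm, ← hF.ind2 _ s (hqF ht) hs]
    have e : (fun p : α × α => (p.1, q p.swap)) ⁻¹' s ×ˢ t =
        Prod.swap ⁻¹' (q ⁻¹' t ∩ Prod.snd ⁻¹' s) := by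
      ext p
      simp only [Set.mem_preimage, Set.mem_prod, Set.mem_inter_iff, Prod.snd_swap]
      exact and_comm
    rw [e, (Measure.measurePreserving_swap (μ := μ) (ν := μ)).measure_preimage
      ((hq ht).inter (measurable_snd hs)).nullMeasurableSet]
  refine ⟨ae_of_prod μ q hq _ h3, ?_, h3⟩
  exact ae_of_prod μ (fun p => q p.swap) (hq.comp measurable_swap) _ h4

end Pool.Agent.Work.MP_fa3ce5_an.R2

end

section

set_option autoImplicit false

/-! Item MIN: a finitely valued character with minimal support. -/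

namespace Pool.Agent.Work.MP_fa3ce5_an.R2

open MeasureTheory ProbabilityTheory Polynomial

namespace AuxMin

/-- the common part of two polynomials -/
noncomputable def com (g g' : ℤ[X]) : ℤ[X] := by
  classical
  exact ∑ n ∈ g.support.filter (fun n => g'.coeff n = g.coeff n), monomial n (g.coeff n)

theorem coeff_com (g g' : ℤ[X]) (n : ℕ) [Decidable (g'.coeff n = g.coeff n)] :
    (com g g').coeff n = if g'.coeff n = g.coeff n then g.coeff n else 0 := by
  classical
  unfold com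
  rw [finsetSum_coeff]
  by_cases h : n ∈ g.support.filter (fun n => g'.coeff n = g.coeff n)
  · rw [Finset.sum_eq_single n (fun b _ hb => coeff_monomial_of_ne _ hb.symm)
      (fun h' => absurd h h'), coeff_monomial_same, if_pos (Finset.mem_filter.mp h).2]
  · have h0 : ∀ b ∈ g.support.filter (fun n => g'.coeff n = g.coeff n),
        (monomial b (g.coeff b)).coeff n = 0 := by
      intro b hb
      apply coeff_monomial_of_ne
      rintro rfl
      exact h hb
    rw [Finset.sum_eq_zero h0]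
    split_ifs with h1
    · by_contra h2
      exact h (Finset.mem_filter.mpr ⟨mem_support_iff.mpr (Ne.symm h2), h1⟩)
    · rfl

theorem add_eq (g g' : ℤ[X]) (h : ∀ n, |g'.coeff n| = |g.coeff n|) :
    g + g' = C 2 * com g g' := by
  classical
  ext n
  rw [coeff_add, coeff_C_mul, coeff_com]
  split_ifs with h1
  · rw [h1]
    ring
  · rcases abs_eq_abs.1 (h n) with h2 | h2
    · exact absurd h2 h1
    · rw [h2]
      ring

theorem com_ne (g g' : ℤ[X]) (h : ∀ n, |g'.coeff n| = |g.coeff n|) (hne : g' ≠ -g) :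
    com g g' ≠ 0 := by
  classical
  intro h0
  apply hne
  ext n
  rw [coeff_neg]
  have h1 := coeff_com g g' n
  rw [h0, coeff_zero] at h1
  rcases abs_eq_abs.1 (h n) with h2 | h2
  · rw [if_pos h2] at h1
    rw [h2, ← h1, neg_zero]
  · exact h2

theorem card_com (g g' : ℤ[X]) (h : ∀ n, |g'.coeff n| = |g.coeff n|) (hne : g' ≠ g) :
    (com g g').support.card < g.support.card := by
  classical
  apply Finset.card_lt_card
  rw [Finset.ssubset_iff_of_subset]
  · by_contra hcon
    push Not at hcon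
    apply hne
    ext n
    by_contra h1
    have h2 : g.coeff n ≠ 0 := by
      intro h3
      have h4 := h n
      rw [h3, abs_zero, abs_eq_zero] at h4
      rw [h3, h4] at h1
      exact h1 rfl
    have h3 := hcon n (mem_support_iff.mpr h2)
    rw [mem_support_iff, coeff_com, if_neg h1] at h3
    exact h3 rfl
  · intro n hn
    rw [mem_support_iff, coeff_com] at hn
    rw [mem_support_iff]
    intro h0
    apply hn
    rw [h0, ite_self]

section

variable {α : Type} [MeasurableSpace α] {μ : Measure α}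

theorem exists_min {u : α → Circle} {T : α ≃ᵐ α} (hmp : MeasurePreserving (⇑T) μ μ)
    (hu : Measurable u) (l : ℤ[X]) (hl : l ≠ 0) (hFV : FV μ (chr u (⇑T) l)) :
    ∃ g : ℤ[X], g.coeff 0 ≠ 0 ∧ FV μ (chr u (⇑T) g) ∧
      ∀ h : ℤ[X], h ≠ 0 → FV μ (chr u (⇑T) h) → g.support.card ≤ h.support.card := by
  classical
  have hex : ∃ n : ℕ, ∃ g : ℤ[X], g ≠ 0 ∧ FV μ (chr u (⇑T) g) ∧ g.support.card = n :=
    ⟨_, l, hl, hFV, rfl⟩
  obtain ⟨g, hg0, hgF, hgc⟩ := Nat.find_spec hex
  have hmin : ∀ h : ℤ[X], h ≠ 0 → FV μ (chr u (⇑T) h) → g.support.card ≤ h.support.card := by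
    intro h h0 hF
    rw [hgc]
    exact Nat.find_min' hex ⟨h, h0, hF, rfl⟩
  obtain ⟨g', hg'⟩ : X ^ g.natTrailingDegree ∣ g := by
    rw [X_pow_dvd_iff]
    intro d hd
    exact coeff_eq_zero_of_lt_natTrailingDegree hd
  obtain ⟨n, hn⟩ : ∃ n, n = g.natTrailingDegree := ⟨_, rfl⟩
  rw [← hn] at hg'
  have hc : ∀ d, g.coeff (d + n) = g'.coeff d := by
    intro d
    rw [hg']
    exact coeff_X_pow_mul g' n d
  refine ⟨g', ?_, ?_, fun h h0 hF => le_trans ?_ (hmin h h0 hF)⟩
  · rw [← hc 0, zero_add, hn]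
    exact trailingCoeff_nonzero_iff_nonzero.mpr hg0
  · refine FV.of_comp (measurable_chr u (⇑T) hu T.measurable g') (hmp.iterate n) ?_
    rw [hg'] at hgF
    obtain ⟨Φ, hΦ⟩ := hgF
    refine ⟨Φ, ?_⟩
    filter_upwards [hΦ] with x hx
    rwa [chr_X_pow_mul] at hx
  · refine Finset.card_le_card_of_injOn (fun d => d + n) ?_ ?_
    · intro d hd
      have hd' : d ∈ g'.support := hd
      show d + n ∈ g.support
      rw [mem_support_iff] at hd' ⊢
      rwa [hc]
    · intro a _ b _ hab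
      exact Nat.add_right_cancel hab

end

end AuxMin

open AuxMin in
theorem pr_Min (h1 : StDich) (h2 : StSwap) : StMin := by
  classical
  intro α _ _ μ _ T F u v hC hu ⟨l, hl, s0, hs0⟩
  have hC' := h2 α μ T F u v hC
  have d1 : ∀ (p : ℤ[X]) (s : Circle), μ {y | chr v (⇑T) p y = s} ≠ 0 → FV μ (chr u (⇑T) p) :=
    h1 α μ T F u v hC
  have d2 : ∀ (p : ℤ[X]) (s : Circle), μ {y | chr u (⇑T) p y = s} ≠ 0 → FV μ (chr v (⇑T) p) :=
    h1 α μ T _ v u hC'
  have d3 : ∀ p : ℤ[X], FV μ (chr v (⇑T) p) → FV μ (chr u (⇑T) p) := fun p h => by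
    obtain ⟨s, hs⟩ := h.exists_atom
    exact d1 p s hs
  have d4 : ∀ p : ℤ[X], FV μ (chr u (⇑T) p) → FV μ (chr v (⇑T) p) := fun p h => by
    obtain ⟨s, hs⟩ := h.exists_atom
    exact d2 p s hs
  have hmp := hC.fac.mp
  obtain ⟨g, hg0, hgF, hmin⟩ := exists_min hmp hC.hu l hl (d3 l (d2 l s0 hs0))
  obtain ⟨j, hj1, hj⟩ : ∃ j, 1 ≤ j ∧ g.coeff j ≠ 0 := by
    by_contra hcon
    push Not at hcon
    apply hu
    have hgC : g = C (g.coeff 0) * 1 := by
      ext n
      rw [mul_one, coeff_C]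
      split_ifs with h
      · rw [h]
      · exact hcon n (Nat.one_le_iff_ne_zero.mpr h)
    refine FV.of_zpow hg0 ?_
    obtain ⟨Φ, hΦ⟩ := hgF
    refine ⟨Φ, ?_⟩
    filter_upwards [hΦ] with x hx
    rwa [hgC, chr_C_mul, chr_one] at hx
  obtain ⟨Φ1, hΦ1⟩ := hgF
  obtain ⟨Φ2, hΦ2⟩ := d4 g ⟨Φ1, hΦ1⟩
  refine ⟨g, j, (Φ1 ×ˢ Φ2).image (fun q => q.1 * q.2⁻¹), hj1, hg0, hj, ?_, ?_⟩
  · have e1 := (Measure.quasiMeasurePreserving_fst (μ := μ) (ν := μ)).ae hΦ1
    have e2 := (Measure.quasiMeasurePreserving_snd (μ := μ) (ν := μ)).ae hΦ2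
    filter_upwards [e1, e2] with p p1 p2
    rw [chr_zz]
    exact Finset.mem_image.mpr ⟨(_, _), Finset.mem_product.mpr ⟨p1, p2⟩, rfl⟩
  · intro g' hg' hne1 hne2 s
    have habs := (mem_variants g g').mp hg'
    have hnF : ¬ FV μ (chr u (⇑T) g') := by
      intro hF
      have h3 : FV μ (fun x => chr u (⇑T) (com g g') x ^ (2 : ℤ)) := by
        obtain ⟨Ψ, hΨ⟩ := (show FV μ (chr u (⇑T) g) from ⟨Φ1, hΦ1⟩).mul hF
        refine ⟨Ψ, ?_⟩
        filter_upwards [hΨ] with x hx
        rwa [← chr_add, add_eq g g' habs, chr_C_mul] at hx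
      have h4 := hmin _ (com_ne g g' habs hne2) (FV.of_zpow (by norm_num) h3)
      exact absurd (card_com g g' habs hne1) (not_lt.mpr h4)
    have hat : ∀ s, μ {y | chr v (⇑T) g' y = s} = 0 := by
      intro s
      by_contra h
      exact hnF (d1 g' s h)
    have hm : Measurable (chr (zz u v) (Prod.map ⇑T ⇑T) g') :=
      measurable_chr _ _ (measurable_zz hC.hu hC.hv)
        ((T.measurable.comp measurable_fst).prodMk (T.measurable.comp measurable_snd)) g'
    have hset : MeasurableSet {p : α × α | chr (zz u v) (Prod.map ⇑T ⇑T) g' p = s} :=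
      hm (measurableSet_singleton s)
    rw [Measure.measure_prod_null hset]
    refine Filter.Eventually.of_forall fun x => ?_
    show μ {y | chr (zz u v) (Prod.map ⇑T ⇑T) g' (x, y) = s} = 0
    have e : {y | chr (zz u v) (Prod.map ⇑T ⇑T) g' (x, y) = s} =
        {y | chr v (⇑T) g' y = s⁻¹ * chr u (⇑T) g' x} := by
      ext y
      rw [Set.mem_ofPred_eq, Set.mem_ofPred_eq, chr_zz]
      constructor
      · intro h
        rw [← h]
        show _ = (chr u (⇑T) g' x * (chr v (⇑T) g' y)⁻¹)⁻¹ * chr u (⇑T) g' x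
        group
      · intro h
        show chr u (⇑T) g' x * (chr v (⇑T) g' y)⁻¹ = s
        rw [h]
        group
    rw [e]
    exact hat _

end Pool.Agent.Work.MP_fa3ce5_an.R2

end

section

set_option autoImplicit false

/-!
# Item Norm0
-/

namespace Pool.Agent.Work.MP_fa3ce5_an.R2

open MeasureTheory ProbabilityTheory Polynomial

namespace AuxNorm0

/-- centering -/
theorem center {α : Type} [MeasurableSpace α] {μ : Measure α} [IsProbabilityMeasure μ]
    (a : α → ℝ) (ha : MemLp a 2 μ) :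
    ∃ a' : α → ℝ, Measurable a' ∧ MemLp a' 2 μ ∧ ∀ᵐ x ∂μ, a' x = a x - ∫ t, a t ∂μ := by
  refine ⟨fun x => ha.aestronglyMeasurable.mk a x - ∫ t, a t ∂μ, ?_, ?_, ?_⟩
  · exact ha.aestronglyMeasurable.stronglyMeasurable_mk.measurable.sub_const _
  · exact (MemLp.ae_eq ha.aestronglyMeasurable.ae_eq_mk ha).sub (memLp_const _)
  · filter_upwards [ha.aestronglyMeasurable.ae_eq_mk] with x hx
    rw [hx]

/-- the integral over one coordinate -/
theorem fibre {α : Type} [MeasurableSpace α] {μ : Measure α} [IsProbabilityMeasure μ]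
    (f g a₁ a₂ b₁ b₂ : α → ℝ) (hg : MemLp g 2 μ) (hb₁ : MemLp b₁ 2 μ) (hb₂ : MemLp b₂ 2 μ)
    (H : α → ℝ) (x : α) (h : ∀ᵐ y ∂μ, H y = f x + g y + a₁ x * b₁ y + a₂ x * b₂ y) :
    ∫ y, H y ∂μ = f x + (∫ y, g y ∂μ) + a₁ x * (∫ y, b₁ y ∂μ) + a₂ x * ∫ y, b₂ y ∂μ := by
  have hgi : Integrable g μ := hg.integrable (by norm_num)
  have h1i : Integrable b₁ μ := hb₁.integrable (by norm_num)
  have h2i : Integrable b₂ μ := hb₂.integrable (by norm_num)
  rw [integral_congr_ae h]
  have i1 : Integrable (fun y => f x + g y) μ := (integrable_const _).add hgi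
  have i2 : Integrable (fun y => f x + g y + a₁ x * b₁ y) μ := i1.add (h1i.const_mul _)
  rw [integral_add i2 (h2i.const_mul _), integral_add i1 (h1i.const_mul _),
    integral_add (integrable_const _) hgi, integral_const_mul, integral_const_mul]
  simp

end AuxNorm0

theorem pr_Norm0 (h : StExp) : StNorm0 := by
  intro α _ _ μ _ T F hF K f g a₁ a₂ b₁ b₂ hK hf hg ha₁ ha₂ hb₁ hb₂ hae
  obtain ⟨hx, hy⟩ := h α μ T F hF K hK
  have hfi : Integrable f μ := hf.integrable (by norm_num)
  have ha1i : Integrable a₁ μ := ha₁.integrable (by norm_num)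
  have ha2i : Integrable a₂ μ := ha₂.integrable (by norm_num)
  have e1 : ∀ᵐ x ∂μ, f x + (∫ y, g y ∂μ) + a₁ x * (∫ y, b₁ y ∂μ) + a₂ x * (∫ y, b₂ y ∂μ) =
      ∫ p, K p ∂(μ.prod μ) := by
    filter_upwards [hx, Measure.ae_ae_of_ae_prod hae] with x h1 h2
    rw [← h1]
    exact (AuxNorm0.fibre f g a₁ a₂ b₁ b₂ hg hb₁ hb₂ (fun y => K (x, y)) x h2).symm
  have hsw : ∀ᵐ q ∂(μ.prod μ), K q.swap = f q.swap.1 + g q.swap.2 + a₁ q.swap.1 * b₁ q.swap.2 +
      a₂ q.swap.1 * b₂ q.swap.2 :=
    (Measure.measurePreserving_swap (μ := μ) (ν := μ)).quasiMeasurePreserving.ae hae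
  have e2 : ∀ᵐ y ∂μ, g y + (∫ x, f x ∂μ) + b₁ y * (∫ x, a₁ x ∂μ) + b₂ y * (∫ x, a₂ x ∂μ) =
      ∫ p, K p ∂(μ.prod μ) := by
    filter_upwards [hy, Measure.ae_ae_of_ae_prod hsw] with y h1 h2
    rw [← h1]
    refine (AuxNorm0.fibre g f b₁ b₂ a₁ a₂ hf ha₁ ha₂ (fun x => K (x, y)) y ?_).symm
    filter_upwards [h2] with x h3
    have h4 : K (x, y) = f x + g y + a₁ x * b₁ y + a₂ x * b₂ y := h3
    rw [h4]
    ring
  have e3 : (∫ x, f x ∂μ) + (∫ y, g y ∂μ) + (∫ x, a₁ x ∂μ) * (∫ y, b₁ y ∂μ) +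
      (∫ x, a₂ x ∂μ) * (∫ y, b₂ y ∂μ) = ∫ p, K p ∂(μ.prod μ) := by
    have h1 := integral_congr_ae e1
    rw [integral_const] at h1
    have i1 : Integrable (fun x => f x + (∫ y, g y ∂μ)) μ := hfi.add (integrable_const _)
    have i2 : Integrable (fun x => f x + (∫ y, g y ∂μ) + a₁ x * (∫ y, b₁ y ∂μ)) μ :=
      i1.add (ha1i.mul_const _)
    rw [integral_add i2 (ha2i.mul_const _), integral_add i1 (ha1i.mul_const _),
      integral_add hfi (integrable_const _), integral_mul_const, integral_mul_const,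
      integral_const] at h1
    simpa using h1
  obtain ⟨a₁', ma1, la1, ea1⟩ := AuxNorm0.center a₁ ha₁
  obtain ⟨a₂', ma2, la2, ea2⟩ := AuxNorm0.center a₂ ha₂
  obtain ⟨b₁', mb1, lb1, eb1⟩ := AuxNorm0.center b₁ hb₁
  obtain ⟨b₂', mb2, lb2, eb2⟩ := AuxNorm0.center b₂ hb₂
  refine ⟨∫ p, K p ∂(μ.prod μ), a₁', a₂', b₁', b₂', ma1, ma2, mb1, mb2, la1, la2, lb1, lb2, ?_⟩
  have q1 : Measure.QuasiMeasurePreserving (Prod.fst : α × α → α) (μ.prod μ) μ :=
    Measure.quasiMeasurePreserving_fst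
  have q2 : Measure.QuasiMeasurePreserving (Prod.snd : α × α → α) (μ.prod μ) μ :=
    Measure.quasiMeasurePreserving_snd
  filter_upwards [hae, q1.ae e1, q2.ae e2, q1.ae ea1, q1.ae ea2, q2.ae eb1, q2.ae eb2] with p h0 h1
    h2 h3 h4 h5 h6
  rw [h0, h3, h4, h5, h6]
  linear_combination h1 + h2 - e3

end Pool.Agent.Work.MP_fa3ce5_an.R2

end

section

set_option autoImplicit false

/-!
# Block R2, item NORM1: the Gram matrix
-/

namespace Pool.Agent.Work.MP_fa3ce5_an.R2

open MeasureTheory ProbabilityTheory Polynomial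

namespace AuxNorm1

variable {α : Type} [MeasurableSpace α] {μ : Measure α}

theorem quad {b₁ b₂ : α → ℝ} (h1 : MemLp b₁ 2 μ) (h2 : MemLp b₂ 2 μ) (s t : ℝ) :
    ∫ y, (s * b₁ y + t * b₂ y) ^ 2 ∂μ = s ^ 2 * (∫ y, b₁ y ^ 2 ∂μ) +
      2 * s * t * (∫ y, b₁ y * b₂ y ∂μ) + t ^ 2 * ∫ y, b₂ y ^ 2 ∂μ := by
  have i1 : Integrable (fun y => b₁ y ^ 2) μ := h1.integrable_sq
  have i2 : Integrable (fun y => b₂ y ^ 2) μ := h2.integrable_sq
  have i3 : Integrable (fun y => b₁ y * b₂ y) μ := h1.integrable_mul h2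
  have e : ∀ y, (s * b₁ y + t * b₂ y) ^ 2 =
      (s ^ 2 * b₁ y ^ 2 + 2 * s * t * (b₁ y * b₂ y)) + t ^ 2 * b₂ y ^ 2 := fun y => by ring
  simp_rw [e]
  have e1 : ∫ y, ((s ^ 2 * b₁ y ^ 2 + 2 * s * t * (b₁ y * b₂ y)) + t ^ 2 * b₂ y ^ 2) ∂μ =
      (∫ y, (s ^ 2 * b₁ y ^ 2 + 2 * s * t * (b₁ y * b₂ y)) ∂μ) + ∫ y, t ^ 2 * b₂ y ^ 2 ∂μ :=
    integral_add ((i1.const_mul _).add (i3.const_mul _)) (i2.const_mul _)
  have e2 : ∫ y, (s ^ 2 * b₁ y ^ 2 + 2 * s * t * (b₁ y * b₂ y)) ∂μ =
      (∫ y, s ^ 2 * b₁ y ^ 2 ∂μ) + ∫ y, 2 * s * t * (b₁ y * b₂ y) ∂μ :=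
    integral_add (i1.const_mul _) (i3.const_mul _)
  rw [e1, e2, integral_const_mul, integral_const_mul, integral_const_mul]

theorem zero_of_sq {b : α → ℝ} (h : MemLp b 2 μ) (h0 : ∫ y, b y ^ 2 ∂μ = 0) :
    ∀ᵐ y ∂μ, b y = 0 := by
  have := (integral_eq_zero_iff_of_nonneg (fun y => sq_nonneg (b y)) h.integrable_sq).1 h0
  filter_upwards [this] with y hy
  exact pow_eq_zero_iff (two_ne_zero) |>.1 hy

/-- diagonalisation of the Gram matrix -/
theorem gram {b₁ b₂ : α → ℝ} (m1 : Measurable b₁) (m2 : Measurable b₂) (h1 : MemLp b₁ 2 μ)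
    (h2 : MemLp b₂ 2 μ) : ∃ (p q r : ℝ) (c₁ c₂ : α → ℝ), Measurable c₁ ∧ Measurable c₂ ∧
      MemLp c₁ 2 μ ∧ MemLp c₂ 2 μ ∧ (∀ᵐ y ∂μ, b₁ y = p * c₁ y ∧ b₂ y = q * c₁ y + r * c₂ y) ∧
      ∀ s t : ℝ, ∫ y, (s * b₁ y + t * b₂ y) ^ 2 ∂μ = (p * s + q * t) ^ 2 + (r * t) ^ 2 := by
  by_cases hM : ∫ y, b₁ y ^ 2 ∂μ = 0
  · have hb1 := zero_of_sq h1 hM
    have hM12 : ∫ y, b₁ y * b₂ y ∂μ = 0 := by
      have : (fun y => b₁ y * b₂ y) =ᵐ[μ] fun _ => 0 := by
        filter_upwards [hb1] with y hy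
        rw [hy, zero_mul]
      rw [integral_congr_ae this, integral_zero]
    have hM22 : 0 ≤ ∫ y, b₂ y ^ 2 ∂μ := integral_nonneg fun y => sq_nonneg _
    refine ⟨0, 0, √(∫ y, b₂ y ^ 2 ∂μ), fun _ => 0, fun y => (√(∫ y, b₂ y ^ 2 ∂μ))⁻¹ * b₂ y,
      measurable_const, m2.const_mul _, MemLp.zero, h2.const_mul _, ?_, ?_⟩
    · by_cases h0 : ∫ y, b₂ y ^ 2 ∂μ = 0
      · filter_upwards [hb1, zero_of_sq h2 h0] with y hy1 hy2
        rw [hy1, hy2]
        simp
      · filter_upwards [hb1] with y hy1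
        have h3 : √(∫ y, b₂ y ^ 2 ∂μ) ≠ 0 := by
          rw [Real.sqrt_ne_zero']
          exact lt_of_le_of_ne hM22 (Ne.symm h0)
        refine ⟨by rw [hy1]; simp, ?_⟩
        rw [← mul_assoc, mul_inv_cancel₀ h3]
        ring
    · intro s t
      rw [quad h1 h2, hM, hM12, mul_pow, Real.sq_sqrt hM22]
      ring
  · have hM11 : 0 < ∫ y, b₁ y ^ 2 ∂μ :=
      lt_of_le_of_ne (integral_nonneg fun y => sq_nonneg _) (Ne.symm hM)
    set A := ∫ y, b₁ y ^ 2 ∂μ with hA
    set B := ∫ y, b₁ y * b₂ y ∂μ with hB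
    set D := ∫ y, (-(B / A) * b₁ y + 1 * b₂ y) ^ 2 ∂μ with hD
    have hD0 : 0 ≤ D := integral_nonneg fun y => sq_nonneg _
    have hDe : D = (∫ y, b₂ y ^ 2 ∂μ) - B ^ 2 / A := by
      rw [hD, quad h1 h2, ← hA, ← hB]
      field_simp
      ring
    have hsA : √A ≠ 0 := (Real.sqrt_pos.2 hM11).ne'
    have hsA2 : √A * √A = A := Real.mul_self_sqrt hM11.le
    have hmem : MemLp (fun y => -(B / A) * b₁ y + 1 * b₂ y) 2 μ :=
      (h1.const_mul _).add (h2.const_mul _)
    refine ⟨√A, B / √A, √D, fun y => (√A)⁻¹ * b₁ y,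
      fun y => (√D)⁻¹ * (-(B / A) * b₁ y + 1 * b₂ y), m1.const_mul _,
      ((m1.const_mul _).add (m2.const_mul _)).const_mul _, h1.const_mul _, hmem.const_mul _,
      ?_, ?_⟩
    · have e1 : ∀ y, b₁ y = √A * ((√A)⁻¹ * b₁ y) := fun y => by
        rw [← mul_assoc, mul_inv_cancel₀ hsA, one_mul]
      have e2 : ∀ y, B / √A * ((√A)⁻¹ * b₁ y) = B / A * b₁ y := fun y => by
        rw [← mul_assoc, ← div_eq_mul_inv, div_div, hsA2]
      by_cases h0 : D = 0
      · filter_upwards [zero_of_sq hmem h0] with y hy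
        refine ⟨e1 y, ?_⟩
        rw [e2, hy]
        linarith
      · have h3 : √D ≠ 0 := by
          rw [Real.sqrt_ne_zero']
          exact lt_of_le_of_ne hD0 (Ne.symm h0)
        filter_upwards with y
        refine ⟨e1 y, ?_⟩
        rw [e2, ← mul_assoc, mul_inv_cancel₀ h3]
        ring
    · intro s t
      rw [quad h1 h2, ← hA, ← hB, mul_pow (√D), Real.sq_sqrt hD0, hDe]
      have e3 : (√A * s + B / √A * t) ^ 2 =
          (√A * √A) * s ^ 2 + 2 * s * t * (√A * (B / √A)) + B ^ 2 / (√A * √A) * t ^ 2 := by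
        field_simp
        ring
      rw [e3, hsA2, mul_div_cancel₀ _ hsA]
      ring

end AuxNorm1

open AuxNorm1 in
theorem pr_Norm1 (h : StExp) : StNorm1 := by
  intro α _ _ μ _ T F hF G a₁ a₂ b₁ b₂ hG ma1 ma2 mb1 mb2 la1 la2 lb1 lb2 hGe hne
  obtain ⟨p, q, r, c₁, c₂, mc1, mc2, lc1, lc2, hbc, hQ⟩ := gram mb1 mb2 lb1 lb2
  have hG2 : Measurable[F] (fun z => G z ^ 2) := by
    have hm : Measurable (fun t : ℝ => t ^ 2) := by fun_prop
    exact fun s hs => hG (hm hs)
  obtain ⟨hk, -⟩ := h α μ T F hF (fun z => G z ^ 2) hG2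
  set κ : ℝ := ∫ z, G z ^ 2 ∂(μ.prod μ) with hκ
  have hGx : ∀ᵐ x ∂μ, ∀ᵐ y ∂μ, G (x, y) = a₁ x * b₁ y + a₂ x * b₂ y :=
    Measure.ae_ae_of_ae_prod hGe
  -- the basic identity
  have hid : ∀ᵐ x ∂μ, (p * a₁ x + q * a₂ x) ^ 2 + (r * a₂ x) ^ 2 = κ := by
    filter_upwards [hk, hGx] with x hx hx2
    rw [← hQ, ← hx]
    refine integral_congr_ae ?_
    filter_upwards [hx2] with y hy
    rw [hy]
  -- the function in terms of `c₁`, `c₂`
  have hGc : ∀ᵐ z ∂(μ.prod μ), G z = (p * a₁ z.1 + q * a₂ z.1) * c₁ z.2 + r * a₂ z.1 * c₂ z.2 := by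
    have h2 : ∀ᵐ z ∂(μ.prod μ), b₁ z.2 = p * c₁ z.2 ∧ b₂ z.2 = q * c₁ z.2 + r * c₂ z.2 :=
      Measure.quasiMeasurePreserving_snd.ae hbc
    filter_upwards [hGe, h2] with z hz hz2
    rw [hz, hz2.1, hz2.2]
    ring
  have hid' : ∀ᵐ z ∂(μ.prod μ), (p * a₁ z.1 + q * a₂ z.1) ^ 2 + (r * a₂ z.1) ^ 2 = κ :=
    Measure.quasiMeasurePreserving_fst.ae hid
  -- the circle valued function
  let w : α → ℂ := fun x => ((p * a₁ x + q * a₂ x : ℝ) : ℂ) + ((r * a₂ x : ℝ) : ℂ) * Complex.I
  have mw : Measurable w :=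
    (Complex.measurable_ofReal.comp ((ma1.const_mul p).add (ma2.const_mul q))).add
      ((Complex.measurable_ofReal.comp (ma2.const_mul r)).mul_const _)
  let bb : α → ℂ := fun y => (√κ : ℂ) * ((c₁ y : ℂ) + (c₂ y : ℂ) * Complex.I)
  have hcirc : Measurable (fun t : ℝ => Circle.exp t) := Circle.exp.continuous.measurable
  refine ⟨fun x => Circle.exp (Complex.arg (w x)), bb,
    hcirc.comp (Complex.measurable_arg.comp mw), ?_, ?_, ?_⟩
  · exact ((Complex.measurable_ofReal.comp mc1).add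
      ((Complex.measurable_ofReal.comp mc2).mul_const _)).const_mul _
  · have l1 : MemLp (fun y => (c₁ y : ℂ)) 2 μ := lc1.ofReal
    have l2 : MemLp (fun y => (c₂ y : ℂ) * Complex.I) 2 μ := by
      have : MemLp (fun y => (c₂ y : ℂ)) 2 μ := lc2.ofReal
      have h5 := this.const_mul Complex.I
      simpa [mul_comm] using h5
    exact (l1.add l2).const_mul _
  · filter_upwards [hGc, hid'] with z hz hz2
    have hn : ‖w z.1‖ = √κ := by
      have h6 : ‖w z.1‖ ^ 2 = κ := by
        rw [← hz2, ← Complex.normSq_eq_norm_sq, Complex.normSq_apply]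
        simp only [w, Complex.add_re, Complex.ofReal_re, Complex.mul_re, Complex.I_re, mul_zero,
          Complex.ofReal_im, Complex.I_im, mul_one, Complex.add_im, Complex.mul_im]
        ring
      rw [← h6, Real.sqrt_sq (norm_nonneg _)]
    have hw : ((Circle.exp (Complex.arg (w z.1)) : Circle) : ℂ) * (√κ : ℂ) = w z.1 := by
      rw [Circle.coe_exp, ← hn, mul_comm]
      exact Complex.norm_mul_exp_arg_mul_I _
    have h7 : ((Circle.exp (Complex.arg (w z.1)) : Circle) : ℂ) * (starRingEnd ℂ) (bb z.2) =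
        w z.1 * ((c₁ z.2 : ℂ) - (c₂ z.2 : ℂ) * Complex.I) := by
      have h8 : (starRingEnd ℂ) (bb z.2) =
          (√κ : ℂ) * ((c₁ z.2 : ℂ) - (c₂ z.2 : ℂ) * Complex.I) := by
        simp only [bb, map_mul, map_add, Complex.conj_ofReal, Complex.conj_I]
        ring
      rw [h8, ← mul_assoc, hw]
    rw [h7, hz]
    simp only [w, Complex.add_re, Complex.ofReal_re, Complex.mul_re, Complex.I_re, mul_zero,
      Complex.ofReal_im, Complex.I_im, mul_one, Complex.add_im, Complex.mul_im, Complex.sub_re,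
      Complex.sub_im]
    ring

end Pool.Agent.Work.MP_fa3ce5_an.R2

end

section

set_option autoImplicit false

/-!
# Relations between the characters give atoms
-/

namespace Pool.Agent.Work.MP_fa3ce5_an.R2

open MeasureTheory ProbabilityTheory Polynomial

namespace AuxRel

/-- an atom from a set of positive measure in the product -/
theorem atom {α : Type} [MeasurableSpace α] (μ : Measure α) [IsProbabilityMeasure μ]
    (w : α → Circle) (hw : Measurable w)
    (h : (μ.prod μ) {r : α × α | w r.2 = w r.1} ≠ 0) : ∃ s : Circle, μ {x | w x = s} ≠ 0 := by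
  by_contra hc
  push Not at hc
  apply h
  have hm : MeasurableSet {r : α × α | w r.2 = w r.1} := by
    have h1 : Measurable (fun r : α × α => w r.2 * (w r.1)⁻¹) :=
      (hw.comp measurable_snd).mul (hw.comp measurable_fst).inv
    have h2 : {r : α × α | w r.2 = w r.1} = (fun r : α × α => w r.2 * (w r.1)⁻¹) ⁻¹' {1} := by
      ext r
      exact (mul_inv_eq_one).symm
    rw [h2]
    exact h1 (measurableSet_singleton _)
  rw [Measure.measure_prod_null hm]
  refine Filter.Eventually.of_forall fun x => ?_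
  exact hc (w x)

theorem sum_eq (M : Finset ℤ[X]) (g : ℤ[X] → ℂ) (c V : ℤ[X] → Circle) (c0 : Circle)
    (e1 : ∑ k ∈ M, g k * ((V k : Circle) : ℂ) = 0)
    (e2 : ∑ k ∈ M, g k * ((c k * V k : Circle) : ℂ) = 0) [DecidablePred fun k => c k ≠ c0] :
    ∑ k ∈ M.filter (fun k => c k ≠ c0), g k * ((c k : ℂ) - (c0 : ℂ)) * ((V k : Circle) : ℂ) = 0 := by
  rw [Finset.sum_filter_of_ne]
  · have h3 : ∑ k ∈ M, g k * ((c k : ℂ) - (c0 : ℂ)) * ((V k : Circle) : ℂ) =
        ∑ k ∈ M, g k * ((c k * V k : Circle) : ℂ) -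
          (c0 : ℂ) * ∑ k ∈ M, g k * ((V k : Circle) : ℂ) := by
      rw [Finset.mul_sum, ← Finset.sum_sub_distrib]
      refine Finset.sum_congr rfl fun k _ => ?_
      rw [Circle.coe_mul]
      ring
    rw [h3, e1, e2]
    ring
  · intro k _ hk hc
    apply hk
    rw [hc]
    ring

end AuxRel

open AuxRel in
theorem pr_Rel (h : StRel1) : StRel := by
  intro α _ _ μ _ T F u v hC M
  induction hn : M.card using Nat.strong_induction_on generalizing M with
  | _ n ih =>
    intro g hM hg hμ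
    classical
    have hA := h α μ T F u v hC M g hμ
    obtain ⟨k0, hk0⟩ := hM
    by_cases hcase : ∃ r : α × α, μ {y | ∑ k ∈ M, g k * ((chr v (⇑T) k y : Circle) : ℂ) = 0 ∧
        ∑ k ∈ M, g k * ((chr u (⇑T) k r.2 * (chr u (⇑T) k r.1)⁻¹ * chr v (⇑T) k y : Circle) : ℂ) =
        0} ≠ 0 ∧ ∃ k ∈ M, chr u (⇑T) k r.2 * (chr u (⇑T) k r.1)⁻¹ ≠
        chr u (⇑T) k0 r.2 * (chr u (⇑T) k0 r.1)⁻¹
    · obtain ⟨r, hr, k1, hk1, hne⟩ := hcase
      have hsub : M.filter (fun k => chr u (⇑T) k r.2 * (chr u (⇑T) k r.1)⁻¹ ≠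
          chr u (⇑T) k0 r.2 * (chr u (⇑T) k0 r.1)⁻¹) ⊂ M := by
        refine (Finset.ssubset_iff_of_subset (Finset.filter_subset _ _)).2 ⟨k0, hk0, ?_⟩
        rw [Finset.mem_filter]
        rintro ⟨-, h⟩
        exact h rfl
      refine ih _ (by rw [← hn]; exact Finset.card_lt_card hsub) _ rfl
        (fun k => g k * (((chr u (⇑T) k r.2 * (chr u (⇑T) k r.1)⁻¹ : Circle) : ℂ) -
          ((chr u (⇑T) k0 r.2 * (chr u (⇑T) k0 r.1)⁻¹ : Circle) : ℂ)))
        ⟨k1, Finset.mem_filter.2 ⟨hk1, hne⟩⟩ ?_ ?_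
      · intro k hk
        obtain ⟨hkM, hkn⟩ := Finset.mem_filter.1 hk
        exact mul_ne_zero (hg k hkM) (sub_ne_zero.2 fun h => hkn (Circle.ext h))
      · intro h0
        apply hr
        refine measure_mono_null ?_ h0
        rintro y ⟨e1, e2⟩
        exact sum_eq M g (fun k => chr u (⇑T) k r.2 * (chr u (⇑T) k r.1)⁻¹)
          (fun k => chr v (⇑T) k y) _ e1 e2
    · push Not at hcase
      have hex : ∃ k ∈ M, k ≠ k0 := by
        by_contra hno
        push Not at hno
        apply hμ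
        have hMs : M = {k0} := Finset.eq_singleton_iff_unique_mem.2 ⟨hk0, hno⟩
        have he : {y | ∑ k ∈ M, g k * ((chr v (⇑T) k y : Circle) : ℂ) = 0} = ∅ := by
          rw [Set.eq_empty_iff_forall_notMem]
          intro y hy
          have hy' : ∑ k ∈ M, g k * ((chr v (⇑T) k y : Circle) : ℂ) = 0 := hy
          rw [hMs, Finset.sum_singleton] at hy'
          rcases mul_eq_zero.1 hy' with h | h
          · exact hg k0 hk0 h
          · exact Circle.coe_ne_zero _ h
        rw [he, measure_empty]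
      obtain ⟨k, hk, hkk⟩ := hex
      refine ⟨k - k0, sub_ne_zero.2 hkk, ?_⟩
      apply atom μ _ (measurable_chr u (⇑T) hC.hu T.measurable (k - k0))
      intro h0
      apply hA
      refine measure_mono_null ?_ h0
      intro r hr
      have h1 := hcase r hr k hk
      change chr u (⇑T) (k - k0) r.2 = chr u (⇑T) (k - k0) r.1
      rw [chr_sub, chr_sub, mul_inv_eq_iff_eq_mul, mul_assoc, mul_comm _ (chr u (⇑T) k0 r.2),
        ← mul_assoc, mul_comm (chr u (⇑T) k r.1), mul_assoc, mul_comm (chr u (⇑T) k r.1),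
        ← mul_assoc, ← h1, inv_mul_cancel_right]

end Pool.Agent.Work.MP_fa3ce5_an.R2

end

section

set_option autoImplicit false

/-!
# REL1: a relation is mapped to a relation by translations
-/

namespace Pool.Agent.Work.MP_fa3ce5_an.R2

open MeasureTheory ProbabilityTheory Polynomial

namespace AuxRel1

/-- the signs given by a finite set -/
def eps (t : Finset ℕ) : ℕ → Bool := fun n => decide (n ∉ t)

/-- the sequence of the representatives -/
noncomputable def q {α : Type} [MeasurableSpace α] (T : α ≃ᵐ α) (u v : α → Circle)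
    (p : α × α) : ℕ → Circle :=
  fun n => up (zz u v ((Prod.map ⇑T ⇑T)^[n] p))

/-- the relation as a function of `x` and the sequence -/
noncomputable def Ph {α : Type} [MeasurableSpace α] (T : α ≃ᵐ α) (u : α → Circle)
    (M : Finset ℤ[X]) (g : ℤ[X] → ℂ) (t : Finset ℕ) (r : α × (ℕ → Circle)) : ℂ :=
  ∑ k ∈ M, g k * ((chr u (⇑T) k r.1 * (mon r.2 (vary (eps t) k))⁻¹ : Circle) : ℂ)

theorem measurable_q {α : Type} [MeasurableSpace α] {μ : Measure α} {T : α ≃ᵐ α} {F : SA α}
    {u v : α → Circle} (h : Cir μ T F u v) : Measurable[F] (q T u v) := by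
  refine @measurable_pi_lambda _ _ _ F _ _ fun n => ?_
  exact h.fac.comp_iterate (measurable_up_of_re h.re) n

theorem measurable_coe : Measurable (fun z : Circle => (z : ℂ)) :=
  (by fun_prop : Continuous (fun z : Circle => (z : ℂ))).measurable

theorem measurable_Ph {α : Type} [MeasurableSpace α] (T : α ≃ᵐ α) {u : α → Circle}
    (hu : Measurable u) (M : Finset ℤ[X]) (g : ℤ[X] → ℂ) (t : Finset ℕ) :
    Measurable (Ph T u M g t) := by
  unfold Ph
  refine Finset.measurable_sum _ fun k _ => ?_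
  refine measurable_const.mul (measurable_coe.comp ?_)
  refine Measurable.mul ?_ (Measurable.inv ?_)
  · exact (measurable_chr u (⇑T) hu T.measurable k).comp measurable_fst
  · exact measurable_mon (f := fun n (r : α × (ℕ → Circle)) => r.2 n)
      (fun n => (measurable_pi_apply n).comp measurable_snd) _

/-- for every point some choice of the signs gives the characters of `v` -/
theorem exists_t {α : Type} [MeasurableSpace α] (T : α ≃ᵐ α) (u v : α → Circle)
    (M : Finset ℤ[X]) (J : Finset ℕ) (hJ : ∀ k ∈ M, k.support ⊆ J) (p : α × α) :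
    ∃ t ∈ J.powerset, ∀ k ∈ M,
      chr v (⇑T) k p.2 = chr u (⇑T) k p.1 * (mon (q T u v p) (vary (eps t) k))⁻¹ := by
  classical
  have hb : ∀ n, ∃ b : Bool, zz u v ((Prod.map ⇑T ⇑T)^[n] p) = ap b (q T u v p n) :=
    fun n => exists_ap _
  choose b hb using hb
  refine ⟨J.filter (fun n => b n = false), Finset.mem_powerset.2 (Finset.filter_subset _ _),
    fun k hk => ?_⟩
  have h1 : vary (eps (J.filter (fun n => b n = false))) k = vary b k := by
    ext n
    rw [coeff_vary, coeff_vary]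
    by_cases hn : n ∈ k.support
    · have hnJ := hJ k hk hn
      cases hbn : b n
      · simp [eps, hnJ, hbn]
      · simp [eps, hbn]
    · rw [notMem_support_iff.1 hn]
      simp
  have h2 : chr (zz u v) (Prod.map ⇑T ⇑T) k p = mon (q T u v p) (vary b k) := by
    rw [← mon_ap]
    unfold chr
    congr 1
    funext n
    exact hb n
  rw [h1, ← h2, chr_zz, mul_inv, inv_inv, mul_inv_cancel_left]

end AuxRel1

open AuxRel1 in
theorem pr_Rel1 (h : StLaw) : StRel1 := by
  classical
  intro α _ _ μ _ T F u v hC M g hne hcon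
  apply hne
  -- the finite set of the indices
  obtain ⟨J, hJ⟩ : ∃ J : Finset ℕ, ∀ k ∈ M, k.support ⊆ J :=
    ⟨M.biUnion (fun k => k.support), fun k hk => Finset.subset_biUnion_of_mem (fun k => k.support) hk⟩
  have hq := measurable_q hC
  have hqm : Measurable (q T u v) := hC.fac.meas hq
  obtain ⟨-, -, hlaw⟩ := h α μ T F hC.fac (ℕ → Circle) (q T u v) hq
  set ρ : Measure (ℕ → Circle) := (μ.prod μ).map (q T u v) with hρ
  have : IsProbabilityMeasure ρ := Measure.isProbabilityMeasure_map hqm.aemeasurable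
  -- the exceptional sets
  have hN : ∀ t : Finset ℕ, (μ.prod ρ) {r | Ph T u M g t r = 0 ∧
      μ {x' | Ph T u M g t (x', r.2) = 0} = 0} = 0 := by
    intro t
    have hP := measurable_Ph T hC.hu M g t
    have hS : MeasurableSet {r | Ph T u M g t r = 0} := hP (measurableSet_singleton 0)
    have hm : Measurable (fun f : ℕ → Circle => μ {x' | Ph T u M g t (x', f) = 0}) :=
      measurable_measure_prodMk_right hS
    have hNm : MeasurableSet {r | Ph T u M g t r = 0 ∧
        μ {x' | Ph T u M g t (x', r.2) = 0} = 0} :=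
      hS.inter ((hm.comp measurable_snd) (measurableSet_singleton 0))
    rw [Measure.prod_apply_symm hNm]
    rw [lintegral_eq_zero_iff (measurable_measure_prodMk_right hNm)]
    refine Filter.Eventually.of_forall fun f => ?_
    show μ {x | Ph T u M g t (x, f) = 0 ∧ μ {x' | Ph T u M g t (x', f) = 0} = 0} = 0
    by_cases h0 : μ {x' | Ph T u M g t (x', f) = 0} = 0
    · exact measure_mono_null (fun x hx => hx.1) h0
    · have : {x | Ph T u M g t (x, f) = 0 ∧ μ {x' | Ph T u M g t (x', f) = 0} = 0} = ∅ := by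
        ext x
        simp [h0]
      rw [this, measure_empty]
  have hN' : ∀ᵐ p ∂(μ.prod μ), ∀ t ∈ J.powerset, ¬ (Ph T u M g t (p.1, q T u v p) = 0 ∧
      μ {x' | Ph T u M g t (x', q T u v p) = 0} = 0) := by
    rw [Finset.eventually_all]
    intro t _
    have h1 : ∀ᵐ r ∂((μ.prod μ).map (fun p => (p.1, q T u v p))), ¬ (Ph T u M g t r = 0 ∧
        μ {x' | Ph T u M g t (x', r.2) = 0} = 0) := by
      rw [hlaw, ae_iff]
      simpa only [not_not] using hN t
    exact ae_of_ae_map (measurable_fst.prodMk hqm).aemeasurable h1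
  -- the relation
  have hV : ∀ k, Measurable (chr v (⇑T) k) := measurable_chr v (⇑T) hC.hv T.measurable
  have hU : ∀ k, Measurable (chr u (⇑T) k) := measurable_chr u (⇑T) hC.hu T.measurable
  have hRm : MeasurableSet {y | ∑ k ∈ M, g k * ((chr v (⇑T) k y : Circle) : ℂ) = 0} := by
    have : Measurable (fun y => ∑ k ∈ M, g k * ((chr v (⇑T) k y : Circle) : ℂ)) :=
      Finset.measurable_sum _ fun k _ => measurable_const.mul (measurable_coe.comp (hV k))
    exact this (measurableSet_singleton 0)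
  have hRm' : MeasurableSet {s : (α × α) × α | ∑ k ∈ M, g k *
      ((chr u (⇑T) k s.1.2 * (chr u (⇑T) k s.1.1)⁻¹ * chr v (⇑T) k s.2 : Circle) : ℂ) = 0} := by
    have : Measurable (fun s : (α × α) × α => ∑ k ∈ M, g k *
        ((chr u (⇑T) k s.1.2 * (chr u (⇑T) k s.1.1)⁻¹ * chr v (⇑T) k s.2 : Circle) : ℂ)) := by
      refine Finset.measurable_sum _ fun k _ => measurable_const.mul (measurable_coe.comp ?_)
      refine ((((hU k).comp (measurable_snd.comp measurable_fst)).mul
        ((hU k).comp (measurable_fst.comp measurable_fst)).inv)).mul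
        ((hV k).comp measurable_snd)
    exact this (measurableSet_singleton 0)
  -- Fubini
  have hae : ∀ᵐ x ∂μ, ∀ᵐ x' ∂μ, ∀ᵐ y ∂μ, ¬ (∑ k ∈ M, g k * ((chr v (⇑T) k y : Circle) : ℂ) = 0 ∧
      ∑ k ∈ M, g k * ((chr u (⇑T) k x' * (chr u (⇑T) k x)⁻¹ * chr v (⇑T) k y : Circle) : ℂ) =
        0) := by
    have h1 : ∀ᵐ r ∂(μ.prod μ), μ {y | ∑ k ∈ M, g k * ((chr v (⇑T) k y : Circle) : ℂ) = 0 ∧
        ∑ k ∈ M, g k * ((chr u (⇑T) k r.2 * (chr u (⇑T) k r.1)⁻¹ * chr v (⇑T) k y : Circle) : ℂ) =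
          0} = 0 := by
      rw [ae_iff]
      exact hcon
    have h2 := Measure.ae_ae_of_ae_prod h1
    filter_upwards [h2] with x hx
    filter_upwards [hx] with x' hx'
    rw [ae_iff]
    simpa only [not_not] using hx'
  have hae2 : ∀ᵐ x ∂μ, ∀ᵐ y ∂μ, ∀ᵐ x' ∂μ, ¬ (∑ k ∈ M, g k * ((chr v (⇑T) k y : Circle) : ℂ) = 0 ∧
      ∑ k ∈ M, g k * ((chr u (⇑T) k x' * (chr u (⇑T) k x)⁻¹ * chr v (⇑T) k y : Circle) : ℂ) =
        0) := by
    filter_upwards [hae] with x hx
    rw [Measure.ae_ae_comm] at hx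
    · exact hx
    · have hmap : Measurable (fun r : α × α => (((x, r.1), r.2) : (α × α) × α)) :=
        (measurable_const.prodMk measurable_fst).prodMk measurable_snd
      exact ((measurable_snd hRm).inter (hmap hRm')).compl
  -- conclusion
  have hfin : ∀ᵐ x ∂μ, ∀ᵐ y ∂μ, ¬ ∑ k ∈ M, g k * ((chr v (⇑T) k y : Circle) : ℂ) = 0 := by
    have hN2 := Measure.ae_ae_of_ae_prod hN'
    filter_upwards [hae2, hN2] with x hx1 hx2
    filter_upwards [hx1, hx2] with y hy1 hy2 hR
    obtain ⟨t, ht, htk⟩ := exists_t T u v M J hJ (x, y)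
    apply hy2 t ht
    constructor
    · rw [← hR]
      unfold Ph
      refine Finset.sum_congr rfl fun k hk => ?_
      rw [htk k hk]
    · have h3 : {x' | Ph T u M g t (x', q T u v (x, y)) = 0} =
          {x' | ∑ k ∈ M, g k * ((chr u (⇑T) k x' * (chr u (⇑T) k x)⁻¹ * chr v (⇑T) k y : Circle) :
            ℂ) = 0} := by
        ext x'
        simp only [Set.mem_ofPred_eq]
        unfold Ph
        have h4 : ∑ k ∈ M, g k * ((chr u (⇑T) k (x', q T u v (x, y)).1 *
              (mon (x', q T u v (x, y)).2 (vary (eps t) k))⁻¹ : Circle) : ℂ) =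
            ∑ k ∈ M, g k * ((chr u (⇑T) k x' * (chr u (⇑T) k x)⁻¹ * chr v (⇑T) k y : Circle) :
              ℂ) := by
          refine Finset.sum_congr rfl fun k hk => ?_
          have h5 := htk k hk
          simp only at h5 ⊢
          rw [h5]
          congr 2
          group
        rw [h4]
      rw [h3]
      have h6 : ∀ᵐ x' ∂μ, ¬ ∑ k ∈ M, g k *
          ((chr u (⇑T) k x' * (chr u (⇑T) k x)⁻¹ * chr v (⇑T) k y : Circle) : ℂ) = 0 := by
        filter_upwards [hy1] with x' hx' h7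
        exact hx' ⟨hR, h7⟩
      rw [ae_iff] at h6
      simpa only [not_not] using h6
  obtain ⟨x, hx⟩ := hfin.exists
  rw [ae_iff] at hx
  simpa only [not_not] using hx

end Pool.Agent.Work.MP_fa3ce5_an.R2

end
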