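import Pool.Agent.Work.MP_fa3ce5_an.Bd.B02
import Pool.Agent.Work.MP_fa3ce5_an.Final

/-! Bundle of small proof modules (one section per former module). -/

section

set_option autoImplicit false

namespace Pool.Agent.Work.MP_fa3ce5_an.R2

open MeasureTheory ProbabilityTheory Polynomial

namespace AuxSign1

theorem vary_vary (ε : ℕ → Bool) (g : ℤ[X]) : vary ε (vary ε g) = g := by
  ext n
  rw [coeff_vary, coeff_vary]
  split_ifs
  · rfl
  · exact neg_neg _

/-- the sign of the product -/
theorem pos_iff (a b a' b' : ℤ) (ea eb : Bool) (ha : a ≠ 0) (hb : b ≠ 0)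
    (ha' : a' = if ea then a else -a) (hb' : b' = if eb then b else -b) :
    0 < a' * a * b' * b ↔ ea = eb := by
  have h1 : 0 < a * a * (b * b) := mul_pos (mul_self_pos.mpr ha) (mul_self_pos.mpr hb)
  subst ha' hb'
  cases ea <;> cases eb
  · simp only [Bool.false_eq_true, if_false, iff_true]
    nlinarith
  · simp only [Bool.false_eq_true, if_false, if_true, iff_false, not_lt]
    nlinarith
  · simp only [Bool.false_eq_true, Bool.true_eq_false, if_false, if_true, iff_false, not_lt]
    nlinarith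
  · simp only [if_true, iff_true]
    nlinarith

end AuxSign1

open AuxSign1 in
theorem pr_Sign1 : StSign1 := by
  classical
  intro α _ μ _ T F u v hC g j Φ hg0 hgj hΦ hnull
  have hF := hC.fac
  set S : α × α → α × α := Prod.map ⇑T ⇑T with hSdef
  have hup : ∀ n, Measurable[F] (fun p => up (zz u v (S^[n] p))) := fun n =>
    measurable_up_of_re (hF.comp_iterate hC.re n)
  let zt : α × α → ℕ → Circle := fun p n => up (zz u v (S^[n] p))
  have hmon : ∀ k : ℤ[X], Measurable[F] (fun p => mon (zt p) k) := fun k =>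
    measurable_mon hup k
  refine ⟨⋃ g' ∈ variants g, ({p | mon (zt p) g' ∈ Φ} ∩
    {_p | 0 < g'.coeff 0 * g.coeff 0 * g'.coeff j * g.coeff j}), ?_, ?_⟩
  · refine Finset.measurableSet_biUnion _ fun g' _ => ?_
    refine MeasurableSet.inter ?_ (MeasurableSet.const _)
    exact (hmon g') (Finset.measurableSet Φ)
  · have hae : ∀ᵐ p ∂(μ.prod μ), ∀ g' ∈ variants g, g' ≠ g → g' ≠ -g → ∀ s ∈ Φ,
        chr (zz u v) S g' p ≠ s := by
      rw [Filter.eventually_all_finset]
      intro g' hg'
      by_cases h1 : g' = g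
      · exact Filter.Eventually.of_forall fun p h => absurd h1 h
      by_cases h2 : g' = -g
      · exact Filter.Eventually.of_forall fun p _ h => absurd h2 h
      have h3 : ∀ᵐ p ∂(μ.prod μ), ∀ s ∈ Φ, chr (zz u v) S g' p ≠ s := by
        rw [Filter.eventually_all_finset]
        intro s _
        have h4 := hnull g' hg' h1 h2 s
        rw [ae_iff]
        simpa using h4
      filter_upwards [h3] with p hp _ _
      exact hp
    filter_upwards [hΦ, hae] with p hp1 hp2
    intro ε hε
    have hchr : ∀ k : ℤ[X], chr (zz u v) S k p = mon (zt p) (vary ε k) := by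
      intro k
      rw [← mon_ap]
      unfold chr
      congr 1
      funext n
      exact hε n
    constructor
    · intro hR
      simp only [Set.mem_iUnion] at hR
      obtain ⟨g', hg', h1, h2⟩ := hR
      have h1' : mon (zt p) g' ∈ Φ := h1
      have h2' : 0 < g'.coeff 0 * g.coeff 0 * g'.coeff j * g.coeff j := h2
      have hvar : vary ε g' ∈ variants g := by
        rw [mem_variants] at hg' ⊢
        intro n
        rw [abs_coeff_vary, hg' n]
      have hval : chr (zz u v) S (vary ε g') p = mon (zt p) g' := by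
        rw [hchr, vary_vary]
      have hor : vary ε g' = g ∨ vary ε g' = -g := by
        by_contra hcon
        push Not at hcon
        exact hp2 _ hvar hcon.1 hcon.2 _ h1' hval
      rcases hor with h3 | h3
      · have hg2 : g' = vary ε g := by rw [← h3, vary_vary]
        have e0 : g'.coeff 0 = if ε 0 then g.coeff 0 else -g.coeff 0 := by
          rw [hg2, coeff_vary]
        have ej : g'.coeff j = if ε j then g.coeff j else -g.coeff j := by
          rw [hg2, coeff_vary]
        exact (pos_iff _ _ _ _ _ _ hg0 hgj e0 ej).1 h2'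
      · have hg2 : -g' = vary ε g := by
          have h4 : g = vary ε (-g') := by
            ext n
            have h5 := congrArg (fun q : ℤ[X] => q.coeff n) h3
            simp only [coeff_vary, coeff_neg] at h5 ⊢
            split_ifs at h5 ⊢ <;> linarith
          rw [h4, vary_vary]
        have e0 : -g'.coeff 0 = if ε 0 then g.coeff 0 else -g.coeff 0 := by
          rw [← coeff_neg, hg2, coeff_vary]
        have ej : -g'.coeff j = if ε j then g.coeff j else -g.coeff j := by
          rw [← coeff_neg, hg2, coeff_vary]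
        refine (pos_iff _ _ _ _ _ _ hg0 hgj e0 ej).1 ?_
        have e : -g'.coeff 0 * g.coeff 0 * -g'.coeff j * g.coeff j =
            g'.coeff 0 * g.coeff 0 * g'.coeff j * g.coeff j := by ring
        rw [e]
        exact h2'
    · intro he
      simp only [Set.mem_iUnion]
      refine ⟨vary ε g, vary_mem_variants ε g, ?_, ?_⟩
      · change mon (zt p) (vary ε g) ∈ Φ
        rw [← hchr]
        exact hp1
      · change 0 < (vary ε g).coeff 0 * g.coeff 0 * (vary ε g).coeff j * g.coeff j
        exact (pos_iff _ _ _ _ _ _ hg0 hgj (coeff_vary ε g 0) (coeff_vary ε g j)).2 he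

end Pool.Agent.Work.MP_fa3ce5_an.R2

end

section

set_option autoImplicit false

namespace Pool.Agent.Work.MP_fa3ce5_an.R2

open MeasureTheory ProbabilityTheory Polynomial

namespace AuxSign2

open Classical in
/-- the relative sign of the values at `0` and `j i` -/
noncomputable def sg {β : Type} (S : β → β) (j : ℕ) (R : Set β) : ℕ → β → Bool
  | 0, _ => true
  | i + 1, p => if S^[j * i] p ∈ R then sg S j R i p else !(sg S j R i p)

theorem measurable_ite_bool {β : Type} {mβ : MeasurableSpace β} (b : β → Bool)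
    (hb : Measurable[mβ] b) {γ : Type} [MeasurableSpace γ] (f g : β → γ)
    (hf : Measurable[mβ] f) (hg : Measurable[mβ] g) :
    Measurable[mβ] (fun p => if b p = true then f p else g p) :=
  Measurable.ite (hb (measurableSet_singleton true)) hf hg

end AuxSign2

open AuxSign2 in
theorem pr_Sign2 : StSign2 := by
  classical
  intro α _ μ _ T F u v hC j R hR hae
  have hF := hC.fac
  have hS := hF.measurable_S
  set S : α × α → α × α := Prod.map ⇑T ⇑T with hSdef
  have hsg : ∀ i, Measurable[F] (sg S j R i) := by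
    intro i
    induction i with
    | zero => exact measurable_const
    | succ i ih =>
      have hR' : MeasurableSet[F] {p | S^[j * i] p ∈ R} := (hS.iterate (j * i)) hR
      exact Measurable.ite hR' ih ((measurable_of_finite (fun b : Bool => !b)).comp ih)
  have hup : ∀ i, Measurable[F] (fun p => up (zz u v (S^[j * i] p))) := fun i =>
    measurable_up_of_re (hF.comp_iterate hC.re (j * i))
  refine ⟨fun i p => ap (sg S j R i p) (up (zz u v (S^[j * i] p))), fun i => ?_, ?_⟩
  · exact measurable_ite_bool _ (hsg i) _ _ (hup i) (hup i).inv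
  · have hmp : MeasurePreserving S (μ.prod μ) (μ.prod μ) := hF.mp.prod hF.mp
    have hall : ∀ᵐ p ∂(μ.prod μ), ∀ i, ∀ ε : ℕ → Bool,
        (∀ n, zz u v (S^[n] (S^[j * i] p)) = ap (ε n) (up (zz u v (S^[n] (S^[j * i] p))))) →
        (S^[j * i] p ∈ R ↔ ε 0 = ε j) := by
      rw [ae_all_iff]
      intro i
      exact (hmp.iterate (j * i)).quasiMeasurePreserving.ae hae
    filter_upwards [hall] with p hp
    choose ε hε using fun n => exists_ap (zz u v (S^[n] p))
    have hrel : ∀ i, (S^[j * i] p ∈ R ↔ ε (j * i) = ε (j * i + j)) := by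
      intro i
      have := hp i (fun n => ε (n + j * i)) (fun n => by
        have h1 := hε (n + j * i)
        rw [Function.iterate_add_apply] at h1
        exact h1)
      simpa [add_comm] using this
    have key : ∀ i, ε (j * i) = (ε 0 == sg S j R i p) := by
      intro i
      induction i with
      | zero =>
        show ε (j * 0) = (ε 0 == true)
        rw [mul_zero]
        cases ε 0 <;> rfl
      | succ i ih =>
        have h1 := hrel i
        show ε (j * (i + 1)) = (ε 0 == if S^[j * i] p ∈ R then sg S j R i p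
          else !(sg S j R i p))
        rw [mul_add, mul_one]
        by_cases h2 : S^[j * i] p ∈ R
        · rw [if_pos h2, ← h1.1 h2, ih]
        · rw [if_neg h2]
          have h3 : ε (j * i) ≠ ε (j * i + j) := fun h => h2 (h1.2 h)
          rw [ih] at h3
          revert h3
          cases ε 0 <;> cases sg S j R i p <;> cases ε (j * i + j) <;> simp
    have hz : ∀ i, zz u v (S^[j * i] p) =
        ap (ε 0) (ap (sg S j R i p) (up (zz u v (S^[j * i] p)))) := by
      intro i
      rw [ap_ap, ← key i]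
      exact hε (j * i)
    cases h0 : ε 0
    · right
      intro i
      have := hz i
      rw [h0, ap_false] at this
      exact this
    · left
      intro i
      have := hz i
      rw [h0, ap_true] at this
      exact this

end Pool.Agent.Work.MP_fa3ce5_an.R2

end

section

/-!
# Exchange of the coordinates (block R2)
-/

set_option autoImplicit false

namespace Pool.Agent.Work.MP_fa3ce5_an.R2

open MeasureTheory ProbabilityTheory Polynomial

namespace AuxSwap

/-- the exchanged factor -/
def sw {α : Type} (F : SA α) : SA α := MeasurableSpace.comap Prod.swap F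

theorem meas_iff {α : Type} (F : SA α) (s : Set (α × α)) :
    MeasurableSet[sw F] s ↔ MeasurableSet[F] (Prod.swap ⁻¹' s) := by
  constructor
  · rintro ⟨t, ht, rfl⟩
    have : Prod.swap ⁻¹' (Prod.swap ⁻¹' t) = t := by
      ext p
      simp
    rw [this]
    exact ht
  · intro h
    refine ⟨Prod.swap ⁻¹' s, h, ?_⟩
    ext p
    simp

end AuxSwap

open AuxSwap in
theorem pr_Swap : StSwap := by
  intro α _ μ _ T F u v h
  have hsw : MeasurePreserving (Prod.swap : α × α → α × α) (μ.prod μ) (μ.prod μ) :=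
    Measure.measurePreserving_swap
  have hsc : ∀ s : Set (α × α), MeasurableSet s →
      (μ.prod μ) (Prod.swap ⁻¹' s) = (μ.prod μ) s :=
    fun s hs => hsw.measure_preimage hs.nullMeasurableSet
  have hle : ∀ s : Set (α × α), MeasurableSet[sw F] s → MeasurableSet s := by
    intro s hs
    have h1 := h.fac.le _ ((meas_iff F s).1 hs)
    have h2 := measurable_swap h1
    have : Prod.swap ⁻¹' (Prod.swap ⁻¹' s) = s := by
      ext p
      simp
    rwa [this] at h2
  show Cir μ T (sw F) v u
  refine ⟨⟨h.fac.mp, h.fac.erg, hle, ?_, ?_, ?_, ?_⟩, h.hv, h.hu, ?_⟩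
  · intro s
    rw [meas_iff, meas_iff, h.fac.inv]
    rfl
  · intro s t hs ht
    rw [← hsc _ ((hle s hs).inter (measurable_fst ht)), ← hsc s (hle s hs)]
    exact h.fac.ind2 _ t ((meas_iff F s).1 hs) ht
  · intro s t hs ht
    rw [← hsc _ ((hle s hs).inter (measurable_snd ht)), ← hsc s (hle s hs)]
    exact h.fac.ind1 _ t ((meas_iff F s).1 hs) ht
  · intro s t hs ht hst
    rw [meas_iff] at ht ⊢
    exact h.fac.cpl _ _ (measurable_swap hs) ht (hsw.quasiMeasurePreserving.preimage_ae_eq hst)
  · have h1 : (fun p : α × α => ((zz v u p : Circle) : ℂ).re) =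
        (fun p : α × α => ((zz u v p : Circle) : ℂ).re) ∘ Prod.swap := by
      funext p
      have h2 : zz v u p = (zz u v p.swap)⁻¹ := by
        unfold zz
        rw [mul_inv, inv_inv, mul_comm]
        rfl
      show ((zz v u p : Circle) : ℂ).re = ((zz u v p.swap : Circle) : ℂ).re
      rw [h2, Circle.coe_inv_eq_conj, Complex.conj_re]
    rw [h1]
    intro s hs
    exact ⟨_, h.re hs, rfl⟩

end Pool.Agent.Work.MP_fa3ce5_an.R2

end

section

set_option autoImplicit false

/-!
# If there are no atoms then the moments with exponents in `{-1, 0, 1}` vanish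
-/

namespace Pool.Agent.Work.MP_fa3ce5_an.R2

open MeasureTheory ProbabilityTheory Polynomial

namespace AuxZero

/-- the sign variant belonging to a set of positions -/
noncomputable def vt (e : ℤ[X]) (t : Finset ℕ) : ℤ[X] := vary (fun n => decide (n ∉ t)) e

theorem vt_inj (e : ℤ[X]) (t t' : Finset ℕ) (ht : t ⊆ e.support) (ht' : t' ⊆ e.support)
    (h : vt e t = vt e t') : t = t' := by
  have key : ∀ n ∈ e.support, n ∈ t ↔ n ∈ t' := by
    intro n hn
    have h1 : (vt e t).coeff n = (vt e t').coeff n := by rw [h]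
    unfold vt at h1
    rw [coeff_vary, coeff_vary] at h1
    have h0 := mem_support_iff.1 hn
    by_cases a : n ∈ t <;> by_cases b : n ∈ t'
    · simp [a, b]
    · simp only [a, b, not_true_eq_false, decide_false, Bool.false_eq_true, if_false,
        not_false_eq_true, decide_true, if_true] at h1
      omega
    · simp only [a, b, not_true_eq_false, decide_false, Bool.false_eq_true, if_false,
        not_false_eq_true, decide_true, if_true] at h1
      omega
    · simp [a, b]
  ext n
  constructor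
  · intro hn
    exact (key n (ht hn)).1 hn
  · intro hn
    exact (key n (ht' hn)).2 hn

theorem vt_ne_zero (e : ℤ[X]) (he : e ≠ 0) (t : Finset ℕ) : vt e t ≠ 0 := by
  intro h
  have h1 : (vt e t).support = e.support := support_vary _ _
  rw [h, support_zero] at h1
  exact he (support_eq_empty.1 h1.symm)

theorem vt_empty (e : ℤ[X]) : vt e ∅ = e := by
  ext n
  unfold vt
  rw [coeff_vary]
  simp

/-- the expansion of the product of the real parts -/
theorem expand_prod (f : ℕ → Circle) (e : ℤ[X]) (he : Sm e) :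
    (2 : ℂ) ^ e.support.card * ((∏ n ∈ e.support, ((f n : Circle) : ℂ).re : ℝ) : ℂ) =
      ∑ t ∈ e.support.powerset, ((mon f (vt e t) : Circle) : ℂ) := by
  classical
  have h1 : (2 : ℂ) ^ e.support.card * ((∏ n ∈ e.support, ((f n : Circle) : ℂ).re : ℝ) : ℂ) =
      ∏ n ∈ e.support, (((f n ^ (-e.coeff n) : Circle) : ℂ) + ((f n ^ e.coeff n : Circle) : ℂ)) := by
    rw [← Finset.prod_const, Complex.ofReal_prod, ← Finset.prod_mul_distrib]
    refine Finset.prod_congr rfl fun n hn => ?_
    have h2 : (2 : ℂ) * ((((f n : Circle) : ℂ).re : ℝ) : ℂ) =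
        ((f n : Circle) : ℂ) + (((f n)⁻¹ : Circle) : ℂ) := by
      rw [Circle.coe_inv_eq_conj, Complex.add_conj]
      push_cast
      ring
    rw [h2]
    rcases he n with h3 | h3 | h3
    · rw [h3]
      simp
    · exact absurd h3 (mem_support_iff.1 hn)
    · rw [h3]
      simp [add_comm]
  rw [h1, Finset.prod_add]
  refine Finset.sum_congr rfl fun t ht => ?_
  have ht' := Finset.mem_powerset.1 ht
  have h4 : mon f (vt e t) = (∏ n ∈ t, f n ^ (-e.coeff n)) * ∏ n ∈ e.support \ t, f n ^ e.coeff n := by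
    unfold mon
    have h5 : (vt e t).support = e.support := support_vary _ _
    rw [h5, ← Finset.prod_sdiff ht', mul_comm]
    congr 1
    · refine Finset.prod_congr rfl fun n hn => ?_
      unfold vt
      rw [coeff_vary]
      simp [hn]
    · refine Finset.prod_congr rfl fun n hn => ?_
      unfold vt
      rw [coeff_vary]
      simp [(Finset.mem_sdiff.1 hn).2]
  rw [h4]
  have h6 : ∀ (s : Finset ℕ) (g : ℕ → Circle), ((∏ n ∈ s, g n : Circle) : ℂ) =
      ∏ n ∈ s, ((g n : Circle) : ℂ) := by
    intro s g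
    exact map_prod Circle.coeHom g s
  rw [Circle.coe_mul, h6, h6]

/-- characters are integrable -/
theorem int_chr {α : Type} [MeasurableSpace α] (μ : Measure α) [IsProbabilityMeasure μ]
    (w : α → Circle) (hw : Measurable w) : Integrable (fun x => ((w x : Circle) : ℂ)) μ := by
  apply Integrable.of_bound (C := 1)
  · have h : Continuous (fun z : Circle => (z : ℂ)) := by fun_prop
    exact (h.measurable.comp hw).aestronglyMeasurable
  · exact Filter.Eventually.of_forall fun x => by simp

end AuxZero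

open AuxZero in
theorem pr_Zero (h1 : StExp) (h2 : StRel) : StZero := by
  classical
  intro α _ _ μ _ T F u v hc hat e he hsm
  by_contra hI
  set a : ℤ[X] → ℂ := fun k => ∫ x, ((chr u (⇑T) k x : Circle) : ℂ) ∂μ with ha
  set G : α × α → ℝ := fun p =>
    ∏ n ∈ e.support, ((zz u v ((Prod.map ⇑T ⇑T)^[n] p) : Circle) : ℂ).re with hG
  have hGm : Measurable[F] G := by
    rw [hG]
    exact Finset.measurable_prod _ fun n _ => hc.fac.comp_iterate hc.re n
  have hE := (h1 α μ T F hc.fac G hGm).2
  set Cc : ℝ := ∫ p, G p ∂(μ.prod μ) with hCc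
  have hWt : ∀ x y : α, (2 : ℂ) ^ e.support.card * ((G (x, y) : ℝ) : ℂ) =
      ∑ t ∈ e.support.powerset, ((chr u (⇑T) (vt e t) x : Circle) : ℂ) *
        ((chr v (⇑T) (-vt e t) y : Circle) : ℂ) := by
    intro x y
    rw [hG]
    have h3 := expand_prod (fun n => zz u v ((Prod.map ⇑T ⇑T)^[n] (x, y))) e hsm
    rw [h3]
    refine Finset.sum_congr rfl fun t _ => ?_
    have h4 : mon (fun n => zz u v ((Prod.map ⇑T ⇑T)^[n] (x, y))) (vt e t) =
        chr (zz u v) (Prod.map ⇑T ⇑T) (vt e t) (x, y) := rfl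
    rw [h4, chr_zz, chr_neg, Circle.coe_mul]
  have hT : Measurable (⇑T) := T.measurable
  have hrel : ∀ᵐ y ∂μ, ∑ t ∈ e.support.powerset, a (vt e t) *
      ((chr v (⇑T) (-vt e t) y : Circle) : ℂ) = (2 : ℂ) ^ e.support.card * (Cc : ℂ) := by
    filter_upwards [hE] with y hy
    rw [← hy, ← integral_complex_ofReal, ← integral_const_mul]
    have h5 : (fun x => (2 : ℂ) ^ e.support.card * ((G (x, y) : ℝ) : ℂ)) = fun x =>
        ∑ t ∈ e.support.powerset, ((chr u (⇑T) (vt e t) x : Circle) : ℂ) *
        ((chr v (⇑T) (-vt e t) y : Circle) : ℂ) := by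
      funext x
      exact hWt x y
    have h6 : (∫ x, (2 : ℂ) ^ e.support.card * ((G (x, y) : ℝ) : ℂ) ∂μ) =
        ∫ x, ∑ t ∈ e.support.powerset, ((chr u (⇑T) (vt e t) x : Circle) : ℂ) *
        ((chr v (⇑T) (-vt e t) y : Circle) : ℂ) ∂μ := by rw [h5]
    refine Eq.trans ?_ h6.symm
    rw [integral_finsetSum]
    · refine Finset.sum_congr rfl fun t _ => ?_
      rw [integral_mul_const]
    · intro t _
      exact (int_chr μ _ (measurable_chr u (⇑T) hc.hu hT _)).mul_const _
  -- the relation
  set φ : Finset ℕ → ℤ[X] := fun t => -vt e t with hφ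
  set g : ℤ[X] → ℂ := fun k => if k = 0 then -((2 : ℂ) ^ e.support.card * (Cc : ℂ)) else a (-k)
    with hg
  set M' : Finset ℤ[X] := insert 0 (e.support.powerset.image φ) with hM'
  have hφ0 : ∀ t, φ t ≠ 0 := fun t => neg_ne_zero.2 (vt_ne_zero e he t)
  have h0 : (0 : ℤ[X]) ∉ e.support.powerset.image φ := by
    intro h
    obtain ⟨t, -, ht⟩ := Finset.mem_image.1 h
    exact hφ0 t ht
  have hM'rel : ∀ᵐ y ∂μ, ∑ k ∈ M', g k * ((chr v (⇑T) k y : Circle) : ℂ) = 0 := by
    filter_upwards [hrel] with y hy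
    rw [hM', Finset.sum_insert h0, Finset.sum_image]
    · have h7 : ∑ t ∈ e.support.powerset, g (φ t) * ((chr v (⇑T) (φ t) y : Circle) : ℂ) =
          ∑ t ∈ e.support.powerset, a (vt e t) *
      ((chr v (⇑T) (-vt e t) y : Circle) : ℂ) := by
        refine Finset.sum_congr rfl fun t _ => ?_
        rw [hg]
        simp only
        rw [if_neg (hφ0 t), hφ]
        simp only [neg_neg]
      rw [h7, hy, hg]
      simp
    · intro t ht t' ht' htt
      exact vt_inj e t t' (Finset.mem_powerset.1 ht) (Finset.mem_powerset.1 ht')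
        (neg_injective htt)
  have hMrel : ∀ᵐ y ∂μ, ∑ k ∈ M'.filter (fun k => g k ≠ 0),
      g k * ((chr v (⇑T) k y : Circle) : ℂ) = 0 := by
    filter_upwards [hM'rel] with y hy
    rw [Finset.sum_filter_of_ne]
    · exact hy
    · intro k _ hk hk0
      apply hk
      rw [hk0, zero_mul]
  have hne : (M'.filter (fun k => g k ≠ 0)).Nonempty := by
    refine ⟨φ ∅, Finset.mem_filter.2 ⟨Finset.mem_insert_of_mem
      (Finset.mem_image_of_mem _ (Finset.empty_mem_powerset _)), ?_⟩⟩
    rw [hg]
    simp only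
    rw [if_neg (hφ0 ∅), hφ]
    simp only [neg_neg]
    rw [vt_empty]
    exact hI
  have hpos : μ {y | ∑ k ∈ M'.filter (fun k => g k ≠ 0),
      g k * ((chr v (⇑T) k y : Circle) : ℂ) = 0} ≠ 0 := by
    intro h8
    have h9 := measure_eq_zero_iff_ae_notMem.1 h8
    obtain ⟨y, hy1, hy2⟩ := (hMrel.and h9).exists
    exact hy2 hy1
  obtain ⟨l, hl, s, hs⟩ := h2 α μ T F u v hc (M'.filter (fun k => g k ≠ 0)) g hne
    (fun k hk => (Finset.mem_filter.1 hk).2) hpos
  exact hs (hat l hl s)

end Pool.Agent.Work.MP_fa3ce5_an.R2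

end

section

set_option autoImplicit false

/-!
# Kernels of rank two: assembly
-/

namespace Pool.Agent.Work.MP_fa3ce5_an.R2

open MeasureTheory ProbabilityTheory Polynomial

theorem pr_Case (hMin : StMin) (hSign1 : StSign1) (hSign2 : StSign2) (hA : StA) (hB : StB)
    (hLast : StLast) (hDich : StDich) (hZero : StZero) (hEnt : StEnt) : StCase := by
  intro α _ _ μ _ T F u v hC hu
  by_cases hat : ∃ l : ℤ[X], l ≠ 0 ∧ ∃ s : Circle, μ {x | chr u (⇑T) l x = s} ≠ 0
  · obtain ⟨g, j, Φ, hj, h0, hgj, hΦ, hvar⟩ := hMin α μ T F u v hC hu hat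
    obtain ⟨R, hR, hRae⟩ := hSign1 α μ T F u v hC g j Φ h0 hgj hΦ hvar
    obtain ⟨zs, hzs⟩ := hSign2 α μ T F u v hC j R hR hRae
    by_contra hne
    apply hne
    refine hLast α μ T hC.fac.mp hC.fac.erg u hC.hu hu j hj ?_ ?_
    · intro k hk
      rcases hB α μ T F u v hC j zs hj hzs k hk with h | h
      · exact h
      · exact absurd h hne
    · intro k hk
      apply hA α μ T F u v hC j zs hzs k
      intro hV
      obtain ⟨s, hs⟩ := hV.exists_atom
      exact hk (hDich α μ T F u v hC _ s hs)
  · push Not at hat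
    refine hEnt α μ T hC.fac.mp u hC.hu 1 le_rfl fun k hk hsm => ?_
    have := hZero α μ T F u v hC hat k hk hsm
    simpa [Function.iterate_one] using this

/-- a unit vector with the direction of `z` -/
noncomputable def dir (z : ℂ) : Circle := Circle.exp (Complex.arg z)

theorem measurable_dir : Measurable dir :=
  Circle.exp.continuous.measurable.comp Complex.measurable_arg

theorem norm_mul_dir (z : ℂ) : (‖z‖ : ℂ) * (dir z : ℂ) = z := by
  unfold dir
  rw [Circle.coe_exp]
  exact Complex.norm_mul_exp_arg_mul_I z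

/-- **Kernels of rank two.** If a factor `F` of `T × T` (`T × T` ergodic) is independent of both
coordinate algebras and contains a nonconstant function
`f(x) + g(y) + a₁(x) b₁(y) + a₂(x) b₂(y)` then `T` has positive entropy. -/
theorem main (hCpl : StCpl) (hNorm0 : StNorm0) (hNorm1 : StNorm1) (hRect : StRect)
    (hBdd : StBdd) (hAbs : StAbs) (hCase : StCase)
    (α : Type) [MeasurableSpace α] [StandardBorelSpace α] (μ : Measure α)
    [IsProbabilityMeasure μ] (T : α ≃ᵐ α) (hT : MeasurePreserving (⇑T) μ μ)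
    (hE : Ergodic (Prod.map ⇑T ⇑T) (μ.prod μ)) (F : SA α)
    (hle : ∀ s : Set (α × α), MeasurableSet[F] s → MeasurableSet s)
    (hinv : ∀ s : Set (α × α), MeasurableSet[F] s ↔ MeasurableSet[F] (Prod.map ⇑T ⇑T ⁻¹' s))
    (h1 : ∀ (s : Set (α × α)) (t : Set α), MeasurableSet[F] s → MeasurableSet t →
      (μ.prod μ) (s ∩ Prod.fst ⁻¹' t) = (μ.prod μ) s * μ t)
    (h2 : ∀ (s : Set (α × α)) (t : Set α), MeasurableSet[F] s → MeasurableSet t →
      (μ.prod μ) (s ∩ Prod.snd ⁻¹' t) = (μ.prod μ) s * μ t)
    (K : α × α → ℝ) (f g a₁ a₂ b₁ b₂ : α → ℝ) (hK : Measurable[F] K) (hf : MemLp f 2 μ)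
    (hg : MemLp g 2 μ) (ha₁ : MemLp a₁ 2 μ) (ha₂ : MemLp a₂ 2 μ) (hb₁ : MemLp b₁ 2 μ)
    (hb₂ : MemLp b₂ 2 μ)
    (hKe : ∀ᵐ p ∂(μ.prod μ), K p = f p.1 + g p.2 + a₁ p.1 * b₁ p.2 + a₂ p.1 * b₂ p.2)
    (hKn : ¬ ∃ c : ℝ, ∀ᵐ p ∂(μ.prod μ), K p = c) : PosEnt μ T := by
  obtain ⟨F₁, hFF, hFac⟩ := hCpl α μ T hT hE F hle hinv h1 h2
  have hK₁ : Measurable[F₁] K := fun s hs => hFF _ (hK hs)
  obtain ⟨c, a₁', a₂', b₁', b₂', ma₁, ma₂, mb₁, mb₂, la₁, la₂, lb₁, lb₂, hG⟩ :=
    hNorm0 α μ T F₁ hFac K f g a₁ a₂ b₁ b₂ hK₁ hf hg ha₁ ha₂ hb₁ hb₂ hKe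
  have hGm : Measurable[F₁] (fun p => K p - c) := hK₁.sub_const c
  have hGn : ¬ ∃ d : ℝ, ∀ᵐ p ∂(μ.prod μ), K p - c = d := by
    rintro ⟨d, hd⟩
    exact hKn ⟨d + c, by filter_upwards [hd] with p hp; linarith⟩
  have hG0 : ¬ ∀ᵐ p ∂(μ.prod μ), K p - c = 0 := fun h => hGn ⟨0, h⟩
  obtain ⟨u, b, hu, hb, lb, hub⟩ := hNorm1 α μ T F₁ hFac (fun p => K p - c) a₁' a₂' b₁' b₂' hGm
    ma₁ ma₂ mb₁ mb₂ la₁ la₂ lb₁ lb₂ hG hG0
  by_cases hFV : FV μ u
  · obtain ⟨m, P, s, hP, hs⟩ := hFV.exists_index hu
    have hs' : ∀ᵐ p ∂(μ.prod μ), u p.1 = s (P p.1) :=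
      Measure.quasiMeasurePreserving_fst.ae hs
    rcases hRect α μ T F₁ hFac (fun p => K p - c) hGm m P
      (fun i y => ((s i : ℂ) * (starRingEnd ℂ) (b y)).re) hP
      (fun i => Complex.measurable_re.comp
        (measurable_const.mul (Complex.continuous_conj.measurable.comp hb)))
      (by filter_upwards [hub, hs'] with p hp hp'
          rw [hp, hp']) with h | h
    · exact absurd h hGn
    · exact h
  · obtain ⟨C, hC⟩ := hBdd α μ T F₁ hFac (fun p => K p - c) u b hGm hu hb hFV hub
    obtain ⟨c0, hc0⟩ := hAbs α μ T F₁ hFac (fun p => K p - c) u b C hGm hu hb hFV hC hub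
    have hc0' : ∀ᵐ p ∂(μ.prod μ), ‖b p.2‖ = c0 := Measure.quasiMeasurePreserving_snd.ae hc0
    have hne : c0 ≠ 0 := by
      rintro rfl
      apply hG0
      filter_upwards [hub, hc0'] with p hp hp'
      rw [hp, norm_eq_zero.1 hp']
      simp
    have hv : Measurable (fun y => dir (b y)) := measurable_dir.comp hb
    refine hCase α μ T F₁ u (fun y => dir (b y)) ⟨hFac, hu, hv, ?_⟩ hFV
    have hzm : Measurable (fun p : α × α => ((zz u (fun y => dir (b y)) p : Circle) : ℂ).re) :=
      Complex.measurable_re.comp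
        ((by fun_prop : Continuous (fun z : Circle => (z : ℂ))).measurable.comp
          (measurable_zz hu hv))
    refine hFac.congr hzm (G' := fun p => (K p - c) / c0) (hGm.div_const c0) ?_
    filter_upwards [hub, hc0'] with p hp hp'
    rw [hp]
    have e1 : (starRingEnd ℂ) (b p.2) = c0 * ((dir (b p.2))⁻¹ : Circle) := by
      conv_lhs => rw [← norm_mul_dir (b p.2)]
      rw [map_mul, Complex.conj_ofReal, hp', Circle.coe_inv_eq_conj]
    have e2 : ((zz u (fun y => dir (b y)) p : Circle) : ℂ) =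
        (u p.1 : ℂ) * ((dir (b p.2))⁻¹ : Circle) := by
      unfold zz
      rw [Circle.coe_mul]
    rw [e1, e2]
    have e3 : (u p.1 : ℂ) * ((c0 : ℂ) * ((dir (b p.2))⁻¹ : Circle)) =
        (c0 : ℂ) * ((u p.1 : ℂ) * ((dir (b p.2))⁻¹ : Circle)) := by ring
    rw [e3, Complex.re_ofReal_mul, mul_div_cancel_left₀ _ hne]

end Pool.Agent.Work.MP_fa3ce5_an.R2

end

section

set_option autoImplicit false

/-!
# Block R2, item RECT: finite rectangle functions in the factor
-/

namespace Pool.Agent.Work.MP_fa3ce5_an.R2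

open MeasureTheory ProbabilityTheory Polynomial

namespace AuxRect

variable {α : Type} [MeasurableSpace α]

theorem indep_aux (μ : Measure α) [IsProbabilityMeasure μ] (F : SA α) (q : α × α → α)
    (hμ : ∀ t : Set α, MeasurableSet t → (μ.prod μ) (q ⁻¹' t) = μ t)
    (h : ∀ (s : Set (α × α)) (t : Set α), MeasurableSet[F] s → MeasurableSet t →
      (μ.prod μ) (s ∩ q ⁻¹' t) = (μ.prod μ) s * μ t) :
    Indep F (MeasurableSpace.comap q (inferInstance : MeasurableSpace α)) (μ.prod μ) := by
  refine (Indep_iff _ _ _).2 ?_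
  rintro s _ hs ⟨t, ht, rfl⟩
  rw [h s t hs ht, hμ t ht]

/-- sets in the factor that are finite unions of rectangles (the second part of the hand-in
GapEntropy) -/
theorem rect_pos [StandardBorelSpace α] (μ : Measure α) [IsProbabilityMeasure μ] (T : α ≃ᵐ α)
    (hT : MeasurePreserving (⇑T) μ μ) (hErg : Ergodic (Prod.map ⇑T ⇑T) (μ.prod μ))
    (F : SA α) (hF : ∀ s : Set (α × α), MeasurableSet[F] s → MeasurableSet s)
    (hinv : ∀ s : Set (α × α), MeasurableSet[F] s ↔ MeasurableSet[F] (Prod.map ⇑T ⇑T ⁻¹' s))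
    (hind : Indep F (MeasurableSpace.comap Prod.fst (inferInstance : MeasurableSpace α))
      (μ.prod μ))
    (hind2 : Indep F (MeasurableSpace.comap Prod.snd (inferInstance : MeasurableSpace α))
      (μ.prod μ))
    (D : Set (α × α)) (hD : MeasurableSet[F] D) (h0 : 0 < (μ.prod μ) D) (h1 : (μ.prod μ) D < 1)
    (hrect : ∃ (m : ℕ) (A B : Fin m → Set α), (∀ i, MeasurableSet (A i) ∧ MeasurableSet (B i)) ∧
      D =ᵐ[μ.prod μ] (⋃ i, A i ×ˢ B i : Set (α × α))) : PosEnt μ T := by
  obtain ⟨m, A, B, -, hDr⟩ := hrect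
  have hF' : (show MeasurableSpace (α × α) from F) ≤
      (Prod.instMeasurableSpace : MeasurableSpace (α × α)) := fun s hs => hF s hs
  obtain ⟨δ, hδ, hgap⟩ := Work.MP_fa3ce5_an.gap_of_rect μ hDr
  have hne := Work.MP_fa3ce5_an.not_snd μ hind2 hD h0 h1
  have hlog : 0 < Real.log 2 := Real.log_pos (by norm_num)
  have hc : δ * Real.log 2 / 2 < δ * Real.log 2 := by
    have : 0 < δ * Real.log 2 := by positivity
    linarith
  obtain ⟨k, f, hf, h⟩ :=
    Work.MP_fa3ce5_an.gap_entropy μ hT hErg hF' hinv hind hD hδ hgap hne hc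
  exact ⟨k, f, hf, δ * Real.log 2 / 2, by positivity, h⟩

end AuxRect

open AuxRect in
theorem pr_Rect : StRect := by
  intro α _ _ μ _ T F hF G hG m P Φ hP hΦ hae
  by_cases h : ∃ U : Set ℝ, MeasurableSet U ∧ 0 < (μ.prod μ) (G ⁻¹' U) ∧
      (μ.prod μ) (G ⁻¹' U) < 1
  · right
    obtain ⟨U, hU, h0, h1⟩ := h
    refine rect_pos μ T hF.mp hF.erg F hF.le hF.inv
      (indep_aux μ F Prod.fst (fun t ht => by
        have h2 := (measurePreserving_fst (μ := μ) (ν := μ)).measure_preimage
          ht.nullMeasurableSet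
        exact h2) hF.ind1) (indep_aux μ F Prod.snd (fun t ht => by
        have h2 := (measurePreserving_snd (μ := μ) (ν := μ)).measure_preimage
          ht.nullMeasurableSet
        exact h2) hF.ind2) (G ⁻¹' U) (hG hU) h0 h1
      ⟨m, fun i => P ⁻¹' {i}, fun i => Φ i ⁻¹' U,
        fun i => ⟨hP (measurableSet_singleton i), hΦ i hU⟩, ?_⟩
    filter_upwards [hae] with p hp
    apply propext
    show G p ∈ U ↔ p ∈ ⋃ i, (P ⁻¹' {i}) ×ˢ (Φ i ⁻¹' U)
    rw [Set.mem_iUnion, hp]
    constructor
    · intro h2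
      exact ⟨P p.1, rfl, h2⟩
    · rintro ⟨i, hi, h2⟩
      have hi' : P p.1 = i := hi
      rw [hi']
      exact h2
  · left
    push Not at h
    have hGm : Measurable G := hF.meas hG
    obtain ⟨c, hc⟩ := Filter.exists_eventuallyEq_const_of_forall_separating
      (l := ae (μ.prod μ)) (f := G) MeasurableSet (fun U hU => by
        by_cases h0 : (μ.prod μ) (G ⁻¹' U) = 0
        · right
          exact measure_eq_zero_iff_ae_notMem.1 h0
        · left
          have h1 := h U hU (pos_iff_ne_zero.2 h0)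
          have h2 : (μ.prod μ) (G ⁻¹' U) = 1 := le_antisymm prob_le_one h1
          exact (mem_ae_iff_prob_eq_one (hGm hU)).2 h2)
    exact ⟨c, hc⟩

end Pool.Agent.Work.MP_fa3ce5_an.R2

end
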