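import Pool.Agent.Work.MP_fa3ce5_an.Op

/-! Bundle of small proof modules (one section per former module). -/

section

/-!
# A vector on which all the weak limits are partial isometries
-/

set_option autoImplicit false

namespace Pool.Agent.Work.MP_fa3ce5_an

open Filter Topology Set
open scoped InnerProductSpace

noncomputable section

namespace Dat

variable {H M : Type*} [NormedAddCommGroup H] [InnerProductSpace ℝ H] [CompleteSpace H]
  [NormedAddCommGroup M] [InnerProductSpace ℝ M] [CompleteSpace M] (D : Dat H M)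

theorem Bc_AA (𝒰 : Ultrafilter ℤ) {k : M} (hk : k ∈ D.Z) (u : H) :
    D.Bc k (AA D.U 𝒰 u) = AA D.U 𝒰 (D.Bc k u) := by
  apply ext_inner_right ℝ
  intro v
  rw [inner_Bc, inner_AA', inner_Bc, D.move1 𝒰 u v hk, D.move2 𝒰 u v hk]

theorem Bc_AA' (𝒰 : Ultrafilter ℤ) {k : M} (hk : k ∈ D.Z) (u : H) :
    D.Bc k (AA D.U 𝒰 u) = D.Bc (AA D.V 𝒰 k) u := by
  apply ext_inner_right ℝ
  intro v
  rw [inner_Bc, inner_Bc, D.move1 𝒰 u v hk]

theorem BB_AA (𝒰 : Ultrafilter ℤ) {k : M} (hk : k ∈ D.Z) (u : H) :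
    D.BB k (AA D.U 𝒰 u) = AA D.U 𝒰 (D.BB k u) := by
  apply ext_inner_right ℝ
  intro v
  rw [inner_BB, D.Bc_AA 𝒰 hk, inner_AA', inner_AA', inner_BB, D.Bc_AA 𝒰 hk]

theorem Eig_AA (𝒰 : Ultrafilter ℤ) {k : M} (hk : k ∈ D.Z) {u : H} (hu : u ∈ D.Eig k) :
    AA D.U 𝒰 u ∈ D.Eig k := by
  rw [mem_Eig, D.BB_AA 𝒰 hk, (D.mem_Eig k u).mp hu, AA_smul]

theorem Bc_ne (k : M) (hk : k ∈ D.Z) (hk0 : k ≠ 0) : D.Bc k ≠ 0 := by
  intro h
  apply hk0
  apply D.hnd k hk
  intro u v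
  show D.Θ u v k = 0
  rw [← inner_Bc, h]
  simp

theorem Eig_inj {k : M} (hk : k ∈ D.Z) (hk0 : k ≠ 0) {u u' : H} (hu : u ∈ D.Eig k)
    (hu' : u' ∈ D.Eig k) (h : D.Bc k u = D.Bc k u') : u = u' := by
  have hpos : ‖D.Bc k‖ ^ 2 ≠ 0 := by
    have := norm_ne_zero_iff.mpr (D.Bc_ne k hk hk0)
    positivity
  have h1 : D.BB k u = D.BB k u' := by
    unfold BB
    rw [h]
  rw [(D.mem_Eig k u).mp hu, (D.mem_Eig k u').mp hu'] at h1
  exact smul_right_injective H hpos h1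

theorem Eig_idem (𝒰 : Ultrafilter ℤ) {k : M} (hk : k ∈ D.Z) (hk0 : k ≠ 0) {u : H}
    (hu : u ∈ D.Eig k) : AA D.U 𝒰 (AA D.U 𝒰 u) = AA D.U 𝒰 u := by
  apply D.Eig_inj hk hk0 (D.Eig_AA 𝒰 hk (D.Eig_AA 𝒰 hk hu)) (D.Eig_AA 𝒰 hk hu)
  rw [D.Bc_AA' 𝒰 hk, D.Bc_AA' 𝒰 (D.AA_mem 𝒰 hk), D.AA_idem 𝒰 hk, D.Bc_AA' 𝒰 hk]

theorem Eig_fix (𝒰 : Ultrafilter ℤ) {k : M} (hk : k ∈ D.Z) (hk0 : k ≠ 0)
    (h : AA D.V 𝒰 k = k) {u : H} (hu : u ∈ D.Eig k) : AA D.U 𝒰 u = u := by
  apply D.Eig_inj hk hk0 (D.Eig_AA 𝒰 hk hu) hu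
  rw [D.Bc_AA' 𝒰 hk, h]

/-- a vector of the top eigenspace on which every `A` is `0` or the identity -/
theorem exists_vec {k : M} (hk : k ∈ D.Z) (hk0 : k ≠ 0) :
    ∃ u : H, u ≠ 0 ∧ u ∈ D.Eig k ∧ ∀ 𝒰 : Ultrafilter ℤ, AA D.U 𝒰 u = 0 ∨ AA D.U 𝒰 u = u := by
  have hfd := D.finDim k (D.Bc_ne k hk hk0)
  let S : Set (Submodule ℝ H) :=
    {W | W ≤ D.Eig k ∧ W ≠ ⊥ ∧ ∀ 𝒰 : Ultrafilter ℤ, ∀ w ∈ W, AA D.U 𝒰 w ∈ W}
  have hS : S.Nonempty := by
    refine ⟨D.Eig k, le_rfl, ?_, fun 𝒰 w hw => D.Eig_AA 𝒰 hk hw⟩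
    obtain ⟨u, hu0, hu⟩ := D.exists_eig k (D.Bc_ne k hk hk0)
    intro h
    have h1 : u ∈ D.Eig k := hu
    rw [h, Submodule.mem_bot] at h1
    exact hu0 h1
  obtain ⟨W, hWS, hmin⟩ := (measure (fun W : Submodule ℝ H => Module.finrank ℝ W)).wf.has_min S hS
  obtain ⟨hW1, hW2, hW3⟩ := hWS
  have hWfd : FiniteDimensional ℝ W := Submodule.finiteDimensional_of_le hW1
  obtain ⟨u, huW, hu0⟩ := Submodule.exists_mem_ne_zero_of_ne_bot hW2
  refine ⟨u, hu0, hW1 huW, fun 𝒰 => ?_⟩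
  let W' : Submodule ℝ H :=
    { carrier := {w | w ∈ W ∧ AA D.U 𝒰 w = 0}
      add_mem' := by
        rintro a b ⟨ha, ha'⟩ ⟨hb, hb'⟩
        exact ⟨W.add_mem ha hb, by rw [AA_add, ha', hb', add_zero]⟩
      zero_mem' := ⟨W.zero_mem, by simp [AA]⟩
      smul_mem' := by
        rintro c a ⟨ha, ha'⟩
        exact ⟨W.smul_mem c ha, by rw [AA_smul, ha', smul_zero]⟩ }
  have hle : W' ≤ W := fun w hw => hw.1
  by_cases hbot : W' = ⊥
  · right
    have h1 : AA D.U 𝒰 u - u ∈ W' := by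
      refine ⟨W.sub_mem (hW3 𝒰 u huW) huW, ?_⟩
      rw [AA_sub, D.Eig_idem 𝒰 hk hk0 (hW1 huW), sub_self]
    rw [hbot, Submodule.mem_bot] at h1
    exact sub_eq_zero.mp h1
  · left
    have h1 : W' ∈ S := by
      refine ⟨hle.trans hW1, hbot, fun 𝒱 w hw => ⟨hW3 𝒱 w hw.1, ?_⟩⟩
      rw [AA_comm, hw.2]
      simp [AA]
    have h2 : W' = W := by
      by_contra hne
      apply hmin W' h1
      exact Submodule.finrank_lt_finrank_of_lt (lt_of_le_of_ne hle hne)
    have h3 : u ∈ W' := by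
      rw [h2]
      exact huW
    exact h3.2

/-- `Θ(u, u, k)`-orthogonality to the constant passes to the eigenspace -/
theorem Eig_orth {k : M} (hk : k ∈ D.Z) (hk0 : k ≠ 0) (w : H) (hw : ∀ v, D.Θ w v k = 0) {u : H}
    (hu : u ∈ D.Eig k) : ⟪u, w⟫_ℝ = 0 := by
  have hpos : ‖D.Bc k‖ ^ 2 ≠ 0 := by
    have := norm_ne_zero_iff.mpr (D.Bc_ne k hk hk0)
    positivity
  have h1 : (‖D.Bc k‖ ^ 2) * ⟪u, w⟫_ℝ = 0 := by
    rw [← real_inner_smul_left, ← (D.mem_Eig k u).mp hu, inner_BB]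
    have h2 : D.Bc k w = 0 := by
      apply ext_inner_right ℝ
      intro v
      rw [inner_Bc, hw, inner_zero_left]
    rw [h2, inner_zero_right]
  exact (mul_eq_zero.mp h1).resolve_left hpos

end Dat

/-! ### Total boundedness -/

section orbit

variable {H : Type*} [NormedAddCommGroup H] [InnerProductSpace ℝ H] [CompleteSpace H]
  (U : H ≃ₗᵢ[ℝ] H)

theorem dist_pow (n m : ℤ) (u : H) : dist ((U ^ n) u) ((U ^ m) u) = dist ((U ^ (n - m)) u) u := by
  have h1 : (U ^ n) u = (U ^ m) ((U ^ (n - m)) u) := by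
    rw [← pow_add_apply, add_sub_cancel]
  rw [h1]
  exact (U ^ m).dist_map _ _

theorem inner_of_dist (n : ℤ) (u : H) :
    ⟪(U ^ n) u, u⟫_ℝ = ‖u‖ ^ 2 - (dist ((U ^ n) u) u) ^ 2 / 2 := by
  rw [dist_eq_norm, norm_sub_sq_real, LinearIsometryEquiv.norm_map]
  ring

theorem tb_of_partial (u : H) (hu : ∀ 𝒰 : Ultrafilter ℤ, AA U 𝒰 u = 0 ∨ AA U 𝒰 u = u) (r : ℝ)
    (hr0 : 0 ≤ r) (hr : r ^ 2 < 2 * ‖u‖ ^ 2) :
    TotallyBounded ((fun n : ℤ => (U ^ n) u) '' {n | dist ((U ^ n) u) u ≤ r}) := by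
  rw [totallyBounded_iff_ultrafilter]
  intro 𝒲 hW
  have hmem : (fun n : ℤ => (U ^ n) u) '' {n | dist ((U ^ n) u) u ≤ r} ∈ 𝒲 :=
    hW (mem_principal_self _)
  obtain ⟨𝒰, h𝒰⟩ : ∃ 𝒰 : Ultrafilter ℤ, 𝒰 = Ultrafilter.ofComapInfPrincipal hmem := ⟨_, rfl⟩
  have h1 : {n : ℤ | dist ((U ^ n) u) u ≤ r} ∈ 𝒰 := by
    rw [h𝒰]
    exact Ultrafilter.ofComapInfPrincipal_mem hmem
  have h2 : 𝒰.map (fun n : ℤ => (U ^ n) u) = 𝒲 := by
    rw [h𝒰]
    exact Ultrafilter.ofComapInfPrincipal_eq_of_map hmem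
  have h3 : ‖u‖ ^ 2 - r ^ 2 / 2 ≤ ⟪PP U 𝒰 u, u⟫_ℝ := by
    refine ge_of_tendsto (PP_spec U 𝒰 u u) ?_
    filter_upwards [h1] with n hn
    rw [inner_of_dist]
    have h4 : (dist ((U ^ n) u) u) ^ 2 ≤ r ^ 2 := pow_le_pow_left₀ dist_nonneg hn 2
    linarith
  have h4 : AA U 𝒰 u = u := by
    rcases hu 𝒰 with h | h
    · exfalso
      have h5 : ‖PP U 𝒰 u‖ ^ 2 = 0 := by
        rw [← real_inner_self_eq_norm_sq, ← inner_AA, h, inner_zero_left]
      have h6 : PP U 𝒰 u = 0 := by simpa using h5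
      rw [h6, inner_zero_left] at h3
      linarith
    · exact h
  have h5 : ‖PP U 𝒰 u‖ = ‖u‖ := by
    have h6 : ‖PP U 𝒰 u‖ ^ 2 = ‖u‖ ^ 2 := by
      rw [← real_inner_self_eq_norm_sq, ← inner_AA, h4, real_inner_self_eq_norm_sq]
    exact (sq_eq_sq₀ (norm_nonneg _) (norm_nonneg _)).mp h6
  have h6 := strong_of_norm U 𝒰 u h5
  rw [← h2]
  exact cauchy_nhds.mono h6

theorem strong_of_fix (𝒰 : Ultrafilter ℤ) (u : H) (h4 : AA U 𝒰 u = u) :
    Tendsto (fun n : ℤ => (U ^ n) u) 𝒰 (𝓝 (PP U 𝒰 u)) := by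
  apply strong_of_norm
  have h6 : ‖PP U 𝒰 u‖ ^ 2 = ‖u‖ ^ 2 := by
    rw [← real_inner_self_eq_norm_sq, ← inner_AA, h4, real_inner_self_eq_norm_sq]
  exact (sq_eq_sq₀ (norm_nonneg _) (norm_nonneg _)).mp h6

/-- arbitrarily large returns -/
theorem exists_return (𝒰 : Ultrafilter ℤ) (h𝒰 : (𝒰 : Filter ℤ) ≤ cofinite) (u : H)
    (h4 : AA U 𝒰 u = u) (ε : ℝ) (hε : 0 < ε) (N : ℤ) : ∃ n : ℤ, N < n ∧ dist ((U ^ n) u) u < ε := by
  have h1 := strong_of_fix U 𝒰 u h4
  have h2 : {n : ℤ | dist ((U ^ n) u) (PP U 𝒰 u) < ε / 2} ∈ 𝒰 :=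
    (Metric.tendsto_nhds.mp h1) (ε / 2) (by positivity)
  obtain ⟨n, hn⟩ := 𝒰.nonempty_of_mem h2
  have h3 : {m : ℤ | N < |m - n|} ∈ 𝒰 := by
    apply h𝒰
    rw [mem_cofinite]
    refine (Set.finite_Icc (n - N) (n + N)).subset ?_
    intro m hm
    have hm' : ¬ N < |m - n| := hm
    rw [not_lt, abs_le] at hm'
    exact ⟨by linarith [hm'.1], by linarith [hm'.2]⟩
  obtain ⟨m, hm⟩ := 𝒰.nonempty_of_mem (inter_mem h2 h3)
  have hd : dist ((U ^ m) u) ((U ^ n) u) < ε := by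
    calc _ ≤ dist ((U ^ m) u) (PP U 𝒰 u) + dist ((U ^ n) u) (PP U 𝒰 u) := dist_triangle_right _ _ _
      _ < ε / 2 + ε / 2 := add_lt_add hm.1 hn
      _ = ε := by ring
  have hm2 : N < |m - n| := hm.2
  rcases abs_cases (m - n) with h | h
  · refine ⟨m - n, by rw [← h.1]; exact hm2, ?_⟩
    rw [← dist_pow]
    exact hd
  · refine ⟨n - m, by rw [h.1] at hm2; linarith, ?_⟩
    rw [← dist_pow, dist_comm]
    exact hd

theorem dist_neg (n : ℤ) (u : H) : dist ((U ^ (-n)) u) u = dist ((U ^ n) u) u := by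
  have h1 := dist_pow U 0 n u
  rw [zpow_zero, zero_sub] at h1
  rw [← h1, dist_comm]
  rfl

theorem dist_add (n m : ℤ) (u : H) :
    dist ((U ^ (n + m)) u) u ≤ dist ((U ^ n) u) u + dist ((U ^ m) u) u := by
  have h1 : dist ((U ^ (n + m)) u) ((U ^ m) u) = dist ((U ^ n) u) u := by
    rw [dist_pow, add_sub_cancel_right]
  calc _ ≤ dist ((U ^ (n + m)) u) ((U ^ m) u) + dist ((U ^ m) u) u := dist_triangle _ _ _
    _ = _ := by rw [h1]

/-- the returns to a ball have bounded gaps -/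
theorem syndetic (u : H) (ρ : ℝ) (hρ : 0 < ρ)
    (htb : TotallyBounded ((fun n : ℤ => (U ^ n) u) '' {n | dist ((U ^ n) u) u ≤ 2 * ρ}))
    (hret : ∀ N : ℤ, ∃ n : ℤ, N < n ∧ dist ((U ^ n) u) u < ρ) :
    ∃ L : ℤ, 0 < L ∧ ∀ n : ℤ, ∃ m : ℤ, n < m ∧ m ≤ n + L ∧ dist ((U ^ m) u) u ≤ ρ := by
  obtain ⟨t, ht1, ht2, ht3⟩ := Metric.finite_approx_of_totallyBounded htb ρ hρ
  -- bound for the centres
  have h1 : ∃ K : ℤ, 0 < K ∧ ∀ n : ℤ, dist ((U ^ n) u) u ≤ 2 * ρ →
      ∃ m : ℤ, |m| ≤ K ∧ dist ((U ^ (n - m)) u) u < ρ := by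
    have h2 : ∀ y ∈ t, ∃ m : ℤ, (U ^ m) u = y := by
      intro y hy
      obtain ⟨m, _, hm⟩ := ht1 hy
      exact ⟨m, hm⟩
    choose! c hc using h2
    obtain ⟨K, hK⟩ : ∃ K : ℤ, ∀ y ∈ t, |c y| ≤ K := by
      obtain ⟨K, hK⟩ := (ht2.image (fun y => |c y|)).bddAbove
      exact ⟨K, fun y hy => hK (mem_image_of_mem _ hy)⟩
    refine ⟨max K 1, by positivity, fun n hn => ?_⟩
    have h3 := ht3 (mem_image_of_mem _ hn)
    simp only [mem_iUnion] at h3
    obtain ⟨y, hy, hd⟩ := h3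
    refine ⟨c y, (hK y hy).trans (le_max_left _ _), ?_⟩
    rw [← dist_pow, hc y hy]
    exact hd
  obtain ⟨K, hK0, hK⟩ := h1
  obtain ⟨p, hp1, hp2⟩ := hret K
  -- one step
  have step : ∀ n : ℤ, dist ((U ^ n) u) u ≤ ρ →
      ∃ m : ℤ, n < m ∧ m ≤ n + (p + K) ∧ dist ((U ^ m) u) u ≤ ρ := by
    intro n hn
    obtain ⟨m, hm1, hm2⟩ := hK (n + p) (by linarith [dist_add U n p u])
    have := abs_le.mp hm1
    refine ⟨n + p - m, by linarith, by linarith, hm2.le⟩
  have hz : dist ((U ^ (0 : ℤ)) u) u ≤ ρ := by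
    rw [zpow_zero]
    show dist u u ≤ ρ
    rw [dist_self]
    exact hρ.le
  -- nonnegative times
  have hpos : ∀ j : ℕ, ∃ m : ℤ, (j : ℤ) ≤ m ∧ m ≤ j + (p + K) ∧ dist ((U ^ m) u) u ≤ ρ := by
    intro j
    induction j with
    | zero => exact ⟨0, by simp, by simp; linarith, hz⟩
    | succ j ih =>
      obtain ⟨m, hm1, hm2, hm3⟩ := ih
      by_cases hj : ((j + 1 : ℕ) : ℤ) ≤ m
      · exact ⟨m, hj, by push_cast; linarith, hm3⟩
      · obtain ⟨m', h1, h2, h3⟩ := step m hm3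
        have hj' : m = j := by
          push_cast at hj
          omega
        refine ⟨m', ?_, ?_, h3⟩
        · push_cast
          omega
        · push_cast
          omega
  refine ⟨2 * (p + K) + 2, by linarith, fun n => ?_⟩
  rcases le_or_gt 0 n with h | h
  · obtain ⟨m, h1, h2, h3⟩ := hpos (n + 1).toNat
    have h4 : (((n + 1).toNat : ℕ) : ℤ) = n + 1 := Int.toNat_of_nonneg (by linarith)
    rw [h4] at h1 h2
    exact ⟨m, by linarith, by linarith, h3⟩
  · rcases le_or_gt (n + (p + K) + 1) 0 with h' | h'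
    · obtain ⟨m, h1, h2, h3⟩ := hpos (-(n + (p + K) + 1)).toNat
      have h4 : (((-(n + (p + K) + 1)).toNat : ℕ) : ℤ) = -(n + (p + K) + 1) :=
        Int.toNat_of_nonneg (by linarith)
      rw [h4] at h1 h2
      refine ⟨-m, by linarith, by linarith, ?_⟩
      rw [dist_neg]
      exact h3
    · exact ⟨0, h, by linarith, hz⟩

end orbit

end

end Pool.Agent.Work.MP_fa3ce5_an

end

section

/-!
# The abstract mixing theorem
-/

set_option autoImplicit false

namespace Pool.Agent.Work.MP_fa3ce5_an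

open Filter Topology Set
open scoped InnerProductSpace

noncomputable section

theorem sum_ge (f : ℕ → ℝ) (hf : ∀ n, 0 ≤ f n) (c : ℝ) (L : ℕ)
    (h : ∀ n : ℕ, ∃ m : ℕ, n < m ∧ m ≤ n + L ∧ c ≤ f m) (N : ℕ) :
    (N : ℝ) * c ≤ ∑ n ∈ Finset.range (L * N + 1), f n := by
  induction N with
  | zero =>
    have := Finset.sum_nonneg (fun n (_ : n ∈ Finset.range (L * 0 + 1)) => hf n)
    simpa using this
  | succ N ih =>
    obtain ⟨m, h1, h2, h3⟩ := h (L * N)
    have h4 : Finset.range (L * N + 1) ⊆ Finset.range (L * (N + 1) + 1) := by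
      apply Finset.range_subset_range.mpr
      nlinarith
    have h5 : m ∈ Finset.range (L * (N + 1) + 1) \ Finset.range (L * N + 1) := by
      rw [Finset.mem_sdiff, Finset.mem_range, Finset.mem_range]
      constructor
      · have : L * (N + 1) = L * N + L := by ring
        omega
      · omega
    rw [← Finset.sum_sdiff h4]
    have h6 := Finset.single_le_sum (fun n _ => hf n) h5
    push_cast
    linarith

theorem avg_contra (f : ℕ → ℝ) (hf : ∀ n, 0 ≤ f n) (c : ℝ) (hc : 0 < c) (L : ℕ)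
    (h : ∀ n : ℕ, ∃ m : ℕ, n < m ∧ m ≤ n + L ∧ c ≤ f m)
    (hav : Tendsto (fun N : ℕ => (N : ℝ)⁻¹ * ∑ n ∈ Finset.range N, f n) atTop (𝓝 0)) : False := by
  have hL : 0 < L := by
    obtain ⟨m, h1, h2, _⟩ := h 0
    omega
  have hsub : Tendsto (fun N : ℕ => L * N + 1) atTop atTop := by
    apply tendsto_atTop_mono (fun N => ?_) tendsto_id
    show N ≤ L * N + 1
    nlinarith
  have h1 := hav.comp hsub
  have h2 : ∀ᶠ N : ℕ in atTop, c / (L + 1) ≤
      ((fun N : ℕ => (N : ℝ)⁻¹ * ∑ n ∈ Finset.range N, f n) ∘ (fun N : ℕ => L * N + 1)) N := by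
    filter_upwards [eventually_ge_atTop 1] with N hN
    show c / (L + 1) ≤ ((L * N + 1 : ℕ) : ℝ)⁻¹ * ∑ n ∈ Finset.range (L * N + 1), f n
    have h3 := sum_ge f hf c L h N
    have hN' : (1 : ℝ) ≤ N := by exact_mod_cast hN
    have hL' : (0 : ℝ) < L := by exact_mod_cast hL
    have h4 : (0 : ℝ) < ((L * N + 1 : ℕ) : ℝ) := by positivity
    have h5 : ((L * N + 1 : ℕ) : ℝ) * c ≤
        (∑ n ∈ Finset.range (L * N + 1), f n) * ((L : ℝ) + 1) := by
      have h6 : ((L * N + 1 : ℕ) : ℝ) * c ≤ (N * c) * ((L : ℝ) + 1) := by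
        push_cast
        nlinarith [mul_nonneg hc.le (sub_nonneg.mpr hN')]
      exact h6.trans (mul_le_mul_of_nonneg_right h3 (by positivity))
    rw [div_le_iff₀ (by positivity)]
    have h7 := mul_le_mul_of_nonneg_left h5 (inv_nonneg.mpr h4.le)
    rw [← mul_assoc, inv_mul_cancel₀ h4.ne', one_mul, ← mul_assoc] at h7
    exact h7
  have h3 := ge_of_tendsto h1 h2
  have h4 : 0 < c / ((L : ℝ) + 1) := by positivity
  linarith

namespace Dat

variable {H M : Type*} [NormedAddCommGroup H] [InnerProductSpace ℝ H] [CompleteSpace H]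
  [NormedAddCommGroup M] [InnerProductSpace ℝ M] [CompleteSpace M] (D : Dat H M)

/-- the weak limits of the powers of the operator vanish on the space of the factor -/
theorem PP_zero
    (hav : ∀ u : H, ⟪u, D.e⟫_ℝ = 0 → Tendsto (fun N : ℕ => (N : ℝ)⁻¹ * ∑ n ∈ Finset.range N,
      ⟪(D.U ^ (n : ℤ)) u, u⟫_ℝ ^ 2) atTop (𝓝 0))
    (hZe : ∀ v, ∀ k ∈ D.Z, D.Θ D.e v k = 0) (𝒰 : Ultrafilter ℤ)
    (h𝒰 : (𝒰 : Filter ℤ) ≤ cofinite) {k : M} (hk : k ∈ D.Z) : PP D.V 𝒰 k = 0 := by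
  by_contra hne
  obtain ⟨k', hk'⟩ : ∃ k', k' = AA D.V 𝒰 k := ⟨_, rfl⟩
  have hk'Z : k' ∈ D.Z := by
    rw [hk']
    exact D.AA_mem 𝒰 hk
  have hk'0 : k' ≠ 0 := by
    intro h
    apply hne
    have h1 : ‖PP D.V 𝒰 k‖ ^ 2 = 0 := by
      rw [← real_inner_self_eq_norm_sq, ← inner_AA, ← hk', h, inner_zero_left]
    simpa using h1
  have hfix : AA D.V 𝒰 k' = k' := by
    rw [hk']
    exact D.AA_idem 𝒰 hk
  obtain ⟨u, hu0, huE, hu⟩ := D.exists_vec hk'Z hk'0
  have hufix := D.Eig_fix 𝒰 hk'Z hk'0 hfix huE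
  have hue : ⟪u, D.e⟫_ℝ = 0 := D.Eig_orth hk'Z hk'0 D.e (fun v => hZe v _ hk'Z) huE
  have hupos : 0 < ‖u‖ := norm_pos_iff.mpr hu0
  have htb := tb_of_partial D.U u hu (2 * (‖u‖ / 2)) (by positivity) (by nlinarith)
  obtain ⟨L, hL0, hL⟩ := syndetic D.U u (‖u‖ / 2) (by positivity) htb
    (fun N => exists_return D.U 𝒰 h𝒰 u hufix _ (by positivity) N)
  refine avg_contra (fun n : ℕ => ⟪(D.U ^ (n : ℤ)) u, u⟫_ℝ ^ 2) (fun n => sq_nonneg _)
    ((7 / 8 * ‖u‖ ^ 2) ^ 2) (by positivity) L.toNat ?_ (hav u hue)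
  intro n
  obtain ⟨m, h1, h2, h3⟩ := hL n
  have hLn : ((L.toNat : ℕ) : ℤ) = L := Int.toNat_of_nonneg hL0.le
  have hm0 : 0 ≤ m := by
    have : (0 : ℤ) ≤ n := by positivity
    linarith
  have hmn : ((m.toNat : ℕ) : ℤ) = m := Int.toNat_of_nonneg hm0
  refine ⟨m.toNat, by omega, by omega, ?_⟩
  show _ ≤ ⟪(D.U ^ ((m.toNat : ℕ) : ℤ)) u, u⟫_ℝ ^ 2
  rw [hmn]
  apply pow_le_pow_left₀ (by positivity)
  rw [inner_of_dist]
  have h4 : (dist ((D.U ^ m) u) u) ^ 2 ≤ (‖u‖ / 2) ^ 2 := pow_le_pow_left₀ dist_nonneg h3 2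
  nlinarith

end Dat

end

end Pool.Agent.Work.MP_fa3ce5_an

end

section

/-!
# Koopman operators, products of functions and independence
-/

set_option autoImplicit false

namespace Pool.Agent.Work.MP_fa3ce5_an

open Filter Topology Set MeasureTheory ProbabilityTheory
open scoped InnerProductSpace ENNReal

noncomputable section

section koop

variable {β : Type*} [MeasurableSpace β] {ν : Measure β}

theorem inner_eq (f g : Lp ℝ 2 ν) : ⟪f, g⟫_ℝ = ∫ a, f a * g a ∂ν := by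
  rw [L2.inner_def]
  refine integral_congr_ae (Eventually.of_forall (fun a => ?_))
  show ⟪f a, g a⟫_ℝ = f a * g a
  rw [real_inner_comm]
  simp [inner]

/-- the Koopman operator -/
def koop (S : β ≃ᵐ β) (hS : MeasurePreserving S ν ν) : Lp ℝ 2 ν ≃ₗᵢ[ℝ] Lp ℝ 2 ν :=
  LinearIsometryEquiv.ofSurjective (Lp.compMeasurePreservingₗᵢ ℝ S hS) (by
    intro g
    refine ⟨Lp.compMeasurePreserving S.symm (hS.symm S) g, ?_⟩
    show Lp.compMeasurePreserving S hS (Lp.compMeasurePreserving S.symm (hS.symm S) g) = g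
    rw [← Lp.compMeasurePreserving_comp_apply g (hS.symm S) hS]
    have h1 : (S.symm : β → β) ∘ S = id := by
      funext x
      simp
    have h2 := Lp.coeFn_compMeasurePreserving g ((hS.symm S).comp hS)
    apply Lp.ext
    refine h2.trans ?_
    rw [h1]
    rfl)

theorem koop_coe (S : β ≃ᵐ β) (hS : MeasurePreserving S ν ν) (f : Lp ℝ 2 ν) :
    koop S hS f =ᵐ[ν] f ∘ S :=
  Lp.coeFn_compMeasurePreserving f hS

theorem koop_symm_coe (S : β ≃ᵐ β) (hS : MeasurePreserving S ν ν) (f : Lp ℝ 2 ν) :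
    (koop S hS).symm f =ᵐ[ν] f ∘ S.symm := by
  have h1 := koop_coe S hS ((koop S hS).symm f)
  rw [LinearIsometryEquiv.apply_symm_apply] at h1
  have h2 := (hS.symm S).quasiMeasurePreserving.ae_eq_comp h1
  refine EventuallyEq.trans ?_ h2.symm
  refine Eventually.of_forall (fun x => ?_)
  simp

theorem koop_pow_coe (S : β ≃ᵐ β) (hS : MeasurePreserving S ν ν) (n : ℕ) (f : Lp ℝ 2 ν) :
    (koop S hS ^ (n : ℤ)) f =ᵐ[ν] f ∘ (S : β → β)^[n] := by
  induction n with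
  | zero =>
    simp only [Nat.cast_zero, zpow_zero, Function.iterate_zero, Function.comp_id]
    exact Eventually.of_forall (fun x => rfl)
  | succ n ih =>
    rw [show ((n + 1 : ℕ) : ℤ) = 1 + (n : ℤ) by push_cast; ring, pow_add_apply, zpow_one]
    refine (koop_coe S hS _).trans ?_
    refine (hS.quasiMeasurePreserving.ae_eq_comp ih).trans ?_
    rw [Function.iterate_succ]
    rfl

end koop

section prod

variable {α : Type*} [MeasurableSpace α] {μ : Measure α} [IsProbabilityMeasure μ]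

theorem memLp_tens (u v : Lp ℝ 2 μ) : MemLp (fun p : α × α => u p.1 * v p.2) 2 (μ.prod μ) := by
  have hu := (memLp_two_iff_integrable_sq (Lp.aestronglyMeasurable u)).mp (Lp.memLp u)
  have hv := (memLp_two_iff_integrable_sq (Lp.aestronglyMeasurable v)).mp (Lp.memLp v)
  have hm : AEStronglyMeasurable (fun p : α × α => u p.1 * v p.2) (μ.prod μ) :=
    (Lp.aestronglyMeasurable u).comp_fst.mul (Lp.aestronglyMeasurable v).comp_snd
  rw [memLp_two_iff_integrable_sq hm]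
  refine (hu.mul_prod hv).congr (Eventually.of_forall (fun p => ?_))
  show u p.1 ^ 2 * v p.2 ^ 2 = (u p.1 * v p.2) ^ 2
  ring

/-- the tensor product of two functions -/
def tens (u v : Lp ℝ 2 μ) : Lp ℝ 2 (μ.prod μ) := (memLp_tens u v).toLp _

theorem tens_coe (u v : Lp ℝ 2 μ) : tens u v =ᵐ[μ.prod μ] fun p => u p.1 * v p.2 :=
  MemLp.coeFn_toLp _

theorem inner_tens (u v u' v' : Lp ℝ 2 μ) :
    ⟪tens u v, tens u' v'⟫_ℝ = ⟪u, u'⟫_ℝ * ⟪v, v'⟫_ℝ := by
  rw [inner_eq, inner_eq, inner_eq, ← integral_prod_mul]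
  refine integral_congr_ae ?_
  filter_upwards [tens_coe u v, tens_coe u' v'] with p h1 h2
  rw [h1, h2]
  ring

theorem inner_tens_left (u v : Lp ℝ 2 μ) (k : Lp ℝ 2 (μ.prod μ)) :
    ⟪tens u v, k⟫_ℝ = ∫ p, u p.1 * v p.2 * k p ∂(μ.prod μ) := by
  rw [inner_eq]
  refine integral_congr_ae ?_
  filter_upwards [tens_coe u v] with p h1
  rw [h1]

/-- the product transformation -/
def prodEquiv (T : α ≃ᵐ α) : α × α ≃ᵐ α × α := MeasurableEquiv.prodCongr T T

theorem prodEquiv_coe (T : α ≃ᵐ α) : (prodEquiv T : α × α → α × α) = Prod.map T T := rfl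

theorem prodEquiv_mp (T : α ≃ᵐ α) (hT : MeasurePreserving T μ μ) :
    MeasurePreserving (prodEquiv T) (μ.prod μ) (μ.prod μ) := by
  rw [prodEquiv_coe]
  exact hT.prod hT

theorem koop_tens (T : α ≃ᵐ α) (hT : MeasurePreserving T μ μ) (u v : Lp ℝ 2 μ) :
    koop (prodEquiv T) (prodEquiv_mp T hT) (tens u v) = tens (koop T hT u) (koop T hT v) := by
  apply Lp.ext
  refine (koop_coe _ _ _).trans ?_
  refine ((prodEquiv_mp T hT).quasiMeasurePreserving.ae_eq_comp (tens_coe u v)).trans ?_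
  have h1 : ∀ᵐ p ∂(μ.prod μ), (koop T hT u) p.1 = u (T p.1) :=
    (Measure.quasiMeasurePreserving_fst (μ := μ) (ν := μ)).ae_eq_comp (koop_coe T hT u)
  have h2 : ∀ᵐ p ∂(μ.prod μ), (koop T hT v) p.2 = v (T p.2) :=
    (Measure.quasiMeasurePreserving_snd (μ := μ) (ν := μ)).ae_eq_comp (koop_coe T hT v)
  filter_upwards [tens_coe (koop T hT u) (koop T hT v), h1, h2] with p h3 h4 h5
  rw [h3, h4, h5]
  rfl

/-- independence and products, with a map `q` to the coordinate -/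
theorem indep_mul {Ω : Type*} {F : MeasurableSpace Ω} [mΩ : MeasurableSpace Ω] {ν : Measure Ω}
    [IsProbabilityMeasure ν] (q : Ω → α)
    (hq : MeasurePreserving q ν μ)
    (hI : Indep F (MeasurableSpace.comap q (inferInstance : MeasurableSpace α)) ν)
    {f : Ω → ℝ} (hf : Integrable f ν) (hfm : AEStronglyMeasurable[F] f ν) {w : α → ℝ}
    (hw : Integrable w μ) :
    Integrable (fun p => f p * w (q p)) ν ∧
      ∫ p, f p * w (q p) ∂ν = (∫ p, f p ∂ν) * ∫ x, w x ∂μ := by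
  obtain ⟨f₀, hf₀, hff₀⟩ := hfm
  obtain ⟨w₀, hw₀, hww₀⟩ := hw.aestronglyMeasurable
  have hwq : (fun p => w (q p)) =ᵐ[ν] fun p => w₀ (q p) :=
    hq.quasiMeasurePreserving.ae_eq_comp hww₀
  have hind : IndepFun f₀ (fun p => w₀ (q p)) ν := by
    refine indep_of_indep_of_le_left (indep_of_indep_of_le_right hI ?_) ?_
    · have h1 : (inferInstance : MeasurableSpace ℝ).comap (fun p => w₀ (q p)) =
          ((inferInstance : MeasurableSpace ℝ).comap w₀).comap q := by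
        rw [MeasurableSpace.comap_comp]
        rfl
      rw [h1]
      exact MeasurableSpace.comap_mono hw₀.measurable.comap_le
    · exact hf₀.measurable.comap_le
  have hwi : Integrable (fun p => w₀ (q p)) ν := by
    refine Integrable.congr ?_ hwq
    exact hq.integrable_comp_of_integrable hw
  have hfi : Integrable f₀ ν := hf.congr hff₀
  have h2 := hind.integrable_mul hfi hwi
  have h3 := hind.integral_mul_eq_mul_integral hfi.aestronglyMeasurable hwi.aestronglyMeasurable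
  have h4 : (fun p => f p * w (q p)) =ᵐ[ν] f₀ * (fun p => w₀ (q p)) := by
    filter_upwards [hff₀, hwq] with p h5 h6
    show f p * w (q p) = f₀ p * w₀ (q p)
    rw [h5, h6]
  refine ⟨h2.congr h4.symm, ?_⟩
  have h5 : ∫ p, w₀ (q p) ∂ν = ∫ x, w x ∂μ := by
    rw [integral_congr_ae hww₀, ← hq.map_eq, integral_map hq.measurable.aemeasurable
      hw₀.aestronglyMeasurable]
  rw [integral_congr_ae h4, h3, integral_congr_ae hff₀, h5]

end prod

end

end Pool.Agent.Work.MP_fa3ce5_an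

end

section

/-!
# The space of a factor and the products
-/

set_option autoImplicit false

namespace Pool.Agent.Work.MP_fa3ce5_an

open Filter Topology Set MeasureTheory ProbabilityTheory
open scoped InnerProductSpace ENNReal

noncomputable section

variable {α : Type*} [MeasurableSpace α] {μ : Measure α} [IsProbabilityMeasure μ]
  {Ω : Type*} {F : MeasurableSpace Ω} [mΩ : MeasurableSpace Ω] {ν : Measure Ω}
  [IsProbabilityMeasure ν]

/-- the constant function `1` -/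
def one (ν : Measure Ω) [IsProbabilityMeasure ν] : Lp ℝ 2 ν := (memLp_const (1 : ℝ)).toLp _

theorem one_coe : (one ν : Ω → ℝ) =ᵐ[ν] fun _ => 1 := MemLp.coeFn_toLp _

theorem inner_one (k : Lp ℝ 2 ν) : ⟪one ν, k⟫_ℝ = ∫ p, k p ∂ν := by
  rw [inner_eq]
  refine integral_congr_ae ?_
  filter_upwards [one_coe (ν := ν)] with p h
  rw [h, one_mul]

/-- the square integrable functions of integral zero measurable for the factor -/
def ZF (F : MeasurableSpace Ω) [mΩ : MeasurableSpace Ω] (ν : Measure Ω) [IsProbabilityMeasure ν] :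
    Submodule ℝ (Lp ℝ 2 ν) :=
  lpMeas ℝ ℝ F 2 ν ⊓ (ℝ ∙ one ν)ᗮ

theorem mem_ZF (k : Lp ℝ 2 ν) : k ∈ ZF F ν ↔ AEStronglyMeasurable[F] k ν ∧ ∫ p, k p ∂ν = 0 := by
  unfold ZF
  rw [Submodule.mem_inf, mem_lpMeas_iff_aestronglyMeasurable,
    Submodule.mem_orthogonal_singleton_iff_inner_right, inner_one]

theorem closed_ZF (hF : F ≤ mΩ) : IsClosed (ZF F ν : Set (Lp ℝ 2 ν)) := by
  unfold ZF
  rw [Submodule.coe_inf]
  refine IsClosed.inter ?_ (Submodule.isClosed_orthogonal _)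
  have h1 := isClosed_aestronglyMeasurable (F := ℝ) (p := 2) (μ := ν) hF
  exact h1

theorem ZF_koop (S : Ω ≃ᵐ Ω) (hS : MeasurePreserving S ν ν)
    (hFS : ∀ s : Set Ω, MeasurableSet[F] s ↔ MeasurableSet[F] (S ⁻¹' s)) {k : Lp ℝ 2 ν}
    (hk : k ∈ ZF F ν) : koop S hS k ∈ ZF F ν := by
  rw [mem_ZF] at hk ⊢
  obtain ⟨⟨k₀, hk₀, hkk₀⟩, hk2⟩ := hk
  have hSm : @Measurable Ω Ω F F S := fun s hs => (hFS s).mp hs
  constructor
  · refine ⟨k₀ ∘ S, hk₀.comp_measurable hSm, ?_⟩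
    exact (koop_coe S hS k).trans (hS.quasiMeasurePreserving.ae_eq_comp hkk₀)
  · rw [integral_congr_ae (koop_coe S hS k), ← hk2]
    exact hS.integral_comp' (g := fun p => k p)

theorem ZF_koop_symm (S : Ω ≃ᵐ Ω) (hS : MeasurePreserving S ν ν)
    (hFS : ∀ s : Set Ω, MeasurableSet[F] s ↔ MeasurableSet[F] (S ⁻¹' s)) {k : Lp ℝ 2 ν}
    (hk : k ∈ ZF F ν) : (koop S hS).symm k ∈ ZF F ν := by
  rw [mem_ZF] at hk ⊢
  obtain ⟨⟨k₀, hk₀, hkk₀⟩, hk2⟩ := hk
  have hSm : @Measurable Ω Ω F F S.symm := by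
    intro s hs
    rw [hFS]
    have h1 : (S : Ω → Ω) ⁻¹' (S.symm ⁻¹' s) = s := by
      ext x
      simp
    rw [h1]
    exact hs
  constructor
  · refine ⟨k₀ ∘ S.symm, hk₀.comp_measurable hSm, ?_⟩
    exact (koop_symm_coe S hS k).trans ((hS.symm S).quasiMeasurePreserving.ae_eq_comp hkk₀)
  · rw [integral_congr_ae (koop_symm_coe S hS k), ← hk2]
    exact (hS.symm S).integral_comp' (g := fun p => k p)

theorem memLp_mulq (q : Ω → α) (hq : MeasurePreserving q ν μ)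
    (hI : Indep F (MeasurableSpace.comap q (inferInstance : MeasurableSpace α)) ν)
    (u : Lp ℝ 2 μ) (k : Lp ℝ 2 ν) (hk : AEStronglyMeasurable[F] k ν) :
    MemLp (fun p => u (q p) * k p) 2 ν := by
  have hu := (memLp_two_iff_integrable_sq (Lp.aestronglyMeasurable u)).mp (Lp.memLp u)
  have hv := (memLp_two_iff_integrable_sq (Lp.aestronglyMeasurable k)).mp (Lp.memLp k)
  have hm : AEStronglyMeasurable (fun p => u (q p) * k p) ν :=
    ((Lp.aestronglyMeasurable u).comp_measurePreserving hq).mul (Lp.aestronglyMeasurable k)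
  rw [memLp_two_iff_integrable_sq hm]
  have hk2 : AEStronglyMeasurable[F] (fun p => k p ^ 2) ν := by
    obtain ⟨k₀, hk₀, hkk₀⟩ := hk
    refine ⟨fun p => k₀ p ^ 2, hk₀.pow 2, ?_⟩
    filter_upwards [hkk₀] with p hp
    rw [hp]
  have h1 := (indep_mul q hq hI hv hk2 hu).1
  refine h1.congr (Eventually.of_forall (fun p => ?_))
  show k p ^ 2 * u (q p) ^ 2 = (u (q p) * k p) ^ 2
  ring

open Classical in
/-- the product of a function of the coordinate `q` and a function on the whole space -/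
def mulq (q : Ω → α) (u : Lp ℝ 2 μ) (k : Lp ℝ 2 ν) : Lp ℝ 2 ν :=
  if h : MemLp (fun p => u (q p) * k p) 2 ν then h.toLp _ else 0

theorem mulq_coe (q : Ω → α) (hq : MeasurePreserving q ν μ)
    (hI : Indep F (MeasurableSpace.comap q (inferInstance : MeasurableSpace α)) ν)
    (u : Lp ℝ 2 μ) (k : Lp ℝ 2 ν) (hk : AEStronglyMeasurable[F] k ν) :
    mulq q u k =ᵐ[ν] fun p => u (q p) * k p := by
  have h := memLp_mulq q hq hI u k hk
  unfold mulq
  rw [dif_pos h]
  exact MemLp.coeFn_toLp _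

theorem integrable_mul_Lp {β : Type*} [MeasurableSpace β] {ρ : Measure β} (f g : Lp ℝ 2 ρ) :
    Integrable (fun p => f p * g p) ρ :=
  (Lp.memLp f).integrable_mul (Lp.memLp g)

theorem aesm_mul (f g : Ω → ℝ) (hf : AEStronglyMeasurable[F] f ν)
    (hg : AEStronglyMeasurable[F] g ν) : AEStronglyMeasurable[F] (fun p => f p * g p) ν := by
  obtain ⟨f₀, hf₀, hff₀⟩ := hf
  obtain ⟨g₀, hg₀, hgg₀⟩ := hg
  refine ⟨fun p => f₀ p * g₀ p, hf₀.mul hg₀, ?_⟩
  filter_upwards [hff₀, hgg₀] with p h1 h2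
  rw [h1, h2]

theorem inner_mulq (q : Ω → α) (hq : MeasurePreserving q ν μ)
    (hI : Indep F (MeasurableSpace.comap q (inferInstance : MeasurableSpace α)) ν)
    (u : Lp ℝ 2 μ) (k : Lp ℝ 2 ν) (hk : AEStronglyMeasurable[F] k ν) (u' : Lp ℝ 2 μ)
    (k' : Lp ℝ 2 ν) (hk' : AEStronglyMeasurable[F] k' ν) :
    ⟪mulq q u k, mulq q u' k'⟫_ℝ = ⟪u, u'⟫_ℝ * ⟪k, k'⟫_ℝ := by
  rw [inner_eq, inner_eq, inner_eq, mul_comm,
    ← (indep_mul q hq hI (integrable_mul_Lp k k') (aesm_mul _ _ hk hk') (integrable_mul_Lp u u')).2]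
  refine integral_congr_ae ?_
  filter_upwards [mulq_coe q hq hI u k hk, mulq_coe q hq hI u' k' hk'] with p h1 h2
  rw [h1, h2]
  ring

end

end Pool.Agent.Work.MP_fa3ce5_an

end

section

/-!
# The tensor data of an independent factor of the square
-/

set_option autoImplicit false

namespace Pool.Agent.Work.MP_fa3ce5_an

open Filter Topology Set MeasureTheory ProbabilityTheory
open scoped InnerProductSpace ENNReal

noncomputable section

variable {α : Type*} [MeasurableSpace α] {μ : Measure α} [IsProbabilityMeasure μ]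

/-- a function orthogonal to all the products is zero -/
theorem eq_zero_of_tens (k : Lp ℝ 2 (μ.prod μ)) (h : ∀ u v : Lp ℝ 2 μ, ⟪tens u v, k⟫_ℝ = 0) :
    k = 0 := by
  have hk : Integrable k (μ.prod μ) := (Lp.memLp k).integrable (by norm_num)
  have h1 : ∀ s : Set (α × α), MeasurableSet s → ∫ p in s, k p ∂(μ.prod μ) = 0 := by
    have huniv : ∫ p, k p ∂(μ.prod μ) = 0 := by
      rw [← h (one μ) (one μ), inner_tens_left]
      refine integral_congr_ae ?_
      have h2 : ∀ᵐ p ∂(μ.prod μ), (one μ : α → ℝ) p.1 = 1 :=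
        (Measure.quasiMeasurePreserving_fst (μ := μ) (ν := μ)).ae_eq_comp (one_coe (ν := μ))
      have h3 : ∀ᵐ p ∂(μ.prod μ), (one μ : α → ℝ) p.2 = 1 :=
        (Measure.quasiMeasurePreserving_snd (μ := μ) (ν := μ)).ae_eq_comp (one_coe (ν := μ))
      filter_upwards [h2, h3] with p h4 h5
      rw [h4, h5]
      ring
    intro s hs
    induction s, hs using MeasurableSpace.induction_on_inter generateFrom_prod.symm
      isPiSystem_prod with
    | empty => simp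
    | basic t ht =>
      obtain ⟨A, hA, B, hB, rfl⟩ := ht
      have hA' : MeasurableSet A := hA
      have hB' : MeasurableSet B := hB
      rw [← h (indicatorConstLp 2 hA' (measure_ne_top μ A) (1 : ℝ))
        (indicatorConstLp 2 hB' (measure_ne_top μ B) (1 : ℝ)), inner_tens_left,
        ← integral_indicator (hA'.prod hB')]
      refine integral_congr_ae ?_
      have h2 : ∀ᵐ p ∂(μ.prod μ), (indicatorConstLp 2 hA' (measure_ne_top μ A) (1 : ℝ)) p.1 =
          A.indicator (fun _ => (1 : ℝ)) p.1 :=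
        (Measure.quasiMeasurePreserving_fst (μ := μ) (ν := μ)).ae_eq_comp indicatorConstLp_coeFn
      have h3 : ∀ᵐ p ∂(μ.prod μ), (indicatorConstLp 2 hB' (measure_ne_top μ B) (1 : ℝ)) p.2 =
          B.indicator (fun _ => (1 : ℝ)) p.2 :=
        (Measure.quasiMeasurePreserving_snd (μ := μ) (ν := μ)).ae_eq_comp indicatorConstLp_coeFn
      filter_upwards [h2, h3] with p h4 h5
      rw [h4, h5]
      by_cases h6 : p.1 ∈ A <;> by_cases h7 : p.2 ∈ B <;>
        simp [h6, h7, Set.indicator, Set.mem_prod]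
    | compl t ht ih =>
      have h2 := integral_add_compl ht hk
      linarith
    | iUnion f hd hf ih =>
      rw [integral_iUnion hf hd hk.integrableOn]
      simp [ih]
  have h2 : k =ᵐ[μ.prod μ] 0 :=
    Lp.ae_eq_zero_of_forall_setIntegral_eq_zero k (by norm_num) (by norm_num)
      (fun s _ _ => hk.integrableOn) (fun s hs _ => h1 s hs)
  exact Lp.eq_zero_iff_ae_eq_zero.mpr h2

/-- the data of an independent factor (given as a function of `Unit`, so that it is not used as an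
instance) -/
def dat (F : Unit → MeasurableSpace (α × α))
    (hF : F () ≤ (Prod.instMeasurableSpace : MeasurableSpace (α × α)))
    (T : α ≃ᵐ α) (hT : MeasurePreserving T μ μ)
    (hFS : ∀ s : Set (α × α), MeasurableSet[F ()] s ↔ MeasurableSet[F ()] (Prod.map T T ⁻¹' s))
    (hI₁ : Indep (F ()) (MeasurableSpace.comap Prod.fst (inferInstance : MeasurableSpace α)) (μ.prod μ))
    (hI₂ : Indep (F ()) (MeasurableSpace.comap Prod.snd (inferInstance : MeasurableSpace α)) (μ.prod μ)) :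
    Dat (Lp ℝ 2 μ) (Lp ℝ 2 (μ.prod μ)) where
  U := koop T hT
  V := koop (prodEquiv T) (prodEquiv_mp T hT)
  Z := ZF (F ()) (μ.prod μ)
  hZc := closed_ZF hF
  hZ1 := fun k hk => ZF_koop (prodEquiv T) (prodEquiv_mp T hT)
    hFS hk
  hZ2 := fun k hk => ZF_koop_symm (prodEquiv T)
    (prodEquiv_mp T hT) hFS hk
  τ := tens
  hτ := inner_tens
  hVτ := fun u v => koop_tens T hT u v
  hnd := fun k _ h => eq_zero_of_tens k h
  e := one μ
  σ₁ := fun u k => mulq Prod.fst u k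
  hσ₁ := fun u k hk u' k' hk' => inner_mulq Prod.fst
    measurePreserving_fst hI₁ u k ((mem_ZF k).mp hk).1 u' k' ((mem_ZF k').mp hk').1
  hτσ₁ := by
    intro u v k hk
    rw [inner_tens_left, inner_eq]
    refine integral_congr_ae ?_
    have h2 : ∀ᵐ p ∂(μ.prod μ), (one μ : α → ℝ) p.1 = 1 :=
      (Measure.quasiMeasurePreserving_fst (μ := μ) (ν := μ)).ae_eq_comp (one_coe (ν := μ))
    filter_upwards [tens_coe (one μ) v, h2, mulq_coe Prod.fst
      measurePreserving_fst hI₁ u k ((mem_ZF k).mp hk).1] with p h3 h4 h5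
    rw [h3, h4, h5]
    ring
  σ₂ := fun u k => mulq Prod.snd u k
  hσ₂ := fun u k hk u' k' hk' => inner_mulq Prod.snd
    measurePreserving_snd hI₂ u k ((mem_ZF k).mp hk).1 u' k' ((mem_ZF k').mp hk').1
  hτσ₂ := by
    intro u v k hk
    rw [inner_tens_left, inner_eq]
    refine integral_congr_ae ?_
    have h2 : ∀ᵐ p ∂(μ.prod μ), (one μ : α → ℝ) p.2 = 1 :=
      (Measure.quasiMeasurePreserving_snd (μ := μ) (ν := μ)).ae_eq_comp (one_coe (ν := μ))
    filter_upwards [tens_coe u (one μ), h2, mulq_coe Prod.snd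
      measurePreserving_snd hI₂ v k ((mem_ZF k).mp hk).1] with p h3 h4 h5
    rw [h3, h4, h5]
    ring

/-- the mean ergodic theorem: the averages of the squares of the correlations tend to zero -/
theorem avg_zero (T : α ≃ᵐ α) (hT : MeasurePreserving T μ μ)
    (hE : Ergodic (Prod.map T T) (μ.prod μ)) (u : Lp ℝ 2 μ) (hu : ⟪u, one μ⟫_ℝ = 0) :
    Tendsto (fun N : ℕ => (N : ℝ)⁻¹ * ∑ n ∈ Finset.range N, ⟪(koop T hT ^ (n : ℤ)) u, u⟫_ℝ ^ 2)
      atTop (𝓝 0) := by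
  obtain ⟨V, hV⟩ : ∃ V, V = koop (prodEquiv T) (prodEquiv_mp T hT) := ⟨_, rfl⟩
  let f : Lp ℝ 2 (μ.prod μ) →L[ℝ] Lp ℝ 2 (μ.prod μ) := (V.toContinuousLinearEquiv :
    Lp ℝ 2 (μ.prod μ) →L[ℝ] Lp ℝ 2 (μ.prod μ))
  have hfV : ∀ x, f x = V x := fun x => rfl
  have hf : ‖f‖ ≤ 1 := by
    refine ContinuousLinearMap.opNorm_le_bound _ zero_le_one (fun x => ?_)
    rw [one_mul, hfV, LinearIsometryEquiv.norm_map]
  have h1 := f.tendsto_birkhoffAverage_orthogonalProjection hf (tens u u)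
  obtain ⟨w, hw⟩ : ∃ w : f.eqLocus (1 : Lp ℝ 2 (μ.prod μ) →L[ℝ] Lp ℝ 2 (μ.prod μ)),
    w = (f.eqLocus (1 : Lp ℝ 2 (μ.prod μ) →L[ℝ] Lp ℝ 2 (μ.prod μ))).orthogonalProjectionOnto
      (tens u u) := ⟨_, rfl⟩
  rw [← hw] at h1
  -- the projection is constant
  have hw1 : V (w : Lp ℝ 2 (μ.prod μ)) = w := w.2
  have hw2 : ∃ c : ℝ, (w : Lp ℝ 2 (μ.prod μ)) = c • one (μ.prod μ) := by
    have h2 : (w : Lp ℝ 2 (μ.prod μ)) ∘ (Prod.map T T) =ᵐ[μ.prod μ] (w : Lp ℝ 2 (μ.prod μ)) := by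
      have h3 := koop_coe (prodEquiv T) (prodEquiv_mp T hT) (w : Lp ℝ 2 (μ.prod μ))
      rw [← hV, hw1] at h3
      exact h3.symm
    obtain ⟨c, hc⟩ := hE.ae_eq_const_of_ae_eq_comp_ae
      (Lp.aestronglyMeasurable (w : Lp ℝ 2 (μ.prod μ))) h2
    refine ⟨c, Lp.ext ?_⟩
    filter_upwards [hc, Lp.coeFn_smul c (one (μ.prod μ)), one_coe (ν := μ.prod μ)] with p h4 h5 h6
    rw [h4, h5, Pi.smul_apply, h6]
    simp
  obtain ⟨c, hc⟩ := hw2
  have hone : one (μ.prod μ) = tens (one μ) (one μ) := by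
    apply Lp.ext
    have h2 : ∀ᵐ p ∂(μ.prod μ), (one μ : α → ℝ) p.1 = 1 :=
      (Measure.quasiMeasurePreserving_fst (μ := μ) (ν := μ)).ae_eq_comp (one_coe (ν := μ))
    have h3 : ∀ᵐ p ∂(μ.prod μ), (one μ : α → ℝ) p.2 = 1 :=
      (Measure.quasiMeasurePreserving_snd (μ := μ) (ν := μ)).ae_eq_comp (one_coe (ν := μ))
    filter_upwards [one_coe (ν := μ.prod μ), tens_coe (one μ) (one μ), h2, h3] with p h4 h5 h6 h7
    rw [h4, h5, h6, h7]
    ring
  have hz : ⟪(w : Lp ℝ 2 (μ.prod μ)), tens u u⟫_ℝ = 0 := by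
    rw [hc, real_inner_smul_left, hone, inner_tens, real_inner_comm, hu]
    ring
  have h2 : Tendsto (fun N => ⟪birkhoffAverage ℝ f _root_.id N (tens u u), tens u u⟫_ℝ) atTop
      (𝓝 ⟪(w : Lp ℝ 2 (μ.prod μ)), tens u u⟫_ℝ) := h1.inner tendsto_const_nhds
  rw [hz] at h2
  refine h2.congr (fun N => ?_)
  have hit : ∀ n : ℕ, f^[n] (tens u u) = (V ^ (n : ℤ)) (tens u u) := by
    intro n
    induction n with
    | zero => simp
    | succ n ih =>
      rw [Function.iterate_succ_apply', ih, hfV, show ((n + 1 : ℕ) : ℤ) = 1 + (n : ℤ) by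
        push_cast; ring, pow_add_apply, zpow_one]
  have hpt : ∀ n : ℕ, (V ^ (n : ℤ)) (tens u u) =
      tens ((koop T hT ^ (n : ℤ)) u) ((koop T hT ^ (n : ℤ)) u) := by
    intro n
    induction n with
    | zero => simp
    | succ n ih =>
      rw [show ((n + 1 : ℕ) : ℤ) = 1 + (n : ℤ) by push_cast; ring, pow_add_apply, zpow_one, ih,
        pow_add_apply, zpow_one, hV, koop_tens]
  unfold birkhoffAverage birkhoffSum
  rw [real_inner_smul_left, sum_inner]
  congr 1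
  refine Finset.sum_congr rfl (fun n _ => ?_)
  show ⟪f^[n] (tens u u), tens u u⟫_ℝ = _
  rw [hit, hpt, inner_tens]
  ring

end

end Pool.Agent.Work.MP_fa3ce5_an

end

section

/-!
# An independent factor of the square is mixing
-/

set_option autoImplicit false

namespace Pool.Agent.Work.MP_fa3ce5_an

open Filter Topology Set MeasureTheory ProbabilityTheory
open scoped InnerProductSpace ENNReal

noncomputable section

variable {α : Type*} [MeasurableSpace α] {μ : Measure α} [IsProbabilityMeasure μ]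

theorem zero_of_dat (F : Unit → MeasurableSpace (α × α))
    (hF : F () ≤ (Prod.instMeasurableSpace : MeasurableSpace (α × α)))
    (T : α ≃ᵐ α) (hT : MeasurePreserving T μ μ) (hE : Ergodic (Prod.map T T) (μ.prod μ))
    (hFS : ∀ s : Set (α × α), MeasurableSet[F ()] s ↔ MeasurableSet[F ()] (Prod.map T T ⁻¹' s))
    (hI₁ : Indep (F ()) (MeasurableSpace.comap Prod.fst (inferInstance : MeasurableSpace α))
      (μ.prod μ))
    (hI₂ : Indep (F ()) (MeasurableSpace.comap Prod.snd (inferInstance : MeasurableSpace α))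
      (μ.prod μ)) (𝒰 : Ultrafilter ℤ) (h𝒰 : (𝒰 : Filter ℤ) ≤ cofinite)
    (k : Lp ℝ 2 (μ.prod μ)) (hk : k ∈ ZF (F ()) (mΩ := Prod.instMeasurableSpace) (μ.prod μ)) :
    PP (koop (prodEquiv T) (prodEquiv_mp T hT)) 𝒰 k = 0 := by
  refine (dat F hF T hT hFS hI₁ hI₂).PP_zero ?_ ?_ 𝒰 h𝒰 hk
  · intro u hu
    exact avg_zero T hT hE u hu
  · intro v k hk
    show ⟪tens (one μ) v, k⟫_ℝ = 0
    have hk' : AEStronglyMeasurable[F ()] k (μ.prod μ) ∧ ∫ p, k p ∂(μ.prod μ) = 0 :=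
      (mem_ZF (mΩ := Prod.instMeasurableSpace) k).mp hk
    rw [inner_tens_left]
    have h2 : ∀ᵐ p ∂(μ.prod μ), (one μ : α → ℝ) p.1 = 1 :=
      (Measure.quasiMeasurePreserving_fst (μ := μ) (ν := μ)).ae_eq_comp (one_coe (ν := μ))
    have h3 : ∫ p, (one μ : α → ℝ) p.1 * v p.2 * k p ∂(μ.prod μ) =
        ∫ p, k p * v p.2 ∂(μ.prod μ) := by
      refine integral_congr_ae ?_
      filter_upwards [h2] with p h4
      rw [h4]
      ring
    have hki : Integrable k (μ.prod μ) := (Lp.memLp k).integrable (by norm_num)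
    have hvi : Integrable v μ := (Lp.memLp v).integrable (by norm_num)
    rw [h3, (indep_mul (mΩ := Prod.instMeasurableSpace) Prod.snd measurePreserving_snd hI₂ hki
      hk'.1 hvi).2, hk'.2, zero_mul]

theorem tendsto_inner (F : Unit → MeasurableSpace (α × α))
    (hF : F () ≤ (Prod.instMeasurableSpace : MeasurableSpace (α × α)))
    (T : α ≃ᵐ α) (hT : MeasurePreserving T μ μ) (hE : Ergodic (Prod.map T T) (μ.prod μ))
    (hFS : ∀ s : Set (α × α), MeasurableSet[F ()] s ↔ MeasurableSet[F ()] (Prod.map T T ⁻¹' s))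
    (hI₁ : Indep (F ()) (MeasurableSpace.comap Prod.fst (inferInstance : MeasurableSpace α))
      (μ.prod μ))
    (hI₂ : Indep (F ()) (MeasurableSpace.comap Prod.snd (inferInstance : MeasurableSpace α))
      (μ.prod μ))
    (k : Lp ℝ 2 (μ.prod μ)) (hk : k ∈ ZF (F ()) (mΩ := Prod.instMeasurableSpace) (μ.prod μ))
    (g : Lp ℝ 2 (μ.prod μ)) :
    Tendsto (fun n : ℕ => ⟪(koop (prodEquiv T) (prodEquiv_mp T hT) ^ (n : ℤ)) k, g⟫_ℝ) atTop
      (𝓝 0) := by
  rw [tendsto_iff_ultrafilter]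
  intro 𝒰 h𝒰
  have h1 : ((𝒰.map (fun n : ℕ => (n : ℤ)) : Ultrafilter ℤ) : Filter ℤ) ≤ cofinite := by
    rw [Ultrafilter.coe_map]
    have h2 : Tendsto (fun n : ℕ => (n : ℤ)) cofinite cofinite :=
      Function.Injective.tendsto_cofinite Nat.cast_injective
    rw [Nat.cofinite_eq_atTop] at h2
    exact h2.mono_left h𝒰
  have h2 := PP_spec (koop (prodEquiv T) (prodEquiv_mp T hT)) (𝒰.map (fun n : ℕ => (n : ℤ))) k g
  rw [zero_of_dat F hF T hT hE hFS hI₁ hI₂ _ h1 k hk, inner_zero_left] at h2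
  exact h2

/-- the correlation of a set and a translate of a set of the factor -/
theorem inner_indicator (T : α ≃ᵐ α) (hT : MeasurePreserving T μ μ) {s t : Set (α × α)}
    (hs : MeasurableSet s) (ht : MeasurableSet t) (n : ℕ) :
    ⟪(koop (prodEquiv T) (prodEquiv_mp T hT) ^ (n : ℤ))
        (indicatorConstLp 2 ht (measure_ne_top (μ.prod μ) t) (1 : ℝ)),
      indicatorConstLp 2 hs (measure_ne_top (μ.prod μ) s) (1 : ℝ)⟫_ℝ =
      (μ.prod μ).real (s ∩ (Prod.map T T)^[n] ⁻¹' t) := by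
  have hm : Measurable ((Prod.map T T)^[n]) := ((prodEquiv T).measurable).iterate n
  have hmp : MeasurePreserving ((Prod.map T T)^[n]) (μ.prod μ) (μ.prod μ) :=
    (prodEquiv_mp T hT).iterate n
  rw [inner_eq, ← integral_indicator_one (hs.inter (hm ht))]
  refine integral_congr_ae ?_
  have h1 := koop_pow_coe (prodEquiv T) (prodEquiv_mp T hT) n
    (indicatorConstLp 2 ht (measure_ne_top (μ.prod μ) t) (1 : ℝ))
  have h2 := hmp.quasiMeasurePreserving.ae_eq_comp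
    (indicatorConstLp_coeFn (p := 2) (hs := ht) (hμs := measure_ne_top (μ.prod μ) t) (c := (1 : ℝ)))
  filter_upwards [h1, h2, indicatorConstLp_coeFn (p := 2) (hs := hs)
    (hμs := measure_ne_top (μ.prod μ) s) (c := (1 : ℝ))] with p h3 h4 h5
  rw [h3, h5]
  have h6 : ((indicatorConstLp 2 ht (measure_ne_top (μ.prod μ) t) (1 : ℝ) :
      Lp ℝ 2 (μ.prod μ)) ∘ (prodEquiv T : α × α → α × α)^[n]) p =
      t.indicator (fun _ => (1 : ℝ)) ((Prod.map T T)^[n] p) := h4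
  rw [h6]
  by_cases h7 : p ∈ s
  · by_cases h8 : (Prod.map T T)^[n] p ∈ t
    · rw [Set.indicator_of_mem h8, Set.indicator_of_mem h7,
        Set.indicator_of_mem (show p ∈ s ∩ (Prod.map T T)^[n] ⁻¹' t from ⟨h7, h8⟩)]
      simp
    · rw [Set.indicator_of_notMem h8, Set.indicator_of_notMem
        (show p ∉ s ∩ (Prod.map T T)^[n] ⁻¹' t from fun h => h8 h.2)]
      simp
  · rw [Set.indicator_of_notMem h7, Set.indicator_of_notMem
      (show p ∉ s ∩ (Prod.map T T)^[n] ⁻¹' t from fun h => h7 h.1)]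
    simp

/-- **an independent factor of the square of a weakly mixing transformation is mixing** -/
theorem mixing (F : Unit → MeasurableSpace (α × α))
    (hF : F () ≤ (Prod.instMeasurableSpace : MeasurableSpace (α × α)))
    (T : α ≃ᵐ α) (hT : MeasurePreserving T μ μ) (hE : Ergodic (Prod.map T T) (μ.prod μ))
    (hFS : ∀ s : Set (α × α), MeasurableSet[F ()] s ↔ MeasurableSet[F ()] (Prod.map T T ⁻¹' s))
    (hI₁ : Indep (F ()) (MeasurableSpace.comap Prod.fst (inferInstance : MeasurableSpace α))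
      (μ.prod μ))
    (hI₂ : Indep (F ()) (MeasurableSpace.comap Prod.snd (inferInstance : MeasurableSpace α))
      (μ.prod μ)) {s t : Set (α × α)} (hs : MeasurableSet s) (ht : MeasurableSet[F ()] t) :
    Tendsto (fun n : ℕ => (μ.prod μ).real (s ∩ (Prod.map T T)^[n] ⁻¹' t)) atTop
      (𝓝 ((μ.prod μ).real s * (μ.prod μ).real t)) := by
  have ht' : MeasurableSet t := hF t ht
  obtain ⟨It, hIt⟩ : ∃ I, I = indicatorConstLp 2 ht' (measure_ne_top (μ.prod μ) t) (1 : ℝ) :=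
    ⟨_, rfl⟩
  obtain ⟨Is, hIs⟩ : ∃ I, I = indicatorConstLp 2 hs (measure_ne_top (μ.prod μ) s) (1 : ℝ) :=
    ⟨_, rfl⟩
  have hIt' : It =ᵐ[μ.prod μ] t.indicator (fun _ => (1 : ℝ)) := by
    rw [hIt]
    exact indicatorConstLp_coeFn
  have hIs' : Is =ᵐ[μ.prod μ] s.indicator (fun _ => (1 : ℝ)) := by
    rw [hIs]
    exact indicatorConstLp_coeFn
  have hkZ : It - (μ.prod μ).real t • one (μ.prod μ) ∈
      ZF (F ()) (mΩ := Prod.instMeasurableSpace) (μ.prod μ) := by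
    rw [mem_ZF (mΩ := Prod.instMeasurableSpace)]
    have h1 : (It - (μ.prod μ).real t • one (μ.prod μ) : Lp ℝ 2 (μ.prod μ)) =ᵐ[μ.prod μ]
        fun p => t.indicator (fun _ => (1 : ℝ)) p - (μ.prod μ).real t := by
      filter_upwards [Lp.coeFn_sub It ((μ.prod μ).real t • one (μ.prod μ)), hIt',
        Lp.coeFn_smul ((μ.prod μ).real t) (one (μ.prod μ)), one_coe (ν := μ.prod μ)]
        with p h2 h3 h4 h5
      rw [h2, Pi.sub_apply, h3, h4, Pi.smul_apply, h5]
      simp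
    constructor
    · refine ⟨fun p => t.indicator (fun _ => (1 : ℝ)) p - (μ.prod μ).real t, ?_, h1⟩
      exact (stronglyMeasurable_const.indicator ht).sub stronglyMeasurable_const
    · rw [integral_congr_ae h1, integral_sub, integral_const]
      · have h2 : ∫ p, t.indicator (fun _ => (1 : ℝ)) p ∂(μ.prod μ) = (μ.prod μ).real t :=
          integral_indicator_one ht'
        rw [h2]
        simp
      · exact (integrable_const (1 : ℝ)).indicator ht'
      · exact integrable_const _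
  have h1 := tendsto_inner F hF T hT hE hFS hI₁ hI₂ _ hkZ Is
  have h2 : ∀ n : ℕ, ⟪(koop (prodEquiv T) (prodEquiv_mp T hT) ^ (n : ℤ))
      (It - (μ.prod μ).real t • one (μ.prod μ)), Is⟫_ℝ =
      (μ.prod μ).real (s ∩ (Prod.map T T)^[n] ⁻¹' t) -
        (μ.prod μ).real s * (μ.prod μ).real t := by
    intro n
    rw [map_sub, inner_sub_left, hIt, hIs, inner_indicator T hT hs ht' n, map_smul, real_inner_smul_left,
      ← hIs]
    have h3 : (koop (prodEquiv T) (prodEquiv_mp T hT) ^ (n : ℤ)) (one (μ.prod μ)) =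
        one (μ.prod μ) := by
      apply Lp.ext
      have hmp : MeasurePreserving ((Prod.map T T)^[n]) (μ.prod μ) (μ.prod μ) :=
        (prodEquiv_mp T hT).iterate n
      filter_upwards [koop_pow_coe (prodEquiv T) (prodEquiv_mp T hT) n (one (μ.prod μ)),
        hmp.quasiMeasurePreserving.ae_eq_comp (one_coe (ν := μ.prod μ)),
        one_coe (ν := μ.prod μ)] with p h4 h5 h6
      rw [h4, h6]
      exact h5
    rw [h3, inner_one, integral_congr_ae hIs']
    have h4 : ∫ p, s.indicator (fun _ => (1 : ℝ)) p ∂(μ.prod μ) = (μ.prod μ).real s :=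
      integral_indicator_one hs
    rw [h4]
    ring
  have h3 := h1.add_const ((μ.prod μ).real s * (μ.prod μ).real t)
  rw [zero_add] at h3
  refine h3.congr (fun n => ?_)
  rw [h2]
  ring

end

end Pool.Agent.Work.MP_fa3ce5_an

end

section

/-!
# Partial rigidity of the square
-/

set_option autoImplicit false

namespace Pool.Agent.Work.MP_fa3ce5_an

open Filter Topology Set MeasureTheory ProbabilityTheory
open scoped InnerProductSpace ENNReal symmDiff

noncomputable section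

/-- partial rigidity along the times `n`, in a form with real numbers -/
def PR {Ω : Type*} [MeasurableSpace Ω] (ν : Measure Ω) (S : Ω → Ω) (c : ℝ) (n : ℕ → ℕ) : Prop :=
  ∀ A : Set Ω, MeasurableSet A → ∀ δ : ℝ, 0 < δ →
    ∀ᶠ j in atTop, c * ν.real A - δ ≤ ν.real (A ∩ S^[n j] ⁻¹' A)

variable {α : Type*} [MeasurableSpace α] {μ : Measure α} [IsProbabilityMeasure μ]

/-- the finite unions of rectangles -/
def alg (α : Type*) [MeasurableSpace α] : Set (Set (α × α)) :=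
  {s | ∃ (ι : Type) (_ : Fintype ι) (_ : MeasurableSpace ι) (_ : MeasurableSingletonClass ι)
    (f : α → ι), Measurable f ∧ ∃ D : Set (ι × ι), s = {p | (f p.1, f p.2) ∈ D}}

theorem alg_isSetAlgebra : IsSetAlgebra (alg α) where
  empty_mem := by
    refine ⟨Unit, inferInstance, inferInstance, inferInstance, fun _ => (), measurable_const, ∅, ?_⟩
    ext p
    simp
  compl_mem := by
    rintro s ⟨ι, h1, h2, h3, f, hf, D, rfl⟩
    exact ⟨ι, h1, h2, h3, f, hf, Dᶜ, rfl⟩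
  union_mem := by
    rintro s t ⟨ι, h1, h2, h3, f, hf, D, rfl⟩ ⟨ι', h1', h2', h3', f', hf', D', rfl⟩
    refine ⟨ι × ι', inferInstance, inferInstance, inferInstance, fun x => (f x, f' x),
      hf.prodMk hf', {q | (q.1.1, q.2.1) ∈ D ∨ (q.1.2, q.2.2) ∈ D'}, ?_⟩
    rfl

theorem alg_meas {s : Set (α × α)} (hs : s ∈ alg α) : MeasurableSet s := by
  obtain ⟨ι, h1, h2, h3, f, hf, D, rfl⟩ := hs
  have h4 : Measurable (fun p : α × α => (f p.1, f p.2)) :=
    (hf.comp measurable_fst).prodMk (hf.comp measurable_snd)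
  exact h4 (Set.toFinite D).measurableSet

open Classical in
theorem rect_mem {A B : Set α} (hA : MeasurableSet A) (hB : MeasurableSet B) :
    A ×ˢ B ∈ alg α := by
  refine ⟨Bool × Bool, inferInstance, inferInstance, inferInstance,
    fun x => (decide (x ∈ A), decide (x ∈ B)), ?_, {q | q.1.1 = true ∧ q.2.2 = true}, ?_⟩
  · refine Measurable.prodMk ?_ ?_
    · apply measurable_to_bool
      have h1 : (fun x => decide (x ∈ A)) ⁻¹' {true} = A := by
        ext x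
        simp
      rw [h1]
      exact hA
    · apply measurable_to_bool
      have h1 : (fun x => decide (x ∈ B)) ⁻¹' {true} = B := by
        ext x
        simp
      rw [h1]
      exact hB
  · ext p
    simp [Set.mem_prod]

theorem alg_gen : (Prod.instMeasurableSpace : MeasurableSpace (α × α)) =
    MeasurableSpace.generateFrom (alg α) := by
  apply le_antisymm
  · rw [← generateFrom_prod]
    apply MeasurableSpace.generateFrom_mono
    rintro s ⟨A, hA, B, hB, rfl⟩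
    exact rect_mem hA hB
  · apply MeasurableSpace.generateFrom_le
    intro s hs
    exact alg_meas hs

theorem alg_dense (ε : ℝ) (hε : 0 < ε) {A : Set (α × α)} (hA : MeasurableSet A) :
    ∃ s ∈ alg α, (μ.prod μ).real (A ∆ s) < ε := by
  have h1 := Measure.MeasureDense.of_generateFrom_isSetAlgebra_finite (μ.prod μ)
    (alg_isSetAlgebra (α := α)) alg_gen
  obtain ⟨s, hs, h2⟩ := h1.approx A hA (measure_ne_top _ _) ε hε
  refine ⟨s, hs, ?_⟩
  unfold Measure.real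
  rw [← ENNReal.toReal_ofReal hε.le]
  exact (ENNReal.toReal_lt_toReal (measure_ne_top _ _) ENNReal.ofReal_ne_top).mpr h2

theorem PR_rect {T : α → α} {c : ℝ} (hc0 : 0 ≤ c) (hc1 : c ≤ 1) {n : ℕ → ℕ} (h : PR μ T c n)
    {A B : Set α} (hA : MeasurableSet A) (hB : MeasurableSet B) (δ : ℝ) (hδ : 0 < δ) :
    ∀ᶠ j in atTop, c ^ 2 * (μ.prod μ).real (A ×ˢ B) - δ ≤
      (μ.prod μ).real (A ×ˢ B ∩ (Prod.map T T)^[n j] ⁻¹' (A ×ˢ B)) := by
  filter_upwards [h A hA (δ / 2) (by positivity), h B hB (δ / 2) (by positivity)] with j h1 h2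
  have h3 : A ×ˢ B ∩ (Prod.map T T)^[n j] ⁻¹' (A ×ˢ B) =
      (A ∩ T^[n j] ⁻¹' A) ×ˢ (B ∩ T^[n j] ⁻¹' B) := by
    ext p
    rw [Prod.map_iterate]
    simp only [Set.mem_inter_iff, Set.mem_preimage, Set.mem_prod, Prod.map_fst, Prod.map_snd]
    tauto
  rw [h3, measureReal_prod_prod, measureReal_prod_prod]
  have hA1 : μ.real A ≤ 1 := measureReal_le_one
  have hB1 : μ.real B ≤ 1 := measureReal_le_one
  have hA0 : 0 ≤ μ.real A := measureReal_nonneg
  have hB0 : 0 ≤ μ.real B := measureReal_nonneg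
  have ha0 : 0 ≤ μ.real (A ∩ T^[n j] ⁻¹' A) := measureReal_nonneg
  have hb0 : 0 ≤ μ.real (B ∩ T^[n j] ⁻¹' B) := measureReal_nonneg
  have hx0 : 0 ≤ c * μ.real A := by positivity
  have hy0 : 0 ≤ c * μ.real B := by positivity
  have hx1 : c * μ.real A ≤ 1 := mul_le_one₀ hc1 hA0 hA1
  have hy1 : c * μ.real B ≤ 1 := mul_le_one₀ hc1 hB0 hB1
  have h4 : c ^ 2 * (μ.real A * μ.real B) = (c * μ.real A) * (c * μ.real B) := by ring
  rw [h4]
  generalize c * μ.real A = x at *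
  generalize c * μ.real B = y at *
  generalize μ.real (A ∩ T^[n j] ⁻¹' A) = a at *
  generalize μ.real (B ∩ T^[n j] ⁻¹' B) = b at *
  by_cases hx : x ≤ δ / 2
  · have h5 : x * y ≤ δ / 2 * 1 := mul_le_mul hx hy1 hy0 (by positivity)
    have h6 : 0 ≤ a * b := mul_nonneg ha0 hb0
    linarith
  · by_cases hy : y ≤ δ / 2
    · have h5 : x * y ≤ 1 * (δ / 2) := mul_le_mul hx1 hy hy0 zero_le_one
      have h6 : 0 ≤ a * b := mul_nonneg ha0 hb0
      linarith
    · push Not at hx hy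
      have h5 : (x - δ / 2) * (y - δ / 2) ≤ a * b :=
        mul_le_mul h1 h2 (by linarith) ha0
      nlinarith [mul_nonneg (sub_nonneg.mpr hx1) hδ.le, mul_nonneg (sub_nonneg.mpr hy1) hδ.le]

theorem PR_alg {T : α → α} (hTm : Measurable T) {c : ℝ} (hc0 : 0 ≤ c) (hc1 : c ≤ 1) {n : ℕ → ℕ}
    (h : PR μ T c n) {s : Set (α × α)} (hs : s ∈ alg α) (δ : ℝ) (hδ : 0 < δ) :
    ∀ᶠ j in atTop, c ^ 2 * (μ.prod μ).real s - δ ≤
      (μ.prod μ).real (s ∩ (Prod.map T T)^[n j] ⁻¹' s) := by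
  classical
  obtain ⟨ι, h1, h2, h3, f, hf, D, rfl⟩ := hs
  obtain ⟨C, hC⟩ : ∃ C : ι × ι → Set (α × α), C = fun d => (f ⁻¹' {d.1}) ×ˢ (f ⁻¹' {d.2}) :=
    ⟨_, rfl⟩
  have hm : ∀ i, MeasurableSet (f ⁻¹' {i}) := fun i => hf (measurableSet_singleton i)
  have hCm : ∀ d, MeasurableSet (C d) := by
    intro d
    rw [hC]
    exact (hm _).prod (hm _)
  have hSm : ∀ j, Measurable ((Prod.map T T)^[n j]) := fun j => (hTm.prodMap hTm).iterate _
  have hCd : ∀ d d', d ≠ d' → Disjoint (C d) (C d') := by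
    intro d d' hne
    rw [Set.disjoint_left]
    intro p hp hp'
    rw [hC] at hp hp'
    apply hne
    have e1 : f p.1 = d.1 := hp.1
    have e2 : f p.2 = d.2 := hp.2
    have e3 : f p.1 = d'.1 := hp'.1
    have e4 : f p.2 = d'.2 := hp'.2
    exact Prod.ext (e1.symm.trans e3) (e2.symm.trans e4)
  have hcov : {p : α × α | (f p.1, f p.2) ∈ D} = ⋃ d ∈ D.toFinset, C d := by
    ext p
    simp only [mem_iUnion, exists_prop, Set.mem_toFinset]
    constructor
    · intro hp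
      exact ⟨_, hp, by rw [hC]; exact ⟨rfl, rfl⟩⟩
    · rintro ⟨d, hd, hp⟩
      rw [hC] at hp
      have e1 : f p.1 = d.1 := hp.1
      have e2 : f p.2 = d.2 := hp.2
      show (f p.1, f p.2) ∈ D
      rw [e1, e2]
      exact hd
  have hmeas : (μ.prod μ).real {p : α × α | (f p.1, f p.2) ∈ D} =
      ∑ d ∈ D.toFinset, (μ.prod μ).real (C d) := by
    rw [hcov, measureReal_biUnion_finset]
    · intro d _ d' _ hne
      exact hCd d d' hne
    · intro d _
      exact hCm d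
  have hall : ∀ᶠ j in atTop, ∀ d ∈ D.toFinset, c ^ 2 * (μ.prod μ).real (C d) -
      δ / (D.toFinset.card + 1) ≤ (μ.prod μ).real (C d ∩ (Prod.map T T)^[n j] ⁻¹' (C d)) := by
    rw [Filter.eventually_all_finset]
    intro d _
    rw [hC]
    exact PR_rect hc0 hc1 h (hm _) (hm _) _ (by positivity)
  filter_upwards [hall] with j hj
  have h4 : ∑ d ∈ D.toFinset, (μ.prod μ).real (C d ∩ (Prod.map T T)^[n j] ⁻¹' (C d)) ≤
      (μ.prod μ).real ({p : α × α | (f p.1, f p.2) ∈ D} ∩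
        (Prod.map T T)^[n j] ⁻¹' {p : α × α | (f p.1, f p.2) ∈ D}) := by
    rw [← measureReal_biUnion_finset]
    · apply measureReal_mono
      · rw [hcov]
        intro p hp
        simp only [mem_iUnion, exists_prop] at hp
        obtain ⟨d, hd, hp1, hp2⟩ := hp
        exact ⟨mem_biUnion hd hp1, mem_biUnion hd hp2⟩
      · exact measure_ne_top _ _
    · intro d _ d' _ hne
      exact (hCd d d' hne).mono inter_subset_left inter_subset_left
    · intro d _
      exact (hCm d).inter ((hSm j) (hCm d))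
  have h5 : ∑ d ∈ D.toFinset, (c ^ 2 * (μ.prod μ).real (C d) - δ / (D.toFinset.card + 1)) ≤
      ∑ d ∈ D.toFinset, (μ.prod μ).real (C d ∩ (Prod.map T T)^[n j] ⁻¹' (C d)) :=
    Finset.sum_le_sum hj
  rw [Finset.sum_sub_distrib, ← Finset.mul_sum, ← hmeas, Finset.sum_const, nsmul_eq_mul] at h5
  have h6 : (D.toFinset.card : ℝ) * (δ / (D.toFinset.card + 1)) ≤ δ := by
    rw [← mul_div_assoc, div_le_iff₀ (by positivity)]
    nlinarith [Nat.cast_nonneg (α := ℝ) D.toFinset.card]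
  linarith

theorem PR_prod {T : α → α} (hT : MeasurePreserving T μ μ) {c : ℝ} (hc0 : 0 ≤ c) (hc1 : c ≤ 1)
    {n : ℕ → ℕ} (h : PR μ T c n) : PR (μ.prod μ) (Prod.map T T) (c ^ 2) n := by
  intro A hA δ hδ
  obtain ⟨s, hs, hd⟩ := alg_dense (μ := μ) (δ / 4) (by positivity) hA
  have hsm := alg_meas hs
  have hmp : ∀ m, MeasurePreserving ((Prod.map T T)^[m]) (μ.prod μ) (μ.prod μ) :=
    fun m => (hT.prod hT).iterate m
  filter_upwards [PR_alg hT.measurable hc0 hc1 h hs (δ / 4) (by positivity)] with j hj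
  have h1 : (μ.prod μ).real (s ∩ (Prod.map T T)^[n j] ⁻¹' s) ≤
      (μ.prod μ).real (A ∩ (Prod.map T T)^[n j] ⁻¹' A) + (μ.prod μ).real (A ∆ s) +
        (μ.prod μ).real (A ∆ s) := by
    have h2 : s ∩ (Prod.map T T)^[n j] ⁻¹' s ⊆ (A ∩ (Prod.map T T)^[n j] ⁻¹' A) ∪ (A ∆ s) ∪
        (Prod.map T T)^[n j] ⁻¹' (A ∆ s) := by
      rintro p ⟨hp1, hp2⟩
      by_cases h3 : p ∈ A
      · by_cases h4 : (Prod.map T T)^[n j] p ∈ A
        · exact Or.inl (Or.inl ⟨h3, h4⟩)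
        · exact Or.inr (Or.inr ⟨hp2, h4⟩)
      · exact Or.inl (Or.inr (Or.inr ⟨hp1, h3⟩))
    refine (measureReal_mono h2 (measure_ne_top _ _)).trans ?_
    refine (measureReal_union_le _ _).trans ?_
    refine add_le_add (measureReal_union_le _ _) ?_
    rw [(hmp (n j)).measureReal_preimage (hA.symmDiff hsm).nullMeasurableSet]
  have h2 : (μ.prod μ).real A ≤ (μ.prod μ).real s + (μ.prod μ).real (A ∆ s) := by
    refine (measureReal_mono (s₂ := s ∪ A ∆ s) ?_ (measure_ne_top _ _)).trans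
      (measureReal_union_le _ _)
    intro p hp
    by_cases h3 : p ∈ s
    · exact Or.inl h3
    · exact Or.inr (Or.inl ⟨hp, h3⟩)
  have h3 : c ^ 2 * (μ.prod μ).real A ≤ c ^ 2 * (μ.prod μ).real s + (μ.prod μ).real (A ∆ s) := by
    have h4 : c ^ 2 ≤ 1 := by nlinarith
    have h5 : 0 ≤ (μ.prod μ).real (A ∆ s) := measureReal_nonneg
    nlinarith [mul_le_mul_of_nonneg_left h2 (sq_nonneg c), mul_nonneg (sub_nonneg.mpr h4) h5]
  linarith

end

end Pool.Agent.Work.MP_fa3ce5_an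

end
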